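import Mathlib

/-!
# Signs, Fourier counting over `ZMod 2`, and the Artin-Schreier character
-/

set_option autoImplicit false

namespace Pool.Agent.Lib.MP_61ca19_lc

open Finset

/-- The sign `(-1)^a`. -/
def sg (a : ZMod 2) : ℝ := if a = 0 then 1 else -1

theorem z2_cases (a : ZMod 2) : a = 0 ∨ a = 1 := by
  revert a
  decide

theorem z2_add_self (a : ZMod 2) : a + a = 0 := by
  revert a
  decide

theorem z2_eq_of_add {a b : ZMod 2} (h : a + b = 0) : a = b := by
  revert a b
  decide

theorem z2_eq_one {a : ZMod 2} (h : a ≠ 0) : a = 1 := (z2_cases a).resolve_left h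

@[simp] theorem sg_zero : sg 0 = 1 := if_pos rfl

@[simp] theorem sg_one : sg 1 = -1 := if_neg (by decide)

theorem sg_add (a b : ZMod 2) : sg (a + b) = sg a * sg b := by
  rcases z2_cases a with rfl | rfl <;> rcases z2_cases b with rfl | rfl <;>
    simp [z2_add_self]

theorem abs_sg (a : ZMod 2) : |sg a| = 1 := by
  rcases z2_cases a with rfl | rfl <;> simp

theorem sum_sg_shift {G : Type} [AddCommGroup G] [Fintype G] (f : G → ZMod 2) (δ : G)
    (h : ∀ w, f (w + δ) = f w + 1) : ∑ w, sg (f w) = 0 := by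
  have h1 : ∑ w, sg (f (w + δ)) = ∑ w, sg (f w) :=
    Fintype.sum_equiv (Equiv.addRight δ) _ _ fun _ => rfl
  simp only [h, sg_add, sg_one, mul_neg, mul_one, Finset.sum_neg_distrib] at h1
  linarith

theorem abs_sum_sg_le {G : Type} [Fintype G] (f : G → ZMod 2) :
    |∑ w, sg (f w)| ≤ Fintype.card G := by
  refine (Finset.abs_sum_le_sum_abs _ _).trans ?_
  simp [abs_sg]

open Classical in
/-- Counting common zeros by characters. -/
theorem fourier {G Θ : Type} [Fintype G] [AddCommGroup Θ] [Fintype Θ] (ph : Θ → G → ZMod 2)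
    (h : ∀ a b w, ph (a + b) w = ph a w + ph b w) :
    (Fintype.card Θ : ℝ) * #{w | ∀ a, ph a w = 0} = ∑ a, ∑ w, sg (ph a w) := by
  rw [Finset.sum_comm, Finset.card_filter, Nat.cast_sum, Finset.mul_sum]
  refine Finset.sum_congr rfl fun w _ => ?_
  by_cases hw : ∀ a, ph a w = 0
  · simp [hw]
  · rw [if_neg hw]
    push Not at hw
    obtain ⟨b, hb⟩ := hw
    rw [sum_sg_shift (fun a => ph a w) b fun a => by rw [h, z2_eq_one hb]]
    simp

open Classical in
/-- Independent affine conditions. -/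
theorem count_affine {G Θ : Type} [AddCommGroup G] [Fintype G] [AddCommGroup Θ] [Fintype Θ]
    (ph : Θ → G → ZMod 2) (h : ∀ a b w, ph (a + b) w = ph a w + ph b w)
    (hs : ∀ a, a ≠ 0 → ∃ δ, ∀ w, ph a (w + δ) = ph a w + 1) :
    (Fintype.card Θ : ℝ) * #{w | ∀ a, ph a w = 0} = Fintype.card G := by
  rw [fourier ph h, Finset.sum_eq_single 0]
  · have h0 : ∀ w, ph 0 w = 0 := fun w => by
      have := h 0 0 w
      rwa [add_zero, z2_add_self] at this
    simp [h0]
  · intro a _ ha
    obtain ⟨δ, hδ⟩ := hs a ha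
    exact sum_sg_shift _ δ hδ
  · simp

section Field

variable {k : Type} [Field k] [CharP k 2]

/-- The Artin-Schreier map. -/
def wp (k : Type) [Field k] [CharP k 2] : k →+ k where
  toFun x := x ^ 2 + x
  map_zero' := by simp
  map_add' x y := by
    rw [CharTwo.add_sq]
    abel

theorem wp_index [Finite k] : (wp k).range.index = 2 := by
  have h1 : Nat.card (wp k).ker = 2 := by
    rw [Nat.card_eq_two_iff' (0 : (wp k).ker)]
    refine ⟨⟨1, ?_⟩, ?_, ?_⟩
    · change (1 : k) ^ 2 + 1 = 0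
      rw [one_pow, CharTwo.add_self_eq_zero]
    · intro h
      exact one_ne_zero (congrArg Subtype.val h)
    · rintro ⟨y, hy⟩ h0
      have h2 : y * (y + 1) = 0 := by
        have : y ^ 2 + y = 0 := hy
        linear_combination this
      have h3 : y ≠ 0 := fun h => h0 (Subtype.ext h)
      exact Subtype.ext (CharTwo.add_eq_zero.1 ((mul_eq_zero.1 h2).resolve_left h3))
  have h2 := (wp k).ker.card_mul_index
  have h3 := (wp k).range.card_mul_index
  rw [AddSubgroup.index_ker, h1] at h2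
  have h4 : 0 < Nat.card (wp k).range := Nat.card_pos
  nlinarith

/-- A Frobenius invariant character of a finite field is determined by being nonzero. -/
theorem inv_eq_zero_iff [Finite k] (ψ : k →+ ZMod 2) (hψ : ∀ x, ψ (x ^ 2) = ψ x) (h0 : ψ ≠ 0)
    (x : k) : ψ x = 0 ↔ ∃ y, x = y ^ 2 + y := by
  have h1 : ∀ x ∈ (wp k).range, ψ x = 0 := by
    rintro _ ⟨y, rfl⟩
    change ψ (y ^ 2 + y) = 0
    rw [map_add, hψ, z2_add_self]
  refine ⟨fun hx => ?_, fun ⟨y, hy⟩ => h1 x ⟨y, hy.symm⟩⟩
  by_contra hne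
  have hx' : x ∉ (wp k).range := fun ⟨y, hy⟩ => hne ⟨y, hy.symm⟩
  refine h0 (AddMonoidHom.ext fun z => ?_)
  by_cases hz : z ∈ (wp k).range
  · exact h1 z hz
  · have := h1 _ ((AddSubgroup.add_mem_iff_of_index_two wp_index).2 (iff_of_false hz hx'))
    rwa [map_add, hx, add_zero] at this

theorem inv_unique [Finite k] (ψ ψ' : k →+ ZMod 2) (hψ : ∀ x, ψ (x ^ 2) = ψ x) (h0 : ψ ≠ 0)
    (hψ' : ∀ x, ψ' (x ^ 2) = ψ' x) (h0' : ψ' ≠ 0) : ψ = ψ' := by
  ext x
  have h := (inv_eq_zero_iff ψ hψ h0 x).trans (inv_eq_zero_iff ψ' hψ' h0' x).symm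
  by_cases hx : ψ x = 0
  · rw [hx, h.1 hx]
  · rw [z2_eq_one hx, z2_eq_one fun h' => hx (h.2 h')]

open Classical in
theorem exists_tau (k : Type) [Field k] [CharP k 2] [Finite k] :
    ∃ τ : k →+ ZMod 2, (∀ x, τ (x ^ 2) = τ x) ∧ τ ≠ 0 := by
  have ha := fun a b => AddSubgroup.add_mem_iff_of_index_two (wp_index (k := k)) (a := a) (b := b)
  let τ : k →+ ZMod 2 :=
    { toFun := fun x => if x ∈ (wp k).range then 0 else 1
      map_zero' := if_pos (zero_mem _)
      map_add' := fun x y => by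
        by_cases hx : x ∈ (wp k).range <;> by_cases hy : y ∈ (wp k).range <;>
          simp only [ha, hx, hy, if_true, if_false, iff_true, iff_false, not_true]  <;> decide }
  refine ⟨τ, fun x => z2_eq_of_add ?_, fun h => ?_⟩
  · rw [← map_add]
    exact if_pos ⟨x, rfl⟩
  · have h1 : (wp k).range = ⊤ := by
      rw [eq_top_iff]
      intro x _
      by_contra hx
      have h2 : τ x = 1 := if_neg hx
      rw [h] at h2
      exact absurd (show (0 : ZMod 2) = 1 from h2) (by decide)
    have := wp_index (k := k)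
    rw [h1, AddSubgroup.index_top] at this
    omega

end Field

end Pool.Agent.Lib.MP_61ca19_lc
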