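import Pool.Agent.Lib.MP_61ca19_lc.Basic

/-!
# A weak bound for Artin-Schreier character sums by Weyl differencing
-/

set_option autoImplicit false

namespace Pool.Agent.Lib.MP_61ca19_lc

open Finset Polynomial

variable {F : Type} [Field F] [CharP F 2]

/-- The Artin-Schreier class of `g` is constant. -/
def Triv (g : F[X]) : Prop := ∃ (s : F[X]) (c : F), g = s ^ 2 + s + C c

theorem coeff_sq_even (s : F[X]) (j : ℕ) : (s ^ 2).coeff (2 * j) = s.coeff j ^ 2 := by
  rw [← map_frobenius_expand, coeff_map, coeff_expand_mul' (by norm_num), frobenius_def]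

theorem coeff_sq_odd (s : F[X]) {n : ℕ} (hn : ¬ 2 ∣ n) : (s ^ 2).coeff n = 0 := by
  rw [← map_frobenius_expand, coeff_map, coeff_expand (by norm_num), if_neg hn, map_zero]

theorem natDegree_le_of_wp {s : F[X]} {c : F} {n : ℕ}
    (h : (s ^ 2 + s + C c).natDegree ≤ n) : 2 * s.natDegree ≤ n := by
  rcases Nat.eq_zero_or_pos s.natDegree with h0 | h0
  · omega
  refine le_trans (le_natDegree_of_ne_zero ?_) h
  rw [coeff_add, coeff_add, coeff_sq_even, coeff_eq_zero_of_natDegree_lt (p := s) (n := 2 * s.natDegree) (by omega),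
    coeff_C_of_ne_zero (by omega), add_zero, add_zero]
  exact pow_ne_zero _ (leadingCoeff_ne_zero.2 (ne_zero_of_natDegree_gt h0))

/-- An invariant of Artin-Schreier classes. -/
def invI (b : ℕ) (g : F[X]) : ℕ → F
  | 0 => g.coeff b
  | a + 1 => invI b g a ^ 2 + g.coeff (2 ^ (a + 1) * b)

theorem invI_wp {b : ℕ} (hb : ¬ 2 ∣ b) (s : F[X]) (c : F) (a : ℕ) :
    invI b (s ^ 2 + s + C c) a = s.coeff (2 ^ a * b) := by
  have hb0 : b ≠ 0 := by omega
  induction a with
  | zero => simp [invI, coeff_sq_odd s hb, coeff_C_of_ne_zero hb0]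
  | succ a ih =>
    have h1 : 2 ^ (a + 1) * b ≠ 0 := by positivity
    rw [invI, ih, coeff_add, coeff_add, coeff_C_of_ne_zero h1, add_zero]
    have h2 : (s ^ 2).coeff (2 ^ (a + 1) * b) = s.coeff (2 ^ a * b) ^ 2 := by
      rw [← coeff_sq_even]
      congr 1
      ring
    rw [h2, ← add_assoc, CharTwo.add_self_eq_zero, zero_add]

/-- The invariant of a difference of translates, as a polynomial in the shift. -/
noncomputable def polP (b : ℕ) (g : F[X]) : ℕ → F[X]
  | 0 => hasseDeriv b g + C (g.coeff b)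
  | a + 1 => polP b g a ^ 2 + (hasseDeriv (2 ^ (a + 1) * b) g + C (g.coeff (2 ^ (a + 1) * b)))

omit [CharP F 2] in
theorem eval_polP (b : ℕ) (g : F[X]) (h : F) (a : ℕ) :
    (polP b g a).eval h = invI b (taylor h g + g) a := by
  induction a with
  | zero => simp [polP, invI, taylor_coeff]
  | succ a ih => simp [polP, invI, taylor_coeff, ih]

theorem coeff_one_polP (b : ℕ) (g : F[X]) (a : ℕ) :
    (polP b g a).coeff 1 = ((2 ^ a * b + 1 : ℕ) : F) * g.coeff (2 ^ a * b + 1) := by
  cases a with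
  | zero => simp [polP, hasseDeriv_coeff, add_comm 1 b]
  | succ a =>
    rw [polP, coeff_add, coeff_add, coeff_sq_odd _ (by norm_num), coeff_C_of_ne_zero one_ne_zero,
      hasseDeriv_coeff, add_comm 1, Nat.choose_succ_self_right, zero_add, add_zero]

omit [CharP F 2] in
theorem natDegree_polP (b : ℕ) (g : F[X]) (a : ℕ) :
    (polP b g a).natDegree ≤ 2 ^ a * g.natDegree := by
  have h0 : ∀ j c, (hasseDeriv j g + C c).natDegree ≤ g.natDegree := fun j c => by
    rw [natDegree_add_C]
    exact (natDegree_hasseDeriv_le g j).trans (Nat.sub_le _ _)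
  induction a with
  | zero => simpa only [polP, pow_zero, one_mul] using h0 b _
  | succ a ih =>
    refine natDegree_add_le_of_degree_le (natDegree_pow_le.trans ?_) ((h0 _ _).trans ?_)
    · rw [pow_succ]
      nlinarith
    · exact Nat.le_mul_of_pos_left _ (by positivity)

theorem natDegree_taylor_add (g : F[X]) (h : F) :
    (taylor h g + g).natDegree ≤ g.natDegree - 1 := by
  refine natDegree_le_pred (natDegree_add_le_of_degree_le (natDegree_taylor g h).le le_rfl) ?_
  rw [coeff_add, coeff_taylor_natDegree]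
  exact CharTwo.add_self_eq_zero _

open Classical in
theorem card_triv_shift [Fintype F] {g : F[X]} (ho : ¬ 2 ∣ g.natDegree) (h1 : g.natDegree ≠ 1) :
    #{h : F | Triv (taylor h g + g)} ≤ g.natDegree ^ 2 := by
  obtain ⟨a, b, hb, hab⟩ := Nat.exists_eq_two_pow_mul_odd (n := g.natDegree - 1) (by omega)
  have hb' : ¬ 2 ∣ b := hb.not_two_dvd_nat
  have hn : 2 ^ a * b + 1 = g.natDegree := by omega
  have hP : polP b g a ≠ 0 := by
    intro h0
    have h2 := coeff_one_polP b g a
    rw [h0, coeff_zero, hn] at h2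
    rcases mul_eq_zero.1 h2.symm with h3 | h3
    · exact ho ((CharP.cast_eq_zero_iff F 2 _).1 h3)
    · exact ne_zero_of_natDegree_gt (n := 0) (by omega) (leadingCoeff_eq_zero.1 h3)
  have hpos : 0 < 2 ^ a * b := by
    have := hb.pos
    positivity
  refine (card_le_degree_of_subset_roots (p := polP b g a) fun h hh => ?_).trans
    ((natDegree_polP b g a).trans ?_)
  · obtain ⟨s, c, hs⟩ := (Finset.mem_filter.1 hh).2
    rw [mem_roots hP, IsRoot, eval_polP, hs, invI_wp hb']
    have h2 := natDegree_taylor_add g h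
    rw [hs] at h2
    have h3 := natDegree_le_of_wp h2
    exact coeff_eq_zero_of_natDegree_lt (by omega)
  · rw [sq]
    refine Nat.mul_le_mul_right _ ?_
    have : 2 ^ a ≤ 2 ^ a * b := Nat.le_mul_of_pos_right _ hb.pos
    omega

theorem bias (d : ℕ) : ∀ δ : ℝ, 0 < δ → ∃ q₀ : ℕ, ∀ (F : Type) [Field F] [CharP F 2] [Fintype F]
    (τ : F →+ ZMod 2), (∀ x, τ (x ^ 2) = τ x) → τ ≠ 0 → q₀ ≤ Fintype.card F →
    ∀ g : F[X], g.natDegree ≤ d → ¬ Triv g →
      |∑ t, sg (τ (g.eval t))| ≤ δ * Fintype.card F := by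
  classical
  induction d with
  | zero =>
    intro δ _
    refine ⟨0, fun F _ _ _ τ _ _ _ g hg hn => absurd ⟨0, g.coeff 0, ?_⟩ hn⟩
    simpa using eq_C_of_natDegree_le_zero hg
  | succ d ih =>
    intro δ hδ
    obtain ⟨q₁, hq₁⟩ := ih δ hδ
    obtain ⟨q₂, hq₂⟩ := ih (δ ^ 2 / 2) (by positivity)
    obtain ⟨q₃, hq₃⟩ := exists_nat_ge (2 * ((d + 1 : ℕ) : ℝ) ^ 2 / δ ^ 2)
    refine ⟨q₁ + q₂ + q₃, fun F _ _ _ τ hτ hτ0 hq g hg hn => ?_⟩
    rcases hg.lt_or_eq with hg | hg
    · exact hq₁ F τ hτ hτ0 (by omega) g (by omega) hn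
    have hQ : (0 : ℝ) < Fintype.card F := by exact_mod_cast Fintype.card_pos
    by_cases he : 2 ∣ g.natDegree
    · obtain ⟨k, hk⟩ := he
      obtain ⟨r, hr⟩ := surjective_frobenius F 2 g.leadingCoeff
      have hr' : r ^ 2 = g.leadingCoeff := hr
      let p : F[X] := monomial k r
      have hp : p.natDegree ≤ k := natDegree_monomial_le _
      have h1 : (g + (p ^ 2 + p)).natDegree ≤ d := by
        refine natDegree_le_pred (n := d + 1) (natDegree_add_le_of_degree_le hg.le
          (natDegree_add_le_of_degree_le (natDegree_pow_le.trans (by omega)) (by omega))) ?_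
        rw [coeff_add, coeff_add, coeff_eq_zero_of_natDegree_lt (p := p) (by omega), ← hg,
          coeff_natDegree, hk, coeff_sq_even, coeff_monomial_same, hr', add_zero]
        exact CharTwo.add_self_eq_zero _
      have h2 : ¬ Triv (g + (p ^ 2 + p)) := by
        rintro ⟨s, c, hs⟩
        refine hn ⟨s + p, c, ?_⟩
        rw [CharTwo.add_sq]
        linear_combination hs - CharTwo.add_self_eq_zero (p ^ 2 + p)
      have h3 := hq₁ F τ hτ hτ0 (by omega) _ h1 h2
      simpa only [eval_add, eval_pow, map_add, hτ, z2_add_self, add_zero] using h3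
    by_cases h1 : g.natDegree = 1
    · obtain ⟨ε, hε⟩ := DFunLike.ne_iff.1 hτ0
      have hc : g.coeff 1 ≠ 0 := by
        rw [← h1]
        exact leadingCoeff_ne_zero.2 (ne_zero_of_natDegree_gt (n := 0) (by omega))
      rw [sum_sg_shift _ (ε / g.coeff 1) fun t => ?_, abs_zero]
      · positivity
      · rw [← z2_eq_one hε, ← map_add, eq_X_add_C_of_natDegree_le_one h1.le]
        congr 1
        simp only [eval_add, eval_mul, eval_C, eval_X, coeff_add, coeff_C_mul, coeff_X_one,
          coeff_C_of_ne_zero one_ne_zero, mul_one, add_zero]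
        field_simp
        ring
    have hsq : (∑ t, sg (τ (g.eval t))) ^ 2 = ∑ h, ∑ t, sg (τ ((taylor h g + g).eval t)) := by
      rw [sq, Finset.sum_mul_sum, Finset.sum_comm, Finset.sum_comm (f := fun h t =>
        sg (τ ((taylor h g + g).eval t)))]
      refine Finset.sum_congr rfl fun t _ => (Fintype.sum_equiv (Equiv.addLeft t) _ _ fun h => ?_).symm
      simp only [eval_add, taylor_eval, map_add, sg_add, Equiv.coe_addLeft]
    have hle : ∀ h, ∑ t, sg (τ ((taylor h g + g).eval t)) ≤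
        (if Triv (taylor h g + g) then (Fintype.card F : ℝ) else 0) +
          δ ^ 2 / 2 * Fintype.card F := by
      intro h
      split_ifs with ht
      · have := (le_abs_self _).trans (abs_sum_sg_le fun t => τ ((taylor h g + g).eval t))
        have h2 : 0 ≤ δ ^ 2 / 2 * Fintype.card F := by positivity
        linarith
      · rw [zero_add]
        exact (le_abs_self _).trans (hq₂ F τ hτ hτ0 (by omega) _
          ((natDegree_taylor_add g h).trans (by omega)) ht)
    have h2 : (#{h : F | Triv (taylor h g + g)} : ℝ) ≤ ((d + 1 : ℕ) : ℝ) ^ 2 := by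
      rw [← hg]
      exact_mod_cast card_triv_shift he h1
    have h3 : 2 * ((d + 1 : ℕ) : ℝ) ^ 2 ≤ δ ^ 2 * Fintype.card F := by
      rw [div_le_iff₀ (by positivity)] at hq₃
      have : (q₃ : ℝ) ≤ Fintype.card F := by exact_mod_cast (by omega : q₃ ≤ Fintype.card F)
      nlinarith [sq_nonneg δ]
    refine abs_le_of_sq_le_sq' ?_ (by positivity) |> abs_le.2
    rw [hsq]
    refine (Finset.sum_le_sum fun h _ => hle h).trans ?_
    rw [Finset.sum_add_distrib, ← Finset.sum_filter, Finset.sum_const, Finset.sum_const,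
      nsmul_eq_mul, nsmul_eq_mul, Finset.card_univ]
    nlinarith

open Classical in
/-- Two nontrivial classes are simultaneously nontrivial at many places. -/
theorem places (d : ℕ) : ∃ q₀ : ℕ, ∀ (F : Type) [Field F] [CharP F 2] [Fintype F]
    (τ : F →+ ZMod 2), (∀ x, τ (x ^ 2) = τ x) → τ ≠ 0 → q₀ ≤ Fintype.card F →
    ∀ g₁ g₂ : F[X], g₁.natDegree ≤ d → g₂.natDegree ≤ d → ¬ Triv g₁ → ¬ Triv g₂ →
      (Fintype.card F : ℝ) ≤ 8 * #{t | τ (g₁.eval t + g₁.eval 0) = 1 ∧
        τ (g₂.eval t + g₂.eval 0) = 1} := by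
  obtain ⟨q₀, hq₀⟩ := bias d (1 / 6) (by norm_num)
  refine ⟨q₀, fun F _ _ _ τ hτ hτ0 hq g₁ g₂ h₁ h₂ n₁ n₂ => ?_⟩
  have hb : ∀ g : F[X], g.natDegree ≤ d → ¬ Triv g →
      |∑ t, sg (τ (g.eval t + g.eval 0))| ≤ 1 / 6 * Fintype.card F := by
    intro g h n
    simp only [map_add, sg_add]
    rw [← Finset.sum_mul, abs_mul, abs_sg, mul_one]
    exact hq₀ F τ hτ hτ0 hq g h n
  have hQ : (0 : ℝ) < Fintype.card F := by exact_mod_cast Fintype.card_pos
  have h12 : -(1 / 6 * Fintype.card F : ℝ) ≤ ∑ t, sg (τ ((g₁ + g₂).eval t + (g₁ + g₂).eval 0)) := by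
    by_cases ht : Triv (g₁ + g₂)
    · obtain ⟨s, c, hs⟩ := ht
      have : ∀ t, τ ((g₁ + g₂).eval t + (g₁ + g₂).eval 0) = 0 := fun t => by
        simp only [hs, eval_add, eval_pow, eval_C, map_add, hτ, z2_add_self, zero_add]
      simp only [this, sg_zero, Finset.sum_const, Finset.card_univ, nsmul_eq_mul]
      linarith
    · exact (abs_le.1 (hb _ (natDegree_add_le_of_degree_le h₁ h₂) ht)).1
  have key : (4 : ℝ) * #{t | τ (g₁.eval t + g₁.eval 0) = 1 ∧ τ (g₂.eval t + g₂.eval 0) = 1} =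
      ∑ t, (1 - sg (τ (g₁.eval t + g₁.eval 0)) - sg (τ (g₂.eval t + g₂.eval 0)) +
        sg (τ ((g₁ + g₂).eval t + (g₁ + g₂).eval 0))) := by
    rw [Finset.card_filter, Nat.cast_sum, Finset.mul_sum]
    refine Finset.sum_congr rfl fun t _ => ?_
    rw [eval_add, eval_add, add_add_add_comm, map_add τ (g₁.eval t + g₁.eval 0), sg_add]
    rcases z2_cases (τ (g₁.eval t + g₁.eval 0)) with e | e <;>
      rcases z2_cases (τ (g₂.eval t + g₂.eval 0)) with e' | e' <;> simp [e, e'] <;> norm_num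
  rw [Finset.sum_add_distrib, Finset.sum_sub_distrib, Finset.sum_sub_distrib, Finset.sum_const,
    Finset.card_univ, nsmul_eq_mul] at key
  have b1 := (abs_le.1 (hb g₁ h₁ n₁)).2
  have b2 := (abs_le.1 (hb g₂ h₂ n₂)).2
  linarith

end Pool.Agent.Lib.MP_61ca19_lc
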