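import Pool.Agent.Lib.MP_61ca19_lc.Phase

/-!
# Counting common neighbours in an affine family
-/

set_option autoImplicit false

namespace Pool.Agent.Lib.MP_61ca19_lc

open Finset Polynomial

variable {F : Type} [Field F] [CharP F 2] [Fintype F]

theorem natCard_dual : Nat.card (F →+ ZMod 2) = Fintype.card F := by
  let _ : Algebra (ZMod 2) F := ZMod.algebra F 2
  rw [Nat.card_congr (AddMonoidHom.toZModLinearMapEquiv 2 (M := F) (M₁ := ZMod 2)).toEquiv,
    Module.natCard_eq_pow_finrank (K := ZMod 2), ← Nat.card_eq_fintype_card,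
    Module.natCard_eq_pow_finrank (K := ZMod 2) (V := F)]
  exact congrArg _ Subspace.dual_finrank_eq

noncomputable instance : Fintype (F →+ ZMod 2) :=
  @Fintype.ofFinite _ (Nat.finite_of_card_ne_zero (natCard_dual.trans_ne Fintype.card_ne_zero))

theorem card_dual : Fintype.card (F →+ ZMod 2) = Fintype.card F := by
  rw [← Nat.card_eq_fintype_card, natCard_dual]

theorem card_Th : Fintype.card (Th F) = Fintype.card F ^ 101 := by
  rw [Fintype.card_fun, card_dual, Fintype.card_fin]

noncomputable instance : Fintype (Th0 F) := Fintype.ofFinite _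

variable {ι κ : Type} [Fintype ι] [Fintype κ] [DecidableEq κ] [DecidableEq ι]

omit [Fintype κ] [DecidableEq κ] in
theorem card_Th0_le (hι : Fintype.card ι ≤ 3) :
    Fintype.card (ι → Th0 F) ≤ Fintype.card F ^ 303 := by
  rw [Fintype.card_fun]
  have h1 : Fintype.card (Th0 F) ≤ Fintype.card F ^ 101 :=
    card_Th (F := F) ▸ Fintype.card_le_of_injective _ Subtype.val_injective
  refine (Nat.pow_le_pow_left h1 _).trans ?_
  rw [← pow_mul]
  exact Nat.pow_le_pow_right Fintype.card_pos (by omega)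

omit [Fintype κ] [DecidableEq κ] [CharP F 2] [Fintype F] in
theorem forall_dadj_iff (g : ι → F[X]) :
    (∀ θ : ι → Th0 F, ∑ l, phi (θ l).1 (g l) = 0) ↔ ∀ l, DAdj (g l) := by
  refine ⟨fun h l θ hθ => ?_, fun h θ => Finset.sum_eq_zero fun l _ => h l _ (θ l).2⟩
  have := h (Pi.single l ⟨θ, hθ⟩)
  rwa [Finset.sum_eq_single l, Pi.single_eq_same] at this
  · intro j _ hj
    rw [Pi.single_eq_of_ne hj]
    exact phi_zero _
  · simp

open Classical in
theorem count_eq (f : F[X]) (a b : ι → κ → F[X]) :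
    (Fintype.card (ι → Th0 F) : ℝ) * #{w : Par F κ | ∀ l, DAdj (gz f (a l) (b l) w)} =
      ∑ θ : ι → Th0 F, ∑ w : Par F κ, sg (∑ l, phi (θ l).1 (gz f (a l) (b l) w)) := by
  rw [← fourier (fun (θ : ι → Th0 F) (w : Par F κ) => ∑ l, phi (θ l).1 (gz f (a l) (b l) w))
    fun θ θ' w => by simp only [Pi.add_apply, AddSubgroup.coe_add, phi_add, Finset.sum_add_distrib]]
  simp only [forall_dadj_iff]

open Classical in
theorem count_lower (hι : Fintype.card ι ≤ 3)
    (hD : 2 * (Fintype.card F : ℝ) ^ 303 ≤ (Fintype.card F : ℝ) ^ Fintype.card κ) {ρ : F}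
    {L b : ι → κ → F[X]} {Ss : κ → F[X]} (hG : GenL L) (hS : ∀ i, (Ss i).natDegree ≤ 1)
    (hL : ∀ l i, (L l i).natDegree ≤ 50) (hb : ∀ l i, (b l i).natDegree ≤ 27)
    (H : Compat ρ (fun l i => L l i + Ss i) b) :
    (Fintype.card (Par F κ) : ℝ) ≤ 2 * (Fintype.card F : ℝ) ^ 303 *
      #{w : Par F κ | ∀ l, DAdj (gz (X * (X - C ρ)) (fun i => L l i + Ss i) (b l) w)} := by
  have hQ : (0 : ℝ) < Fintype.card F := by exact_mod_cast Fintype.card_pos
  have h1 := count_eq (X * (X - C ρ)) (fun l i => L l i + Ss i) b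
  have hT : (Fintype.card (ι → Th0 F) : ℝ) ≤ (Fintype.card F : ℝ) ^ 303 := by
    exact_mod_cast card_Th0_le hι
  set N : ℝ := (Fintype.card (Par F κ) : ℝ)
  set E : ℝ := (Fintype.card F : ℝ) ^ Fintype.card κ
  have hE : 0 < E := by positivity
  have hN : 0 ≤ N := by positivity
  have h2 : ∀ θ : ι → Th0 F, (if θ = 0 then N else 0) - N / E ≤
      ∑ w : Par F κ, sg (∑ l, phi (θ l).1 (gz (X * (X - C ρ)) (fun i => L l i + Ss i) (b l) w)) := by
    intro θ
    have hNE : 0 ≤ N / E := by positivity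
    split_ifs with h0
    · simp only [h0, Pi.zero_apply, AddSubgroup.coe_zero, phi_zero, Finset.sum_const_zero, sg_zero,
        Finset.sum_const, Finset.card_univ, nsmul_eq_mul, mul_one]
      linarith
    rcases small (X * (X - C ρ)) (fun l i => L l i + Ss i) b (fun l => phi (θ l).1) with h | h
    · rw [← le_div_iff₀ hE] at h
      have := (abs_le.1 h).1
      linarith
    · obtain ⟨P, p1, p2, p3⟩ := lowrank hG (mul_ne_zero X_ne_zero (X_sub_C_ne_zero ρ))
        (natDegree_f ρ) hS h
      have h3 := phase_zero hι H (fun l i => natDegree_add_le_of_degree_le (hL l i)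
        ((hS i).trans (by norm_num))) hb (fun l => (θ l).2) h p1 p2 p3
      simp only [h.const, h3, sg_zero, Finset.sum_const, Finset.card_univ, nsmul_eq_mul, mul_one]
      linarith
  have h3 := (Finset.sum_le_sum fun θ _ => h2 θ).trans h1.ge
  rw [Finset.sum_sub_distrib, Finset.sum_ite_eq', if_pos (Finset.mem_univ _), Finset.sum_const,
    Finset.card_univ, nsmul_eq_mul] at h3
  have h4 : (Fintype.card (ι → Th0 F) : ℝ) * (N / E) ≤ N / 2 := by
    rw [← mul_div_assoc, div_le_div_iff₀ hE (by norm_num)]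
    nlinarith
  have h5 := mul_le_mul_of_nonneg_right hT (Nat.cast_nonneg (α := ℝ)
    #{w : Par F κ | ∀ l, DAdj (gz (X * (X - C ρ)) (fun i => L l i + Ss i) (b l) w)})
  linarith

open Classical in
theorem count_upper {f : F[X]} (hf0 : f ≠ 0) (hf : f.natDegree ≤ 2)
    {L b : Option ι → κ → F[X]} {Ss : κ → F[X]} (hG : GenL L) (hS : ∀ i, (Ss i).natDegree ≤ 1) :
    (#{w : Par F κ | ∀ l, DAdj (gz f (fun i => L l i + Ss i) (b l) w)} : ℝ) ≤
      #{w : Par F κ | ∀ l, DAdj (gz f (fun i => L (some l) i + Ss i) (b (some l)) w)} /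
        Fintype.card F + Fintype.card (Par F κ) / (Fintype.card F : ℝ) ^ Fintype.card κ := by
  have hQ : (0 : ℝ) < Fintype.card F := by exact_mod_cast Fintype.card_pos
  have h1 := count_eq f (fun l i => L (some l) i + Ss i) fun l => b (some l)
  let th : (ι → Th0 F) × (F →+ ZMod 2) → Option ι → Th F := fun x l =>
    l.elim (Pi.single 51 x.2) fun l => (x.1 l).1
  let ph : (ι → Th0 F) × (F →+ ZMod 2) → Par F κ → ZMod 2 := fun x w =>
    ∑ l, phi (th x l) (gz f (fun i => L l i + Ss i) (b l) w)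
  have hph : ∀ x w, ph x w = x.2 ((gz f (fun i => L none i + Ss i) (b none) w).coeff 51) +
      ∑ l, phi (x.1 l).1 (gz f (fun i => L (some l) i + Ss i) (b (some l)) w) := fun x w => by
    simp only [ph, Fintype.sum_option, th, Option.elim, phi_single]
    rfl
  have h2 := fourier ph fun x y w => by
    simp only [hph, Prod.fst_add, Prod.snd_add, Pi.add_apply, AddSubgroup.coe_add, phi_add,
      Finset.sum_add_distrib, AddMonoidHom.add_apply]
    abel
  have h3 : (#{w : Par F κ | ∀ l, DAdj (gz f (fun i => L l i + Ss i) (b l) w)} : ℝ) ≤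
      #{w | ∀ x, ph x w = 0} := by
    refine Nat.cast_le.2 (Finset.card_le_card fun w hw => ?_)
    have h := (Finset.mem_filter.1 hw).2
    refine Finset.mem_filter.2 ⟨Finset.mem_univ _, fun x => ?_⟩
    rw [hph, (h none).coeff, zero_add]
    exact (forall_dadj_iff _).2 (fun l => h (some l)) _
  set N : ℝ := (Fintype.card (Par F κ) : ℝ)
  set E : ℝ := (Fintype.card F : ℝ) ^ Fintype.card κ
  have hE : 0 < E := by positivity
  have hNE : 0 ≤ N / E := by positivity
  have h4 : ∀ θ μ, ∑ w, sg (ph (θ, μ) w) ≤ (if μ = 0 then ∑ w : Par F κ,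
      sg (∑ l, phi (θ l).1 (gz f (fun i => L (some l) i + Ss i) (b (some l)) w)) else 0) +
        N / E := by
    intro θ μ
    split_ifs with h0
    · simp only [hph, h0, AddMonoidHom.zero_apply, zero_add]
      linarith
    rcases small f (fun l i => L l i + Ss i) b (fun l => phi (th (θ, μ) l)) with h | h
    · rw [← le_div_iff₀ hE] at h
      rw [zero_add]
      exact (le_abs_self _).trans h
    · obtain ⟨P, p1, p2, p3⟩ := lowrank hG hf0 hf hS h
      refine absurd (AddMonoidHom.ext fun c => ?_) h0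
      have h5 := p3 none (C c * X ^ (51 - P.natDegree))
        ((natDegree_C_mul_X_pow_le _ _).trans (by omega))
      have h6 : (P * (C c * X ^ (51 - P.natDegree))).coeff 51 = c := by
        have : 51 = P.natDegree + (51 - P.natDegree) := by omega
        rw [mul_left_comm, coeff_C_mul]
        conv_lhs => rw [this, Nat.add_sub_cancel_left, coeff_mul_X_pow]
        rw [p1.coeff_natDegree, mul_one]
      rw [← h6]
      exact (phi_single 51 μ _).symm.trans h5
  rw [Fintype.sum_prod_type, Fintype.card_prod, card_dual, Nat.cast_mul] at h2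
  have h5 := h2.le.trans (Finset.sum_le_sum fun θ _ => Finset.sum_le_sum fun μ _ => h4 θ μ)
  simp only [Finset.sum_add_distrib, Finset.sum_ite_eq', Finset.mem_univ, if_true,
    Finset.sum_const, Finset.card_univ, nsmul_eq_mul, card_dual] at h5
  rw [← h1] at h5
  have hT : (0 : ℝ) < Fintype.card (ι → Th0 F) := by exact_mod_cast Fintype.card_pos
  refine h3.trans (le_of_mul_le_mul_left (h5.trans (le_of_eq ?_)) (mul_pos hT hQ))
  field_simp

end Pool.Agent.Lib.MP_61ca19_lc
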