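import Pool.Agent.Lib.MP_61ca19_lc.Emb

/-!
# Density of extensions in the ambient graph
-/

set_option autoImplicit false

namespace Pool.Agent.Lib.MP_61ca19_lc

open Finset Polynomial

variable {F κ V : Type} [Field F] [Fintype κ]

namespace Setup

variable (T : Setup F κ)

/-- General position of a family of points. -/
def Gen (pos : V → Pt F κ) : Prop :=
  ∀ k, k ≤ 4 → ∀ e : Fin k → V, Function.Injective e → GenL fun l => T.lg (pos (e l))

variable {T} in
theorem Gen.get {pos : V → Pt F κ} (h : T.Gen pos) {ι : Type} [Fintype ι]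
    (hι : Fintype.card ι ≤ 4) {e : ι → V} (he : Function.Injective e) :
    GenL fun l => T.lg (pos (e l)) := by
  intro θ p hp hr
  let u := (Fintype.equivFin ι).symm
  obtain ⟨c, h0, h1, h2⟩ := h _ hι (e ∘ u) (he.comp u.injective) (θ ∘ u) p hp fun i c hc => by
    rw [← hr i c hc, ← u.sum_comp]
    rfl
  exact ⟨c, h0, h1, fun l z hz => by simpa using h2 (u.symm l) z hz⟩

variable [DecidableEq κ]

open Classical in
/-- The positions in part `p` realising the extension. -/
noncomputable def Good [Fintype F] (p : Bool × Bool) (A B : Set (Pt F κ)) : Finset (Amb F κ) :=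
  {z | (∀ x ∈ A, T.Adj (p, z) x) ∧ ∀ y ∈ B, ¬ T.Adj (p, z) y ∧ (p, z) ≠ y}

theorem mem_Good [Fintype F] {p : Bool × Bool} {A B : Set (Pt F κ)} {z : Amb F κ} :
    z ∈ T.Good p A B ↔
      (∀ x ∈ A, T.Adj (p, z) x) ∧ ∀ y ∈ B, ¬ T.Adj (p, z) y ∧ (p, z) ≠ y := by
  simp only [Good, Finset.mem_filter, Finset.mem_univ, true_and]

variable [CharP F 2] [Fintype F]

omit [CharP F 2] in
theorem pow_le_card_Par : (Fintype.card F : ℝ) ^ Fintype.card κ ≤ Fintype.card (Par F κ) := by
  classical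
  rw [Fintype.card_prod, Fintype.card_fun, Fintype.card_fun, card_Pd, card_Pd]
  have hq : 1 ≤ Fintype.card F := Fintype.card_pos
  exact_mod_cast (Nat.pow_le_pow_left (Nat.le_self_pow (by norm_num) _) _).trans
    (Nat.le_mul_of_pos_right _ (by positivity))

open Classical in
theorem bad_le {ι : Type} [Fintype ι] (hι : Fintype.card ι ≤ 3) {pos : V → Pt F κ}
    (hG : T.Gen pos) {e : ι → V} (he : Function.Injective e) {y : V} (hy : ∀ l, e l ≠ y)
    (p : Bool × Bool) (ρ : F) (c : (κ → F) × (κ → F))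
    (hρ : p.1 = (pos y).1.1 → p.2 ≠ (pos y).1.2 →
      ∃ i, (T.lg (p, emb ρ c 0) i).eval ρ ≠ (T.lg (pos y) i).eval ρ) :
    (#{w : Par F κ | (∀ l, DAdj (T.gg (pos (e l)) (p, emb ρ c w))) ∧
        (T.Adj (p, emb ρ c w) (pos y) ∨ (p, emb ρ c w) = pos y)} : ℝ) ≤
      #{w : Par F κ | ∀ l, DAdj (T.gg (pos (e l)) (p, emb ρ c w))} / Fintype.card F +
        (Fintype.card F : ℝ) ^ 51 *
          (Fintype.card (Par F κ) / (Fintype.card F : ℝ) ^ Fintype.card κ) := by
  have hQ : (1 : ℝ) ≤ Fintype.card F := by exact_mod_cast Fintype.card_pos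
  have h1 : (1 : ℝ) ≤ Fintype.card (Par F κ) / (Fintype.card F : ℝ) ^ Fintype.card κ :=
    (one_le_div (by positivity)).2 pow_le_card_Par
  have h2 : (1 : ℝ) ≤ (Fintype.card F : ℝ) ^ 51 := one_le_pow₀ hQ
  by_cases s1 : p.1 = (pos y).1.1
  · refine le_add_of_nonneg_of_le (by positivity) ?_
    by_cases s2 : p.2 = (pos y).1.2
    · refine le_trans ?_ (one_le_mul_of_one_le_of_one_le h2 h1)
      refine Nat.cast_le_one.2 (Finset.card_le_one.2 fun w hw w' hw' => ?_)
      have k : ∀ v : Par F κ, ¬ T.Adj (p, emb ρ c v) (pos y) := fun v h => h.ne (Prod.ext s1 s2)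
      exact emb_inj ρ c (congrArg Prod.snd ((((Finset.mem_filter.1 hw).2.2).resolve_left
        (k w)).trans (((Finset.mem_filter.1 hw').2.2).resolve_left (k w')).symm))
    · refine le_trans (Nat.cast_le.2 (Finset.card_le_card fun w hw => ?_))
        (T.bad_opp p ρ c s2 (hρ s1 s2))
      rcases (Finset.mem_filter.1 hw).2.2 with (h | h) | h
      · exact absurd s1 h.1
      · exact Finset.mem_filter.2 ⟨Finset.mem_univ _, h.2.2⟩
      · exact absurd (congrArg (fun v : Pt F κ => v.1.2) h) s2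
  · let e' : Option ι → V := fun l => l.elim y e
    have he' : Function.Injective e' := by
      rintro (_ | l) (_ | l') h
      · rfl
      · exact absurd h.symm (hy l')
      · exact absurd h (hy l)
      · exact congrArg some (he h)
    have h3 := count_upper (f := X * (X - C ρ)) (mul_ne_zero X_ne_zero (X_sub_C_ne_zero ρ))
      (natDegree_f ρ) (b := fun l i => T.sh (pos (e' l)) i + T.lg (p, emb ρ c 0) i)
      (hG.get (by rw [Fintype.card_option]; omega) he') (T.sh_emb0_le p ρ c)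
    simp only [← T.gg_emb] at h3
    refine le_trans (Nat.cast_le.2 (Finset.card_le_card fun w hw => ?_)) (h3.trans
      (add_le_add le_rfl (le_mul_of_one_le_left (by positivity) h2)))
    obtain ⟨k1, k2⟩ := (Finset.mem_filter.1 hw).2
    refine Finset.mem_filter.2 ⟨Finset.mem_univ _, ?_⟩
    rintro (_ | l)
    · rcases k2 with (h | h) | h
      · exact T.gg_comm _ _ ▸ h.2
      · exact absurd h.1 s1
      · exact absurd (congrArg (fun v : Pt F κ => v.1.1) h) s1
    · exact k1 l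

theorem dens_core {pos : V → Pt F κ} (hG : T.Gen pos) {A B : Finset V} {m : ℕ}
    (hA : A.card ≤ 3) (hB : B.card ≤ m) (hAB : Disjoint A B)
    (hind : ∀ x ∈ A, ∀ x' ∈ A, x ≠ x' → ¬ T.Adj (pos x) (pos x'))
    (hq : (2 * m : ℝ) ≤ Fintype.card F)
    (hD : 8 * (m + 1) * (Fintype.card F : ℝ) ^ 354 ≤ (Fintype.card F : ℝ) ^ Fintype.card κ)
    (p : Bool × Bool) (ρ : F) (c : (κ → F) × (κ → F))
    (hO : ∀ x ∈ A, (pos x).1.1 = p.1 → ∀ w, T.Adj (p, emb ρ c w) (pos x))
    (hloc : ∀ x ∈ A, (pos x).1.1 ≠ p.1 → T.τ ((T.gg (pos x) (p, emb ρ c 0)).eval ρ +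
      (T.gg (pos x) (p, emb ρ c 0)).eval 0) = 0)
    (hρ : ∀ y ∈ B, p.1 = (pos y).1.1 → p.2 ≠ (pos y).1.2 →
      ∃ i, (T.lg (p, emb ρ c 0) i).eval ρ ≠ (T.lg (pos y) i).eval ρ) :
    (Fintype.card (Par F κ) : ℝ) ≤
      8 * (Fintype.card F : ℝ) ^ 303 * (T.Good p (pos '' A) (pos '' B)).card := by
  classical
  let ι : Type := {x // x ∈ A.filter fun x => (pos x).1.1 ≠ p.1}
  have hι : Fintype.card ι ≤ 3 := by
    rw [Fintype.card_coe]
    exact (Finset.card_filter_le _ _).trans hA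
  have hm : ∀ l : ι, l.1 ∈ A ∧ (pos l.1).1.1 ≠ p.1 := fun l => Finset.mem_filter.1 l.2
  have hQ : (1 : ℝ) ≤ Fintype.card F := by exact_mod_cast Fintype.card_pos
  have hpow : (Fintype.card F : ℝ) ^ 354 = (Fintype.card F : ℝ) ^ 303 * Fintype.card F ^ 51 :=
    pow_add _ 303 51
  have h51 : (1 : ℝ) ≤ (Fintype.card F : ℝ) ^ 51 := one_le_pow₀ hQ
  have h303 : (0 : ℝ) < (Fintype.card F : ℝ) ^ 303 := pow_pos (by positivity) _
  have hm0 : (0 : ℝ) ≤ m := by positivity
  have h1 := count_lower hι (le_trans (by rw [hpow]; nlinarith [mul_nonneg hm0 h303.le]) hD)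
    (hG.get (hι.trans (by norm_num)) (Subtype.val_injective (p := fun x => x ∈ _)))
    (T.sh_emb0_le p ρ c) (fun l i => T.lg_le _ i)
    (fun l i => natDegree_add_le_of_degree_le (T.sh_le (pos l.1) i)
      ((T.lg_emb0_le p ρ c i).trans (by norm_num)))
    (T.compat p ρ c (x := fun l : ι => pos l.1) (fun l => (hm l).2)
      (fun l l' h => hind _ (hm l).1 _ (hm l').1 fun h' => h (Subtype.ext h'))
      fun l => hloc _ (hm l).1 (hm l).2)
  simp only [← T.gg_emb] at h1
  have h2 : ∀ y ∈ B, _ := fun y hy => T.bad_le hι hG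
    (Subtype.val_injective (p := fun x => x ∈ _)) (y := y)
    (fun l h => Finset.disjoint_left.1 hAB (h ▸ (hm l).1) hy) p ρ c (hρ y hy)
  have h3 := Finset.sum_le_card_nsmul _ _ _ h2
  have h4 : #{w : Par F κ | ∀ l : ι, DAdj (T.gg (pos l.1) (p, emb ρ c w))} ≤
      (T.Good p (pos '' A) (pos '' B)).card + ∑ y ∈ B,
        #{w : Par F κ | (∀ l : ι, DAdj (T.gg (pos l.1) (p, emb ρ c w))) ∧
          (T.Adj (p, emb ρ c w) (pos y) ∨ (p, emb ρ c w) = pos y)} := by
    refine le_trans (Finset.card_le_card (t := ({w | emb ρ c w ∈ T.Good p (pos '' A) (pos '' B)} :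
      Finset _) ∪ B.biUnion _) fun w hw => ?_) ((Finset.card_union_le _ _).trans (add_le_add
        (Finset.card_le_card_of_injOn (emb ρ c) (fun w hw => (Finset.mem_filter.1 hw).2)
          (emb_inj ρ c).injOn) Finset.card_biUnion_le))
    have hw' := (Finset.mem_filter.1 hw).2
    by_cases hb : ∃ y ∈ B, T.Adj (p, emb ρ c w) (pos y) ∨ (p, emb ρ c w) = pos y
    · obtain ⟨y, hy, hb⟩ := hb
      exact Finset.mem_union_right _ (Finset.mem_biUnion.2
        ⟨y, hy, Finset.mem_filter.2 ⟨Finset.mem_univ _, hw', hb⟩⟩)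
    push Not at hb
    refine Finset.mem_union_left _ (Finset.mem_filter.2 ⟨Finset.mem_univ _,
      Finset.mem_filter.2 ⟨Finset.mem_univ _, ?_, ?_⟩⟩)
    · rintro _ ⟨x, hx, rfl⟩
      by_cases hs : (pos x).1.1 = p.1
      · exact hO x hx hs w
      · exact Or.inl ⟨Ne.symm hs, T.gg_comm _ _ ▸ hw' ⟨x, Finset.mem_filter.2 ⟨hx, hs⟩⟩⟩
    · rintro _ ⟨y, hy, rfl⟩
      exact hb y hy
  have h5 := (Nat.cast_le (α := ℝ)).2 h4
  rw [Nat.cast_add, Nat.cast_sum] at h5
  have h6 := h5.trans (add_le_add le_rfl h3)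
  rw [nsmul_eq_mul] at h6
  rw [hpow] at hD
  have hE : 0 < (Fintype.card F : ℝ) ^ Fintype.card κ := by positivity
  have hBm : (B.card : ℝ) ≤ m := by exact_mod_cast hB
  clear h2 h3 h4 h5 hpow
  generalize (Fintype.card F : ℝ) ^ Fintype.card κ = E at *
  generalize (Fintype.card F : ℝ) ^ 303 = U at *
  generalize (Fintype.card F : ℝ) ^ 51 = W at *
  have hS : (0 : ℝ) ≤ #{w : Par F κ | ∀ l : ι, DAdj (T.gg (pos l.1) (p, emb ρ c w))} := by
    positivity
  have hN : (0 : ℝ) ≤ Fintype.card (Par F κ) := by positivity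
  generalize (#{w : Par F κ | ∀ l : ι, DAdj (T.gg (pos l.1) (p, emb ρ c w))} : ℝ) = S at *
  generalize (Fintype.card (Par F κ) : ℝ) = N at *
  generalize (Fintype.card F : ℝ) = Q at *
  have k1 : (m : ℝ) * (S / Q) ≤ S / 2 := by
    rw [← mul_div_assoc, div_le_div_iff₀ (by positivity) (by norm_num)]
    nlinarith
  have k2 : 8 * U * (m * (W * (N / E))) ≤ N := by
    rw [show 8 * U * (m * (W * (N / E))) = N * (8 * m * (U * W)) / E by ring,
      div_le_iff₀ hE]
    exact mul_le_mul_of_nonneg_left (by nlinarith [mul_pos h303 (one_pos.trans_le h51)]) hN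
  have k3 : (B.card : ℝ) * (S / Q + W * (N / E)) ≤ m * (S / Q + W * (N / E)) :=
    mul_le_mul_of_nonneg_right hBm (by positivity)
  have k4 := mul_le_mul_of_nonneg_left (h6.trans (add_le_add le_rfl k3)) h303.le
  have k5 := mul_le_mul_of_nonneg_left k1 h303.le
  nlinarith

end Setup

end Pool.Agent.Lib.MP_61ca19_lc
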