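import Pool.Agent.Lib.MP_61ca19_lc.Graph

/-!
# Affine families of points of the ambient graph
-/

set_option autoImplicit false

namespace Pool.Agent.Lib.MP_61ca19_lc

open Finset Polynomial

variable {F κ : Type} [Field F]

theorem emb_le (ρ c : F) {n : ℕ} (w : Pd F n) :
    C c + (X - C ρ) * w.1 ∈ degreeLT F (n + 1 + 1) :=
  mem_Pd.2 (natDegree_add_le_of_degree_le (by simp)
    (natDegree_mul_le.trans ((add_le_add (natDegree_X_sub_C_le ρ) (Pd.le w)).trans (by omega))))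

/-- The positions with prescribed values at `ρ`. -/
noncomputable def emb (ρ : F) (c : (κ → F) × (κ → F)) (w : Par F κ) : Amb F κ :=
  (fun i => ⟨C (c.1 i) + (X - C ρ) * (w.1 i).1, emb_le ρ _ _⟩,
    fun i => ⟨C (c.2 i) + (X - C ρ) * (w.2 i).1, emb_le ρ _ _⟩)

theorem emb_inj (ρ : F) (c : (κ → F) × (κ → F)) : Function.Injective (emb ρ c) := by
  intro w w' h
  refine Prod.ext (funext fun i => Subtype.ext ?_) (funext fun i => Subtype.ext ?_)
  · have := congrArg Subtype.val (congrFun (congrArg Prod.fst h) i)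
    exact mul_left_cancel₀ (X_sub_C_ne_zero ρ) (add_left_cancel this)
  · have := congrArg Subtype.val (congrFun (congrArg Prod.snd h) i)
    exact mul_left_cancel₀ (X_sub_C_ne_zero ρ) (add_left_cancel this)

variable [Fintype κ]

namespace Setup

variable (T : Setup F κ) (p : Bool × Bool) (ρ : F) (c : (κ → F) × (κ → F))

theorem lg_emb0 (i : κ) : T.lg (p, emb ρ c 0) i = C (T.lam p.2 i) + X * C (c.1 i) := by
  simp [lg, emb]

theorem sh_emb0 (i : κ) : T.sh (p, emb ρ c 0) i = X * C (c.2 i) := by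
  simp [sh, emb]

theorem lg_emb0_le (i : κ) : (T.lg (p, emb ρ c 0) i).natDegree ≤ 1 := by
  rw [lg_emb0]
  compute_degree

theorem sh_emb0_le (i : κ) : (T.sh (p, emb ρ c 0) i).natDegree ≤ 1 := by
  rw [sh_emb0]
  compute_degree

theorem lg_emb (w : Par F κ) (i : κ) :
    T.lg (p, emb ρ c w) i = T.lg (p, emb ρ c 0) i + X * (X - C ρ) * (w.1 i).1 := by
  rw [lg_emb0]
  simp only [lg, emb]
  ring

theorem sh_emb (w : Par F κ) (i : κ) :
    T.sh (p, emb ρ c w) i = T.sh (p, emb ρ c 0) i + X * (X - C ρ) * (w.2 i).1 := by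
  rw [sh_emb0]
  simp only [sh, emb]
  ring

theorem gg_emb (x : Pt F κ) (w : Par F κ) : T.gg x (p, emb ρ c w) =
    gz (X * (X - C ρ)) (fun i => T.lg x i + T.sh (p, emb ρ c 0) i)
      (fun i => T.sh x i + T.lg (p, emb ρ c 0) i) w := by
  simp only [gg, gz, T.lg_emb p ρ c w, T.sh_emb p ρ c w, add_assoc]

theorem lg_zero (v : Pt F κ) (i : κ) : (T.lg v i).eval 0 = T.lam v.1.2 i := by simp [lg]

theorem lg_ne_of_gen {a y : Pt F κ} (h : GenL fun l : Bool => T.lg (bif l then a else y)) :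
    ∃ i, T.lg a i ≠ T.lg y i := by
  by_contra hc
  push Not at hc
  obtain ⟨c, h0, h1, h2⟩ := h (fun _ => Pi.single 50 T.τ) 1 (by simp) fun i c _ => by
    simp only [Fintype.sum_bool, cond_true, cond_false, hc, z2_add_self]
  have h3 := h2 true (C (T.ε / c.leadingCoeff) * X ^ (49 - c.natDegree))
    ((natDegree_C_mul_le _ _).trans (by simp))
  have e : X * (C (T.ε / c.leadingCoeff) * X ^ (49 - c.natDegree)) * 1 * c =
      C (T.ε / c.leadingCoeff) * (c * X ^ (50 - c.natDegree)) := by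
    rw [show 50 - c.natDegree = 49 - c.natDegree + 1 by omega]
    ring
  rw [phi_single, e, coeff_C_mul] at h3
  have e2 : ((50 : Fin 101) : ℕ) = c.natDegree + (50 - c.natDegree) := by
    change 50 = _
    omega
  rw [e2, coeff_mul_X_pow, coeff_natDegree, div_mul_cancel₀ _ (leadingCoeff_ne_zero.2 h0),
    T.hε] at h3
  exact absurd h3 (by decide)

variable [CharP F 2] [Fintype F]

theorem compat {ι : Type} {x : ι → Pt F κ} (hs : ∀ l, (x l).1.1 ≠ p.1)
    (hx : ∀ l l', l ≠ l' → ¬ T.Adj (x l) (x l'))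
    (hloc : ∀ l, T.τ ((T.gg (x l) (p, emb ρ c 0)).eval ρ +
      (T.gg (x l) (p, emb ρ c 0)).eval 0) = 0) :
    Compat ρ (fun l i => T.lg (x l) i + T.sh (p, emb ρ c 0) i)
      fun l i => T.sh (x l) i + T.lg (p, emb ρ c 0) i := by
  refine ⟨fun l => (inv_eq_zero_iff T.τ T.inv T.tau_ne _).1 (hloc l), fun l l' hl ψ h1 h2 h3 => ?_⟩
  change ψ (C ((T.gg (x l) (p, emb ρ c 0)).eval 0 + (T.gg (x l') (p, emb ρ c 0)).eval 0)) = 0
  rw [T.inv_C h1, map_add, gg_zero, gg_zero]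
  by_cases hσ : (x l).1.2 = (x l').1.2
  · rw [hσ, z2_add_self, zero_mul]
  rcases z2_cases (ψ (C T.ε)) with h | h
  · rw [h, mul_zero]
  have e : ∀ a b u : F[X], a + u + (b + u) = a + b := fun a b u => by
    linear_combination u * CharTwo.two_eq_zero (R := F[X])
  simp only [e] at h2 h3
  refine absurd (Or.inr ⟨?_, hσ, ψ, h1, h, h2, h3⟩) (hx l l' hl)
  have h4 := hs l
  have h5 := hs l'
  revert h4 h5
  generalize (x l).1.1 = a, (x l').1.1 = b, p.1 = d
  revert a b d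
  decide

open Classical in
theorem bad_opp [DecidableEq κ] {y : Pt F κ} (h2 : p.2 ≠ y.1.2)
    (hy : ∃ i, (T.lg (p, emb ρ c 0) i).eval ρ ≠ (T.lg y i).eval ρ) :
    (#{w : Par F κ | T.OAdj (p, emb ρ c w) y} : ℝ) ≤ (Fintype.card F : ℝ) ^ 51 *
      (Fintype.card (Par F κ) / (Fintype.card F : ℝ) ^ Fintype.card κ) := by
  have ev : ∀ (w : Par F κ) (r : F), (∃ i, (T.lg (p, emb ρ c w) i).eval r ≠ (T.lg y i).eval r) →
      ∀ π : F[X], Irreducible π → (∀ i, π ∣ T.lg (p, emb ρ c w) i + T.lg y i) →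
        ¬ π ∣ X - C r := by
    rintro w r ⟨i, hi⟩ π hπ hd h
    have := ((hπ.dvd_symm (irreducible_X_sub_C r) h).trans (hd i))
    rw [dvd_iff_isRoot, IsRoot, eval_add, CharTwo.add_eq_zero] at this
    exact hi this
  have e0 : ∀ w : Par F κ, ∃ i, (T.lg (p, emb ρ c w) i).eval 0 ≠ (T.lg y i).eval 0 := fun w => by
    simpa only [lg_zero] using T.lam_ne h2
  have eρ : ∀ w : Par F κ, ∃ i, (T.lg (p, emb ρ c w) i).eval ρ ≠ (T.lg y i).eval ρ := fun w => by
    simpa [T.lg_emb p ρ c w] using hy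
  have hsub : ({w : Par F κ | T.OAdj (p, emb ρ c w) y} : Finset _) ⊆
      ({π : Pd F 50 | Irreducible π.1 ∧ ¬ π.1 ∣ X * (X - C ρ)} : Finset _).biUnion fun π =>
        {w : Par F κ | ∀ i, π.1 ∣ (T.lg (p, emb ρ c 0) i + T.lg y i) +
          X * (X - C ρ) * (w.1 i).1} := by
    intro w hw
    obtain ⟨π, hπ, hd⟩ := OAdj.exists_prime T (Finset.mem_filter.1 hw).2 (by
      obtain ⟨i, hi⟩ := e0 w
      exact ⟨i, fun h => hi (by rw [CharTwo.add_eq_zero.1 h])⟩)
    refine Finset.mem_biUnion.2 ⟨π, Finset.mem_filter.2 ⟨Finset.mem_univ _, hπ, fun h => ?_⟩,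
      Finset.mem_filter.2 ⟨Finset.mem_univ _, fun i => ?_⟩⟩
    · rcases hπ.prime.dvd_or_dvd h with h | h
      · exact ev w 0 (e0 w) _ hπ hd (by simpa using h)
      · exact ev w ρ (eρ w) _ hπ hd h
    · rw [add_right_comm, ← T.lg_emb]
      exact hd i
  refine (Nat.cast_le.2 ((Finset.card_le_card hsub).trans Finset.card_biUnion_le)).trans ?_
  rw [Nat.cast_sum]
  refine (Finset.sum_le_card_nsmul _ _ _ fun π hπ =>
    count_dvd (Finset.mem_filter.1 hπ).2.1 (Finset.mem_filter.1 hπ).2.2 _).trans ?_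
  rw [nsmul_eq_mul]
  refine mul_le_mul_of_nonneg_right ?_ (by positivity)
  exact_mod_cast (Finset.card_le_univ _).trans (card_Pd 50).le

end Setup

end Pool.Agent.Lib.MP_61ca19_lc
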