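import Pool.Agent.Lib.MP_61ca19_lc.Count

/-!
# The ambient triangle-free graph
-/

set_option autoImplicit false

namespace Pool.Agent.Lib.MP_61ca19_lc

open Finset Polynomial

/-- Positions. -/
abbrev Amb (F : Type) [Field F] (κ : Type) : Type := (κ → Pd F 49) × (κ → Pd F 26)

/-- Points: a side, a sign and a position. -/
abbrev Pt (F : Type) [Field F] (κ : Type) : Type := (Bool × Bool) × Amb F κ

/-- The fixed data. -/
structure Setup (F κ : Type) [Field F] [Fintype κ] where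
  τ : F →+ ZMod 2
  inv : ∀ x, τ (x ^ 2) = τ x
  ε : F
  hε : τ ε = 1
  lam : Bool → κ → F
  hlam : ∀ a b, τ (∑ i, lam a i * lam b i) = if a = b then 0 else 1

variable {F κ : Type} [Field F] [Fintype κ]

namespace Setup

variable (T : Setup F κ)

/-- The long coordinates. -/
noncomputable def lg (v : Pt F κ) (i : κ) : F[X] := C (T.lam v.1.2 i) + X * (v.2.1 i).1

/-- The short coordinates. -/
noncomputable def sh (_T : Setup F κ) (v : Pt F κ) (i : κ) : F[X] := X * (v.2.2 i).1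

/-- The pairing of two points. -/
noncomputable def gg (v w : Pt F κ) : F[X] :=
  pr (fun i => T.lg v i + T.sh w i) fun i => T.sh v i + T.lg w i

/-- Agreement at a place of odd degree. -/
def OAdj (v w : Pt F κ) : Prop :=
  ∃ ψ : F[X] →+ ZMod 2, Inv ψ ∧ ψ (C T.ε) = 1 ∧ (∀ i x, ψ ((T.lg v i + T.lg w i) * x) = 0) ∧
    ∀ i x, ψ ((T.sh v i + T.sh w i) * x) = 0

/-- Adjacency. -/
def Adj (v w : Pt F κ) : Prop :=
  (v.1.1 ≠ w.1.1 ∧ DAdj (T.gg v w)) ∨ (v.1.1 = w.1.1 ∧ v.1.2 ≠ w.1.2 ∧ T.OAdj v w)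

theorem lg_le (v : Pt F κ) (i : κ) : (T.lg v i).natDegree ≤ 50 :=
  natDegree_add_le_of_degree_le (by simp)
    (natDegree_mul_le.trans (add_le_add natDegree_X_le (Pd.le _)))

theorem sh_le (v : Pt F κ) (i : κ) : (T.sh v i).natDegree ≤ 27 :=
  natDegree_mul_le.trans (add_le_add natDegree_X_le (Pd.le _))

theorem gg_le (v w : Pt F κ) : (T.gg v w).natDegree ≤ 100 :=
  natDegree_pr_le (m := 50) (n := 50)
    (fun i => natDegree_add_le_of_degree_le (T.lg_le v i) ((T.sh_le w i).trans (by norm_num)))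
    fun i => natDegree_add_le_of_degree_le ((T.sh_le v i).trans (by norm_num)) (T.lg_le w i)

theorem gg_comm (v w : Pt F κ) : T.gg v w = T.gg w v :=
  Finset.sum_congr rfl fun i _ => by ring

theorem gg_zero (v w : Pt F κ) :
    T.τ ((T.gg v w).eval 0) = if v.1.2 = w.1.2 then 0 else 1 := by
  rw [← T.hlam]
  simp [gg, pr, lg, sh, eval_finsetSum]

variable {T} in
theorem Adj.symm {v w : Pt F κ} (h : T.Adj v w) : T.Adj w v := by
  rcases h with ⟨h1, h2⟩ | ⟨h1, h2, ψ, h3, h4, h5, h6⟩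
  · exact Or.inl ⟨h1.symm, T.gg_comm v w ▸ h2⟩
  · exact Or.inr ⟨h1.symm, h2.symm, ψ, h3, h4, fun i x => add_comm (T.lg v i) _ ▸ h5 i x,
      fun i x => add_comm (T.sh v i) _ ▸ h6 i x⟩

variable {T} in
theorem Adj.ne {v w : Pt F κ} (h : T.Adj v w) : v.1 ≠ w.1 := by
  intro e
  rcases h with ⟨h1, -⟩ | ⟨-, h1, -⟩ <;> exact h1 (by rw [e])

theorem tau_ne : T.τ ≠ 0 := fun h => by
  have := T.hε
  rw [h] at this
  exact absurd (show (0 : ZMod 2) = 1 from this) (by decide)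

theorem lam_ne {a b : Bool} (h : a ≠ b) : ∃ i, T.lam a i ≠ T.lam b i := by
  by_contra hc
  push Not at hc
  have h1 := T.hlam a b
  have h2 := T.hlam a a
  simp only [← hc, if_neg h] at h1
  rw [h1, if_pos rfl] at h2
  exact absurd h2 (by decide)

variable [CharP F 2] [Finite F]

theorem inv_C {ψ : F[X] →+ ZMod 2} (hψ : Inv ψ) (c : F) : ψ (C c) = T.τ c * ψ (C T.ε) := by
  have key : ∀ x, T.τ x = 0 → ψ (C x) = 0 := fun x hx => by
    obtain ⟨y, rfl⟩ := (inv_eq_zero_iff T.τ T.inv T.tau_ne x).1 hx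
    exact hψ.wp y
  rcases z2_cases (T.τ c) with h | h
  · rw [h, zero_mul, key c h]
  · have := key (c + T.ε) (by rw [map_add, h, T.hε]; rfl)
    rw [C_add, map_add] at this
    rw [h, one_mul, z2_eq_of_add this]

theorem not_dadj {u v w : Pt F κ} (hs : u.1.2 ≠ v.1.2) (h : T.OAdj u v) (h1 : DAdj (T.gg u w))
    (h2 : DAdj (T.gg v w)) : False := by
  obtain ⟨ψ, p1, p2, p3, p4⟩ := h
  have e1 := h1.inv (T.gg_le _ _) p1
  have e2 := h2.inv (T.gg_le _ _) p1
  rw [T.inv_C p1, p2, mul_one, gg_zero] at e1 e2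
  have e3 : ψ (T.gg u w) + ψ (T.gg v w) = 0 := by
    rw [← map_add, gg, gg, pr, pr, ← Finset.sum_add_distrib, map_sum]
    refine Finset.sum_eq_zero fun i _ => ?_
    have : (T.lg u i + T.sh w i) * (T.sh u i + T.lg w i) +
        (T.lg v i + T.sh w i) * (T.sh v i + T.lg w i) =
        (T.lg u i + T.lg v i) * (T.sh u i + T.lg w i) +
          (T.sh u i + T.sh v i) * (T.lg v i + T.sh w i) := by
      linear_combination (T.sh w i * T.lg w i - T.lg v i * T.sh u i) *
        CharTwo.two_eq_zero (R := F[X])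
    rw [this, map_add, p3, p4, add_zero]
  rw [e1, e2] at e3
  revert hs e3
  generalize u.1.2 = a, v.1.2 = b, w.1.2 = c
  revert a b c
  decide

theorem no_triangle {u v w : Pt F κ} (h1 : T.Adj u v) (h2 : T.Adj u w) (h3 : T.Adj v w) :
    False := by
  rcases h1 with ⟨a1, a2⟩ | ⟨a1, a2, a3⟩ <;> rcases h2 with ⟨b1, b2⟩ | ⟨b1, b2, b3⟩ <;>
    rcases h3 with ⟨c1, c2⟩ | ⟨c1, c2, c3⟩
  · revert a1 b1 c1
    generalize u.1.1 = a, v.1.1 = b, w.1.1 = c
    revert a b c
    decide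
  · exact T.not_dadj c2 c3 (T.gg_comm u v ▸ a2) (T.gg_comm u w ▸ b2)
  · exact T.not_dadj b2 b3 a2 (T.gg_comm v w ▸ c2)
  · exact a1 (b1.trans c1.symm)
  · exact T.not_dadj a2 a3 b2 c2
  · exact b1 (a1.trans c1)
  · exact c1 (a1.symm.trans b1)
  · revert a2 b2 c2
    generalize u.1.2 = a, v.1.2 = b, w.1.2 = c
    revert a b c
    decide

omit [CharP F 2] [Finite F] in
theorem OAdj.exists_prime {v w : Pt F κ} (h : T.OAdj v w) (hne : ∃ i, T.lg v i + T.lg w i ≠ 0) :
    ∃ π : Pd F 50, Irreducible π.1 ∧ ∀ i, π.1 ∣ T.lg v i + T.lg w i := by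
  classical
  obtain ⟨ψ, -, p2, p3, -⟩ := h
  obtain ⟨i₀, h0⟩ := hne
  obtain ⟨c, hc⟩ := Finset.gcd_eq_sum_mul Finset.univ fun i => T.lg v i + T.lg w i
  have hd : ∀ i, Finset.univ.gcd (fun i => T.lg v i + T.lg w i) ∣ T.lg v i + T.lg w i :=
    fun i => Finset.gcd_dvd (Finset.mem_univ i)
  generalize Finset.univ.gcd (fun i => T.lg v i + T.lg w i) = G at hc hd
  have hu : ¬ IsUnit G := by
    rintro ⟨u, rfl⟩
    rw [← u.mul_inv_cancel_left (C T.ε), hc, Finset.sum_mul, map_sum] at p2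
    simp only [mul_assoc, p3, Finset.sum_const_zero] at p2
    exact absurd p2 (by decide)
  obtain ⟨π, hπ, h1⟩ := WfDvdMonoid.exists_irreducible_factor hu (ne_zero_of_dvd_ne_zero h0 (hd i₀))
  exact ⟨⟨π, mem_Pd.2 ((natDegree_le_of_dvd (h1.trans (hd i₀)) h0).trans
    (natDegree_add_le_of_degree_le (T.lg_le _ _) (T.lg_le _ _)))⟩, hπ, fun i => h1.trans (hd i)⟩

end Setup

open Classical in
theorem count_dvd [Fintype F] [DecidableEq κ] {π f : F[X]} (hπ : Irreducible π) (hf : ¬ π ∣ f)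
    (d : κ → F[X]) :
    (#{w : Par F κ | ∀ i, π ∣ d i + f * (w.1 i).1} : ℝ) ≤
      Fintype.card (Par F κ) / (Fintype.card F : ℝ) ^ Fintype.card κ := by
  have hQ : (0 : ℝ) < Fintype.card F := by exact_mod_cast Fintype.card_pos
  rw [le_div_iff₀ (by positivity)]
  let e : Par F κ × (κ → F) → Par F κ := fun x =>
    (x.1.1 + fun i => ⟨C (x.2 i), mem_Pd.2 (by simp)⟩, x.1.2)
  have := Finset.card_le_card_of_injOn (s := ({w : Par F κ | ∀ i, π ∣ d i + f * (w.1 i).1} :
    Finset _) ×ˢ (Finset.univ : Finset (κ → F))) (t := Finset.univ) e (by simp) ?_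
  · rw [Finset.card_product, Finset.card_univ, Finset.card_univ, Fintype.card_fun] at this
    exact_mod_cast this
  rintro ⟨w, c⟩ hw ⟨w', c'⟩ hw' h
  have h1 := (Finset.mem_filter.1 (Finset.mem_product.1 hw).1).2
  have h2 := (Finset.mem_filter.1 (Finset.mem_product.1 hw').1).2
  have h3 : ∀ i, (w.1 i : F[X]) + C (c i) = w'.1 i + C (c' i) := fun i =>
    congrArg Subtype.val (congrFun (congrArg Prod.fst h) i)
  have h4 : c = c' := funext fun i => by
    have h5 : π ∣ f * C (c' i - c i) := by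
      have : f * C (c' i - c i) = (d i + f * (w.1 i).1) - (d i + f * (w'.1 i).1) := by
        rw [C_sub]
        linear_combination (-f) * h3 i
      rw [this]
      exact dvd_sub (h1 i) (h2 i)
    by_contra hne
    exact hπ.not_isUnit (isUnit_of_dvd_unit ((hπ.prime.dvd_or_dvd h5).resolve_left hf)
      (isUnit_C.2 (Ne.isUnit (sub_ne_zero.2 (Ne.symm hne)))))
  subst h4
  have h6 := congrArg Prod.snd h
  exact Prod.ext (Prod.ext (add_right_cancel (congrArg Prod.fst h)) h6) rfl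

end Pool.Agent.Lib.MP_61ca19_lc
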