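import Pool.Agent.Lib.MP_61ca19_lc.Bias

/-!
# Frobenius invariant functionals on polynomials, and their localisation at primes
-/

set_option autoImplicit false

namespace Pool.Agent.Lib.MP_61ca19_lc

open Finset Polynomial

variable {F : Type} [Field F] [CharP F 2]

/-- Frobenius invariance. -/
def Inv (ψ : F[X] →+ ZMod 2) : Prop := ∀ s, ψ (s ^ 2) = ψ s

omit [CharP F 2] in
theorem Inv.wp {ψ : F[X] →+ ZMod 2} (h : Inv ψ) (y : F) : ψ (C (y ^ 2 + y)) = 0 := by
  rw [C_add, C_pow, map_add, h, z2_add_self]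

omit [CharP F 2] in
theorem Inv.kill_of_pow {ψ : F[X] →+ ZMod 2} (h : Inv ψ) {π : F[X]} {k : ℕ}
    (hk : ∀ w, ψ (π ^ k * w) = 0) (w : F[X]) : ψ (π * w) = 0 := by
  have h1 : ∀ n x, ψ (x ^ 2 ^ n) = ψ x := by
    intro n x
    induction n with
    | zero => simp
    | succ n ih => rw [pow_succ, pow_mul, h, ih]
  obtain ⟨j, hj⟩ := Nat.exists_eq_add_of_le (Nat.lt_two_pow_self (n := k)).le
  rw [← h1 k, mul_pow, hj, pow_add, mul_assoc, hk]

theorem inv_prime_unique [Finite F] {π : F[X]} (hπ : Irreducible π) {ψ ψ' : F[X] →+ ZMod 2}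
    (h : Inv ψ) (h' : Inv ψ') (k : ∀ w, ψ (π * w) = 0) (k' : ∀ w, ψ' (π * w) = 0)
    (n : ψ ≠ 0) (n' : ψ' ≠ 0) : ψ = ψ' := by
  have : Fact (Irreducible π) := ⟨hπ⟩
  have : Module.Finite F (AdjoinRoot π) := (AdjoinRoot.powerBasis hπ.ne_zero).finite
  have : Finite (AdjoinRoot π) := Module.finite_of_finite F
  have : CharP (AdjoinRoot π) 2 :=
    charP_of_injective_algebraMap (algebraMap F (AdjoinRoot π)).injective 2
  have key : ∀ φ : F[X] →+ ZMod 2, Inv φ → (∀ w, φ (π * w) = 0) → φ ≠ 0 →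
      ∃ χ : AdjoinRoot π →+ ZMod 2, (∀ x, χ (x ^ 2) = χ x) ∧ χ ≠ 0 ∧
        ∀ p, χ (AdjoinRoot.mk π p) = φ p := by
    intro φ hφ kφ nφ
    let χ : AdjoinRoot π →+ ZMod 2 :=
      QuotientAddGroup.lift (Ideal.span {π}).toAddSubgroup φ fun x hx => by
        obtain ⟨w, rfl⟩ := Ideal.mem_span_singleton.1 hx
        exact kφ w
    have hχ : ∀ p, χ (AdjoinRoot.mk π p) = φ p := fun p => rfl
    refine ⟨χ, fun x => ?_, fun h0 => nφ (AddMonoidHom.ext fun p => ?_), hχ⟩
    · obtain ⟨p, rfl⟩ := AdjoinRoot.mk_surjective x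
      rw [← map_pow, hχ, hχ, hφ]
    · rw [← hχ, h0]
      rfl
  obtain ⟨χ, a1, a2, a3⟩ := key ψ h k n
  obtain ⟨χ', b1, b2, b3⟩ := key ψ' h' k' n'
  refine AddMonoidHom.ext fun p => ?_
  rw [← a3, ← b3, inv_unique χ χ' a1 a2 b1 b2]

variable {ι κ : Type} [Fintype ι] [Fintype κ]

/-- The pairing. -/
noncomputable def pr (a b : κ → F[X]) : F[X] := ∑ i, a i * b i

/-- The hypotheses on the points in the localisation lemma. -/
structure Compat (ρ : F) (L S : ι → κ → F[X]) : Prop where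
  loc : ∀ l, ∃ y, (pr (L l) (S l)).eval ρ + (pr (L l) (S l)).eval 0 = y ^ 2 + y
  pair : ∀ l l', l ≠ l' → ∀ ψ : F[X] →+ ZMod 2, Inv ψ → (∀ i w, ψ ((L l i + L l' i) * w) = 0) →
    (∀ i w, ψ ((S l i + S l' i) * w) = 0) →
    ψ (C ((pr (L l) (S l)).eval 0 + (pr (L l') (S l')).eval 0)) = 0

/-- A relation between functionals. -/
structure Rel (f : F[X]) (L S : ι → κ → F[X]) (ψ : ι → F[X] →+ ZMod 2) : Prop where
  inv : ∀ l, Inv (ψ l)
  one : ∀ w, ∑ l, ψ l (f * w) = 0
  lg : ∀ i w, ∑ l, ψ l (L l i * (f * w)) = 0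
  sh : ∀ i w, ∑ l, ψ l (S l i * (f * w)) = 0

theorem localize_prime [Finite F] (hι : Fintype.card ι ≤ 3) {ρ : F} {L S : ι → κ → F[X]}
    (H : Compat ρ L S) {π : F[X]} (hπ : Irreducible π) {ψ : ι → F[X] →+ ZMod 2}
    (hr : Rel ((X * (X - C ρ)) ^ 2) L S ψ) (k : ∀ l w, ψ l (π * w) = 0) :
    ∑ l, ψ l (pr (L l) (S l) + C ((pr (L l) (S l)).eval 0)) = 0 := by
  classical
  have hroot : ∀ r : F, π ∣ X - C r → ∀ l g, ψ l g = ψ l (C (g.eval r)) := by
    intro r hd l g
    obtain ⟨u, hu⟩ := hd.trans (X_sub_C_dvd_sub_C_eval (p := g) (a := r))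
    have h2 := k l u
    rw [← hu, map_sub, sub_eq_zero] at h2
    exact h2
  by_cases hd : π ∣ (X * (X - C ρ)) ^ 2
  · refine Finset.sum_eq_zero fun l _ => ?_
    rcases hπ.prime.dvd_or_dvd (hπ.prime.dvd_of_dvd_pow hd) with h | h
    · rw [hroot 0 (by simpa using h), eval_add, eval_C, CharTwo.add_self_eq_zero, map_zero,
        map_zero]
    · obtain ⟨y, hy⟩ := H.loc l
      rw [hroot ρ h, eval_add, eval_C, hy, (hr.inv l).wp]
  obtain ⟨a, b, hab⟩ := (hπ.coprime_iff_not_dvd.2 hd)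
  have hred : ∀ l x w, ψ l (x * w) = ψ l (x * ((X * (X - C ρ)) ^ 2 * (b * w))) := by
    intro l x w
    have : x * w = π * (a * x * w) + x * ((X * (X - C ρ)) ^ 2 * (b * w)) := by
      linear_combination (-(x * w)) * hab
    rw [this, map_add, k, zero_add]
  let J : Finset ι := {l | ψ l ≠ 0}
  have hJ : ∀ x : ι → F[X], ∑ l, ψ l (x l) = ∑ l ∈ J, ψ l (x l) := fun x =>
    (Finset.sum_subset (Finset.subset_univ _) fun l _ hl => by
      have : ψ l = 0 := by simpa [J] using hl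
      rw [this]
      rfl).symm
  rcases J.eq_empty_or_nonempty with h0 | ⟨l₀, hl₀⟩
  · rw [hJ, h0, Finset.sum_empty]
  have hn : ∀ l ∈ J, ψ l ≠ 0 := fun l hl => (Finset.mem_filter.1 hl).2
  have heq : ∀ l ∈ J, ψ l = ψ l₀ := fun l hl =>
    inv_prime_unique hπ (hr.inv l) (hr.inv l₀) (k l) (k l₀) (hn l hl) (hn l₀ hl₀)
  have hJ' : ∀ x : ι → F[X], ∑ l, ψ l (x l) = ψ l₀ (∑ l ∈ J, x l) := fun x => by
    rw [hJ, map_sum]
    exact Finset.sum_congr rfl fun l hl => by rw [heq l hl]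
  have h2 : J.card = 2 := by
    obtain ⟨w, hw⟩ := DFunLike.ne_iff.1 (hn l₀ hl₀)
    have h3 : ∑ l, ψ l w = 0 := by
      rw [← hr.one (b * w)]
      exact Finset.sum_congr rfl fun l _ => by simpa only [one_mul] using hred l 1 w
    rw [hJ', Finset.sum_const, map_nsmul, z2_eq_one hw, nsmul_eq_mul, mul_one,
      ZMod.natCast_eq_zero_iff] at h3
    have h4 : J.card ≤ 3 := (Finset.card_le_univ J).trans hι
    have h5 : 0 < J.card := Finset.card_pos.2 ⟨l₀, hl₀⟩
    omega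
  obtain ⟨l, l', hne, hll⟩ := Finset.card_eq_two.1 h2
  have hL : ∀ i w, ψ l₀ ((L l i + L l' i) * w) = 0 := fun i w => by
    have h3 := hr.lg i (b * w)
    simp only [← hred] at h3
    rwa [hJ', hll, Finset.sum_pair hne, ← add_mul] at h3
  have hS : ∀ i w, ψ l₀ ((S l i + S l' i) * w) = 0 := fun i w => by
    have h3 := hr.sh i (b * w)
    simp only [← hred] at h3
    rwa [hJ', hll, Finset.sum_pair hne, ← add_mul] at h3
  rw [hJ', hll, Finset.sum_pair hne, add_add_add_comm, map_add, ← C_add,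
    H.pair l l' hne _ (hr.inv l₀) hL hS, add_zero, pr, pr, ← Finset.sum_add_distrib, map_sum]
  refine Finset.sum_eq_zero fun i _ => ?_
  have : L l i * S l i + L l' i * S l' i =
      (L l i + L l' i) * S l i + (S l i + S l' i) * L l' i := by
    linear_combination (-(L l' i * S l i)) * CharTwo.two_eq_zero (R := F[X])
  rw [this, map_add, hL, hS, add_zero]

omit [CharP F 2] [Fintype κ] in
theorem Rel.mul {f : F[X]} {L S : ι → κ → F[X]} {ψ : ι → F[X] →+ ZMod 2} (hr : Rel f L S ψ)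
    {E : F[X]} (hE : ∀ l w, ψ l (E * (1 - E) * w) = 0) :
    Rel f L S fun l => (ψ l).comp (AddMonoidHom.mulLeft E) := by
  refine ⟨fun l s => ?_, fun w => ?_, fun i w => ?_, fun i w => ?_⟩
  · change ψ l (E * s ^ 2) = ψ l (E * s)
    have : E * s ^ 2 = (E * s) ^ 2 + E * (1 - E) * s ^ 2 := by ring
    rw [this, map_add, hE, add_zero, hr.inv]
  · rw [← hr.one (E * w)]
    exact Finset.sum_congr rfl fun l _ => congrArg (ψ l) (by simp; ring)
  · rw [← hr.lg i (E * w)]
    exact Finset.sum_congr rfl fun l _ => congrArg (ψ l) (by simp; ring)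
  · rw [← hr.sh i (E * w)]
    exact Finset.sum_congr rfl fun l _ => congrArg (ψ l) (by simp; ring)

theorem localize [Finite F] (hι : Fintype.card ι ≤ 3) {ρ : F} {L S : ι → κ → F[X]}
    (H : Compat ρ L S) (n : ℕ) : ∀ P : F[X], P ≠ 0 → P.natDegree < n →
    ∀ ψ : ι → F[X] →+ ZMod 2, Rel ((X * (X - C ρ)) ^ 2) L S ψ → (∀ l w, ψ l (P * w) = 0) →
      ∑ l, ψ l (pr (L l) (S l) + C ((pr (L l) (S l)).eval 0)) = 0 := by
  induction n with
  | zero => intro P _ h; omega
  | succ n ih =>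
    intro P hP hn ψ hr k
    by_cases hu : IsUnit P
    · obtain ⟨u, rfl⟩ := hu
      refine Finset.sum_eq_zero fun l _ => ?_
      rw [← u.mul_inv_cancel_left (_ + _), k]
    obtain ⟨π, hπ, hd⟩ := WfDvdMonoid.exists_irreducible_factor hu hP
    obtain ⟨j, P', h1, h2⟩ := WfDvdMonoid.max_power_factor hP hπ
    obtain ⟨a, b, hab⟩ := (hπ.coprime_iff_not_dvd.2 h1).pow_left (m := j)
    have hP' : P' ≠ 0 := fun h => hP (by rw [h2, h, mul_zero])
    have hdeg : P'.natDegree < n := by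
      have hj : j ≠ 0 := by
        rintro rfl
        exact h1 (by simpa [h2] using hd)
      have h3 : P.natDegree = j * π.natDegree + P'.natDegree := by
        rw [h2, natDegree_mul (pow_ne_zero _ hπ.ne_zero) hP', natDegree_pow]
      have h4 : 0 < j * π.natDegree := Nat.mul_pos (Nat.pos_of_ne_zero hj) hπ.natDegree_pos
      omega
    have hE : ∀ l w, ψ l (b * P' * (1 - b * P') * w) = 0 := fun l w => by
      rw [← k l (a * b * w), h2, ← hab]
      congr 1
      ring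
    have hE' : ∀ l w, ψ l (a * π ^ j * (1 - a * π ^ j) * w) = 0 := fun l w => by
      rw [← k l (a * b * w), h2, ← hab]
      congr 1
      ring
    have r1 := localize_prime hι H hπ (hr.mul hE) fun l => ((hr.mul hE).inv l).kill_of_pow
      (k := j) fun w => by
        rw [← k l (b * w), h2]
        exact congrArg (ψ l) (by simp; ring)
    have r2 := ih P' hP' hdeg _ (hr.mul hE') fun l w => by
      rw [← k l (a * w), h2]
      exact congrArg (ψ l) (by simp; ring)
    have := congrArg₂ (· + ·) r2 r1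
    simp only [AddMonoidHom.comp_apply, AddMonoidHom.coe_mulLeft, ← Finset.sum_add_distrib,
      ← map_add, ← add_mul, hab, one_mul, add_zero] at this
    simpa only [map_add] using this

end Pool.Agent.Lib.MP_61ca19_lc
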