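import Mathlib

/-!
# Keys and slots: the polynomial algebra

Data are tuples of polynomials in two variables.  A tuple has slots, indexed by field elements,
and keys, indexed by points of the plane.  The key for the point `c` determines the values of the
tuple at `c` and a jet of the tuple at its own base point.
-/

set_option autoImplicit false

namespace Pool.Agent.Lib.MP_61ca19_lc.KS

open MvPolynomial Finset

/-- Polynomials in two variables. -/
abbrev P (F : Type) [Field F] : Type := MvPolynomial (Fin 2) F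

/-- Index set of a tuple. -/
abbrev Idx (k : ℕ) : Type := (Fin 2 × Fin 2) × Fin (k + 1)

/-- Index set of the jet. -/
abbrev Lam (k : ℕ) : Type := Option (Fin (k + 1) × Idx k)

/-- Numerical parameters. -/
structure Par (k : ℕ) where
  γ : ℕ
  e : Idx k → ℕ
  e_inj : Function.Injective e
  e_le : ∀ j, e j ≤ γ
  f : Lam k → ℕ
  f_inj : Function.Injective f
  f_lt : ∀ l, f l + 1 < γ
  hk : k < γ

theorem exists_par (k : ℕ) : Nonempty (Par k) := by
  refine ⟨⟨Fintype.card (Idx k) + Fintype.card (Lam k) + k + 1,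
    fun j => (Fintype.equivFin _ j).val, fun a b h => (Fintype.equivFin _).injective (Fin.ext h),
    fun j => ?_, fun j => (Fintype.equivFin _ j).val,
    fun a b h => (Fintype.equivFin _).injective (Fin.ext h), fun j => ?_, by omega⟩⟩
  · have := (Fintype.equivFin _ j).2
    omega
  · have := (Fintype.equivFin _ j).2
    omega

noncomputable section

variable {F : Type} [Field F]

/-- Translation. -/
def tr (q : Fin 2 → F) : P F →ₐ[F] P F := aeval fun i => X i + C (q i)

/-- Exponent vectors. -/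
def ex (i j : ℕ) : Fin 2 →₀ ℕ := Finsupp.single 0 i + Finsupp.single 1 j

/-- Monomials centred at `q`. -/
def mon (q : Fin 2 → F) (i j : ℕ) : P F := (X 0 - C (q 0)) ^ i * (X 1 - C (q 1)) ^ j

/-- Taylor coefficients at `q`. -/
def jet (q : Fin 2 → F) (i j : ℕ) : P F →ₗ[F] F := lcoeff F (ex i j) ∘ₗ (tr q).toLinearMap

theorem ex_zero (i j : ℕ) : ex i j 0 = i := by simp [ex]

theorem ex_one (i j : ℕ) : ex i j 1 = j := by simp [ex]

theorem ex_le {i j i' j' : ℕ} : ex i' j' ≤ ex i j ↔ i' ≤ i ∧ j' ≤ j := by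
  rw [Finsupp.le_def, Fin.forall_fin_two, ex_zero, ex_zero, ex_one, ex_one]

theorem tr_mon (q : Fin 2 → F) (i j : ℕ) : tr q (mon q i j) = monomial (ex i j) 1 := by
  simp [tr, mon, ex, X_pow_eq_monomial, monomial_mul]

theorem jet_apply (q : Fin 2 → F) (i j : ℕ) (p : P F) : jet q i j p = coeff (ex i j) (tr q p) :=
  rfl

theorem coeff_zero_tr (q : Fin 2 → F) (p : P F) : coeff 0 (tr q p) = eval q p := by
  rw [← constantCoeff_eq]
  induction p using MvPolynomial.induction_on with
  | C a => simp [tr]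
  | add p q hp hq => simp [hp, hq]
  | mul_X p i hp =>
    rw [map_mul, map_mul, hp]
    simp [tr]

theorem jet_mul_mon_self (q : Fin 2 → F) (i j : ℕ) (p : P F) :
    jet q i j (p * mon q i j) = eval q p := by
  rw [jet_apply, map_mul, tr_mon, coeff_mul_monomial', if_pos le_rfl, tsub_self, coeff_zero_tr,
    mul_one]

theorem jet_mul_mon_of_not (q : Fin 2 → F) {i j i' j' : ℕ} (h : ¬ (i' ≤ i ∧ j' ≤ j)) (p : P F) :
    jet q i j (p * mon q i' j') = 0 := by
  rw [jet_apply, map_mul, tr_mon, coeff_mul_monomial', if_neg (ex_le.not.mpr h)]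

theorem jet_C_mul_mon (q : Fin 2 → F) {i j i' j' : ℕ} (h : ¬ (i' = i ∧ j' = j)) (c : F) :
    jet q i j (C c * mon q i' j') = 0 := by
  have : ex i' j' ≠ ex i j := fun e => h
    ⟨by rw [← ex_zero i' j', e, ex_zero], by rw [← ex_one i' j', e, ex_one]⟩
  rw [C_mul', map_smul, jet_apply, tr_mon, coeff_monomial, if_neg this, smul_zero]

theorem eval_mon (q c : Fin 2 → F) (i j : ℕ) :
    eval q (mon c i j) = (q 0 - c 0) ^ i * (q 1 - c 1) ^ j := by
  simp [mon]

theorem eval_mon_self (q : Fin 2 → F) {i j : ℕ} (h : 0 < i + j) : eval q (mon q i j) = 0 := by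
  rw [eval_mon, sub_self, sub_self, ← pow_add, zero_pow h.ne']

theorem degreeOf_lin (t s : Fin 2) (c : F) :
    degreeOf t (X s - C c : P F) ≤ if t = s then 1 else 0 := by
  refine (degreeOf_sub_le _ _ _).trans (max_le ?_ ?_)
  · rw [degreeOf_X]
  · simp [degreeOf_C]

theorem degreeOf_mon (q : Fin 2 → F) {i j g : ℕ} (hi : i ≤ g) (hj : j ≤ g) (t : Fin 2) :
    degreeOf t (mon q i j) ≤ g := by
  refine (degreeOf_mul_le _ _ _).trans ?_
  have h1 := (degreeOf_pow_le t (X 0 - C (q 0) : P F) i).trans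
    (Nat.mul_le_mul_left i (degreeOf_lin t 0 (q 0)))
  have h2 := (degreeOf_pow_le t (X 1 - C (q 1) : P F) j).trans
    (Nat.mul_le_mul_left j (degreeOf_lin t 1 (q 1)))
  fin_cases t <;> simp at h1 h2 ⊢ <;> omega

theorem degreeOf_sum_lt {α : Type} (s : Finset α) (g : α → P F) (t : Fin 2) {d : ℕ} (hd : 0 < d)
    (h : ∀ a ∈ s, degreeOf t (g a) < d) : degreeOf t (∑ a ∈ s, g a) < d :=
  (degreeOf_sum_le t s g).trans_lt ((Finset.sup_lt_iff hd).mpr h)

theorem degreeOf_add_lt {p q : P F} {t : Fin 2} {d : ℕ} (hp : degreeOf t p < d)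
    (hq : degreeOf t q < d) : degreeOf t (p + q) < d :=
  (degreeOf_add_le t p q).trans_lt (max_lt hp hq)

theorem degreeOf_C_mul_lt {p : P F} {t : Fin 2} {d : ℕ} (c : F) (hp : degreeOf t p < d) :
    degreeOf t (C c * p) < d :=
  (degreeOf_C_mul_le p t c).trans_lt hp

variable {k : ℕ} (A : Par k)

/-- The four multipliers. -/
def mu (r : Fin 2 × Fin 2) : P F := mon 0 (A.γ * r.1.val) (A.γ * r.2.val)

theorem mu_zero : (mu A (0, 0) : P F) = 1 := by simp [mu, mon]

/-- Bounded degrees. -/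
def Small (ψ : Idx k → P F) : Prop := ∀ j t, degreeOf t (ψ j) < A.γ

/-- Coefficients of the slot polynomial. -/
def Xi (ψ : Idx k → P F) (i : Fin (k + 1)) : P F := ∑ r, mu A r * ψ (r, i)

/-- The content of the slot with label `u`. -/
def slot (ψ : Idx k → P F) (u : F) : P F := ∑ i : Fin (k + 1), C (u ^ i.val) * Xi A ψ i

/-- The jet at the base point. -/
def JJ (a : Fin 2 → F) (ψ : Idx k → P F) : Lam k → F
  | none => eval a (ψ ((0, 0), 0))
  | some x => jet a (A.e x.2) (A.γ - A.e x.2) (Xi A ψ x.1)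

/-- The key of the tuple `ψ` with base point `a` for the point `c`. -/
def key (a c : Fin 2 → F) (ψ : Idx k → P F) : P F :=
  ∑ j, ψ j * mon c (A.e j) (A.γ - A.e j) + ∑ l, C (JJ A a ψ l) * mon c 0 (A.f l + 1)

theorem jet_key_top (a c : Fin 2 → F) (ψ : Idx k → P F) (j : Idx k) :
    jet c (A.e j) (A.γ - A.e j) (key A a c ψ) = eval c (ψ j) := by
  rw [key, map_add, map_sum, map_sum, Finset.sum_eq_single j, jet_mul_mon_self,
    Finset.sum_eq_zero, add_zero]
  · intro l _
    refine jet_C_mul_mon c (fun h => ?_) _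
    have := A.f_lt l
    omega
  · intro j' _ hj
    refine jet_mul_mon_of_not c (fun h => hj (A.e_inj ?_)) _
    have := A.e_le j
    have := A.e_le j'
    omega
  · simp

theorem jet_key_low (a c : Fin 2 → F) (ψ : Idx k → P F) (l : Lam k) :
    jet c 0 (A.f l + 1) (key A a c ψ) = JJ A a ψ l := by
  rw [key, map_add, map_sum, map_sum, Finset.sum_eq_zero, Finset.sum_eq_single l,
    jet_mul_mon_self, zero_add, eval_C]
  · intro l' _ hl
    exact jet_C_mul_mon c (fun h => hl (A.f_inj (by omega))) _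
  · simp
  · intro j _
    refine jet_mul_mon_of_not c (fun h => ?_) _
    have := A.f_lt l
    omega

theorem eval_key_self (a c : Fin 2 → F) (ψ : Idx k → P F) : eval c (key A a c ψ) = 0 := by
  rw [key, map_add, map_sum, map_sum, Finset.sum_eq_zero, Finset.sum_eq_zero, add_zero]
  · intro l _
    rw [map_mul, eval_mon_self c (by omega), mul_zero]
  · intro j _
    have := A.hk
    have := A.e_le j
    rw [map_mul, eval_mon_self c (by omega), mul_zero]

variable {A}

theorem eval_of_key {a c : Fin 2 → F} {ψ ψ' : Idx k → P F} (h : key A a c ψ = key A a c ψ')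
    (j : Idx k) : eval c (ψ j) = eval c (ψ' j) := by
  rw [← jet_key_top A a, h, jet_key_top]

theorem JJ_of_key {a c : Fin 2 → F} {ψ ψ' : Idx k → P F} (h : key A a c ψ = key A a c ψ') :
    JJ A a ψ = JJ A a ψ' := by
  funext l
  rw [← jet_key_low A a c, h, jet_key_low]

theorem eval_slot_congr {c : Fin 2 → F} {ψ ψ' : Idx k → P F}
    (h : ∀ j, eval c (ψ j) = eval c (ψ' j)) (u : F) :
    eval c (slot A ψ u) = eval c (slot A ψ' u) := by
  simp only [slot, Xi, map_sum, map_mul, h]

theorem eval_key_congr {a c : Fin 2 → F} {ψ ψ' : Idx k → P F} (h : key A a c ψ = key A a c ψ')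
    (b : Fin 2 → F) : eval c (key A a b ψ) = eval c (key A a b ψ') := by
  simp only [key, map_add, map_sum, map_mul, eval_of_key h, JJ_of_key h]

theorem jet_slot (a : Fin 2 → F) (ψ : Idx k → P F) (u : F) (j : Idx k) :
    jet a (A.e j) (A.γ - A.e j) (slot A ψ u) =
      ∑ i : Fin (k + 1), u ^ i.val * JJ A a ψ (some (i, j)) := by
  simp only [slot, map_sum, C_mul', map_smul, smul_eq_mul, JJ]

/-- Two steps of decoding. -/
theorem eval_of_key_key {a b c : Fin 2 → F} {ψ ψ' φ φ' : Idx k → P F} {u : F}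
    (h : key A a c ψ = key A a c ψ') (h1 : slot A ψ u = key A b a φ)
    (h2 : slot A ψ' u = key A b a φ') (j : Idx k) : eval a (φ j) = eval a (φ' j) := by
  rw [← jet_key_top A b, ← h1, jet_slot, JJ_of_key h, ← jet_slot, h2, jet_key_top]

theorem degreeOf_key {ψ : Idx k → P F} (h : Small A ψ) (a c : Fin 2 → F) (t : Fin 2) :
    degreeOf t (key A a c ψ) < 2 * A.γ := by
  have hk := A.hk
  refine degreeOf_add_lt (degreeOf_sum_lt _ _ _ (by omega) fun j _ => ?_)
    (degreeOf_sum_lt _ _ _ (by omega) fun l _ => degreeOf_C_mul_lt _ ?_)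
  · have h1 := h j t
    have h2 := degreeOf_mon c (A.e_le j) (Nat.sub_le A.γ (A.e j)) t
    have h3 := degreeOf_mul_le t (ψ j) (mon c (A.e j) (A.γ - A.e j))
    omega
  · have h2 := degreeOf_mon c (Nat.zero_le A.γ) (A.f_lt l).le t
    omega

theorem degreeOf_slot {ψ : Idx k → P F} (h : Small A ψ) (u : F) (t : Fin 2) :
    degreeOf t (slot A ψ u) < 2 * A.γ := by
  have hk := A.hk
  refine degreeOf_sum_lt _ _ _ (by omega) fun i _ => degreeOf_C_mul_lt _
    (degreeOf_sum_lt _ _ _ (by omega) fun r _ => ?_)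
  have h1 := h (r, i) t
  have b : ∀ s : Fin 2, A.γ * s.val ≤ A.γ := fun s => by
    fin_cases s <;> simp
  have h2 : degreeOf t (mu A r : P F) ≤ A.γ := degreeOf_mon 0 (b r.1) (b r.2) t
  have h3 := degreeOf_mul_le t (mu A r) (ψ (r, i))
  omega

/-- Division by the four multipliers. -/
theorem exists_split (A : Par k) {p : P F} (h : ∀ t, degreeOf t p < 2 * A.γ) :
    ∃ H : Fin 2 × Fin 2 → P F, (∀ r t, degreeOf t (H r) < A.γ) ∧ ∑ r, mu A r * H r = p := by
  classical
  have hk := A.hk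
  have key : ∀ s : Fin 2 →₀ ℕ, (∀ t, s t < 2 * A.γ) → ∀ c : F, ∃ H : Fin 2 × Fin 2 → P F,
      (∀ r t, degreeOf t (H r) < A.γ) ∧ ∑ r, mu A r * H r = monomial s c := by
    intro s hs c
    have hd : ∀ t, s t / A.γ < 2 := fun t => Nat.div_lt_of_lt_mul (by rw [mul_comm]; exact hs t)
    let r0 : Fin 2 × Fin 2 := (⟨_, hd 0⟩, ⟨_, hd 1⟩)
    refine ⟨fun r => if r = r0 then C c * mon 0 (s 0 % A.γ) (s 1 % A.γ) else 0, fun r t => ?_, ?_⟩
    · beta_reduce
      split_ifs
      · have h0 := Nat.mod_lt (s 0) (show 0 < A.γ by omega)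
        have h1 := Nat.mod_lt (s 1) (show 0 < A.γ by omega)
        refine degreeOf_C_mul_lt _ ((degreeOf_mon (g := A.γ - 1) 0 ?_ ?_ t).trans_lt ?_) <;> omega
      · rw [degreeOf_zero]
        omega
    · rw [Finset.sum_eq_single r0 (fun r _ hr => by simp [hr]) (by simp)]
      beta_reduce
      rw [if_pos rfl, monomial_eq, Finsupp.prod_fintype _ _ (by simp), Fin.prod_univ_two]
      conv_rhs => rw [← Nat.div_add_mod (s 0) A.γ, ← Nat.div_add_mod (s 1) A.γ]
      simp only [mu, mon, r0, Pi.zero_apply, map_zero, sub_zero, pow_add]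
      ring
  choose! H h1 h2 using key
  have hs : ∀ s ∈ p.support, ∀ t, s t < 2 * A.γ := fun s hs t =>
    (monomial_le_degreeOf t hs).trans_lt (h t)
  refine ⟨fun r => ∑ s ∈ p.support, H s (coeff s p) r, fun r t =>
    degreeOf_sum_lt _ _ _ (by omega) fun s hs' => h1 s (hs s hs') _ r t, ?_⟩
  simp only [Finset.mul_sum]
  rw [Finset.sum_comm]
  conv_rhs => rw [p.as_sum]
  exact Finset.sum_congr rfl fun s hs' => h2 s (hs s hs') _

theorem Xi_add_smul (ψ δ : Idx k → P F) (ρ : F) (i : Fin (k + 1)) :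
    Xi A (ψ + ρ • δ) i = Xi A ψ i + ρ • Xi A δ i := by
  simp only [Xi, Pi.add_apply, Pi.smul_apply, mul_add, Finset.sum_add_distrib, Finset.smul_sum,
    mul_smul_comm]

theorem slot_add_smul (ψ δ : Idx k → P F) (ρ u : F) :
    slot A (ψ + ρ • δ) u = slot A ψ u + ρ • slot A δ u := by
  simp only [slot, Xi_add_smul, mul_add, Finset.sum_add_distrib, Finset.smul_sum, mul_smul_comm]

theorem JJ_add_smul (a : Fin 2 → F) (ψ δ : Idx k → P F) (ρ : F) (l : Lam k) :
    JJ A a (ψ + ρ • δ) l = JJ A a ψ l + ρ * JJ A a δ l := by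
  cases l with
  | none => simp [JJ]
  | some x => simp [JJ, Xi_add_smul]

theorem eval_key_add_smul (q a c : Fin 2 → F) (ψ δ : Idx k → P F) (ρ : F) :
    eval q (key A a c (ψ + ρ • δ)) = eval q (key A a c ψ) + ρ * eval q (key A a c δ) := by
  simp only [key, JJ_add_smul, map_add, map_sum, map_mul, eval_C, Pi.add_apply, Pi.smul_apply,
    smul_eval, add_mul, mul_add, Finset.sum_add_distrib, Finset.mul_sum, mul_assoc]
  ring

/-- A grid point avoiding finitely many curves. -/
theorem exists_point (S : Finset F) (G : Finset (P F)) {D : ℕ} (h0 : ∀ p ∈ G, p ≠ 0)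
    (hD : ∀ p ∈ G, ∀ t, degreeOf t p ≤ D) (hS : G.card * D < S.card) :
    ∃ a : Fin 2 → S, ∀ p ∈ G, eval (fun i => (a i : F)) p ≠ 0 := by
  by_contra hc
  push Not at hc
  refine Finset.prod_ne_zero_iff.mpr h0
    (eq_zero_of_eval_zero_at_prod_finset _ (fun _ => S) (fun t => ?_) fun x hx => ?_)
  · refine (degreeOf_prod_le _ _ _).trans_lt (lt_of_le_of_lt ?_ hS)
    exact (Finset.sum_le_card_nsmul _ _ D fun p hp => hD p hp t)
  · obtain ⟨p, hp, h⟩ := hc fun i => ⟨x i, hx i⟩
    rw [map_prod]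
    exact Finset.prod_eq_zero hp h

omit [Field F] in
/-- A field element avoiding finitely many sets with at most one element. -/
theorem exists_avoid [Fintype F] {α : Type} (I : Finset α) (B : α → Set F)
    (h : ∀ a ∈ I, (B a).Subsingleton) (hc : I.card < Fintype.card F) :
    ∃ ρ, ∀ a ∈ I, ρ ∉ B a := by
  by_contra hn
  push Not at hn
  choose g h1 h2 using hn
  have : (Finset.univ : Finset F).card ≤ I.card :=
    Finset.card_le_card_of_injOn g (fun ρ _ => h1 ρ)
      fun ρ _ ρ' _ e => h _ (h1 ρ) (h2 ρ) (e ▸ h2 ρ')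
  rw [Finset.card_univ] at this
  omega

end

end Pool.Agent.Lib.MP_61ca19_lc.KS
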