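import Pool.Agent.Lib.MP_61ca19_lc.KeyInterp

/-!
# The graph of keys and slots

A vertex is a base point in a grid together with a tuple of polynomials.  A vertex points to
another one when one of its slots holds the key of the other one for its base point.  Two
validity conditions, each about a single vertex, exclude transitive and cyclic triangles.
-/

set_option autoImplicit false

namespace Pool.Agent.Lib.MP_61ca19_lc.KS

open MvPolynomial Finset

noncomputable section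

/-- The data of the construction. -/
structure Setup (F : Type) [Field F] (k : ℕ) where
  A : Par k
  S : Finset F
  lab : (Fin 2 → S) × Fin k → F
  lab_inj : Function.Injective lab
  lab_ne : ∀ x, lab x ≠ 0

namespace Setup

variable {F : Type} [Field F] {k : ℕ} (T : Setup F k)

/-- The grid. -/
abbrev Q : Type := Fin 2 → T.S

/-- The point of the plane. -/
def pt (a : T.Q) : Fin 2 → F := fun i => (a i : F)

/-- A slot of `(l, ζ)` holds the key of `(a, ψ)`. -/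
def Link (l : T.Q) (ζ : Idx k → P F) (a : T.Q) (j : Fin k) (ψ : Idx k → P F) : Prop :=
  slot T.A ζ (T.lab (a, j)) = key T.A (T.pt a) (T.pt l) ψ

/-- Excludes transitive triangles. -/
def Val1 (l : T.Q) (ζ : Idx k → P F) : Prop :=
  ∀ (a b : T.Q) (j j1 j2 : Fin k) (ψ φ : Idx k → P F), a 1 ≠ b 1 → T.Link l ζ a j1 ψ →
    T.Link l ζ b j2 φ →
    eval (T.pt l) (slot T.A ψ (T.lab (b, j))) ≠ eval (T.pt l) (key T.A (T.pt b) (T.pt a) φ)

/-- Excludes cyclic triangles. -/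
def Val2 (c : T.Q) (ζ : Idx k → P F) : Prop :=
  ∀ (a b : T.Q) (j1 j2 j3 : Fin k) (ψ φ : Idx k → P F), a 1 ≠ b 1 → T.Link c ζ a j1 ψ →
    T.Link a ψ b j2 φ →
    eval (T.pt a) (slot T.A φ (T.lab (c, j3))) ≠ eval (T.pt a) (key T.A (T.pt c) (T.pt b) ζ)

/-- The vertices. -/
def V : Type := {x : T.Q × (Idx k → P F) // Small T.A x.2 ∧ T.Val1 x.1 x.2 ∧ T.Val2 x.1 x.2}

theorem finite_V [Finite F] : Finite T.V :=
  Set.Finite.subset (Set.finite_univ.prod (Set.Finite.pi' fun _ : Idx k => finite_small T.A.γ))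
    (t := {x : T.Q × (Idx k → P F) | Small T.A x.2 ∧ T.Val1 x.1 x.2 ∧ T.Val2 x.1 x.2})
    fun _ hx => ⟨trivial, hx.1⟩

/-- Directed edges. -/
def Dir (z w : T.V) : Prop := z.1.1 1 ≠ w.1.1 1 ∧ ∃ j, T.Link z.1.1 z.1.2 w.1.1 j w.1.2

/-- The graph. -/
def G : SimpleGraph T.V where
  Adj z w := T.Dir z w ∨ T.Dir w z
  symm := ⟨fun _ _ h => h.symm⟩
  loopless := ⟨fun _ h => h.elim (fun h => h.1 rfl) fun h => h.1 rfl⟩

variable {T}

theorem no_trans {z x y : T.V} (h1 : T.Dir z x) (h2 : T.Dir z y) (h3 : T.Dir x y) : False := by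
  obtain ⟨-, j1, h1⟩ := h1
  obtain ⟨-, j2, h2⟩ := h2
  obtain ⟨h, j, h3⟩ := h3
  exact z.2.2.1 _ _ j j1 j2 _ _ h h1 h2 (congrArg _ h3)

theorem no_cyc {z x y : T.V} (h1 : T.Dir z x) (h2 : T.Dir x y) (h3 : T.Dir y z) : False := by
  obtain ⟨-, j1, h1⟩ := h1
  obtain ⟨h, j2, h2⟩ := h2
  obtain ⟨-, j3, h3⟩ := h3
  exact z.2.2.2 _ _ j1 j2 j3 _ _ h h1 h2 (congrArg _ h3)

theorem cliqueFree : T.G.CliqueFree 3 := by
  classical
  intro s hs
  obtain ⟨a, b, c, h1, h2, h3, -⟩ := SimpleGraph.is3Clique_iff.mp hs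
  rcases h1 with h1 | h1 <;> rcases h2 with h2 | h2 <;> rcases h3 with h3 | h3
  · exact no_trans h1 h2 h3
  · exact no_trans h2 h1 h3
  · exact no_cyc h1 h3 h2
  · exact no_trans h2 h3 h1
  · exact no_trans h1 h3 h2
  · exact no_cyc h1 h2 h3
  · exact no_trans h3 h1 h2
  · exact no_trans h3 h2 h1

/-- Choice of the base point. -/
theorem exists_base (W : Finset T.V) (hW : W.card ≤ k)
    (hS : (k * k * k + k * k * Fintype.card (Idx k) + k) * (2 * T.A.γ) < T.S.card) :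
    ∃ l : T.Q, (∀ w ∈ W, l 1 ≠ w.1.1 1) ∧
      (∀ x ∈ W, ∀ y ∈ W, ∀ j, ¬ T.Link x.1.1 x.1.2 y.1.1 j y.1.2 →
        eval (T.pt l) (slot T.A x.1.2 (T.lab (y.1.1, j))) ≠
          eval (T.pt l) (key T.A (T.pt y.1.1) (T.pt x.1.1) y.1.2)) ∧
      ∀ x ∈ W, ∀ y ∈ W, (∀ j, eval (T.pt l) (x.1.2 j) = eval (T.pt l) (y.1.2 j)) →
        x.1.2 = y.1.2 := by
  classical
  have hk := T.A.hk
  let g1 : (T.V × T.V) × Fin k → P F := fun a =>
    slot T.A a.1.1.1.2 (T.lab (a.1.2.1.1, a.2)) - key T.A (T.pt a.1.2.1.1) (T.pt a.1.1.1.1) a.1.2.1.2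
  let g2 : (T.V × T.V) × Idx k → P F := fun a => a.1.1.1.2 a.2 - a.1.2.1.2 a.2
  let g3 : T.V → P F := fun w => X 1 - C (w.1.1 1 : F)
  let G0 : Finset (P F) :=
    (((W ×ˢ W) ×ˢ univ).image g1 ∪ ((W ×ˢ W) ×ˢ univ).image g2) ∪ W.image g3
  have hc : (G0.filter (· ≠ 0)).card ≤ k * k * k + k * k * Fintype.card (Idx k) + k := by
    have hWW : (W ×ˢ W).card ≤ k * k := by
      rw [card_product]
      exact Nat.mul_le_mul hW hW
    refine (card_filter_le _ _).trans ((card_union_le _ _).trans (add_le_add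
      ((card_union_le _ _).trans (add_le_add (card_image_le.trans ?_) (card_image_le.trans ?_)))
      (card_image_le.trans hW)))
    · rw [card_product, card_univ, Fintype.card_fin]
      exact Nat.mul_le_mul_right _ hWW
    · rw [card_product, card_univ]
      exact Nat.mul_le_mul_right _ hWW
  obtain ⟨l, hl⟩ := exists_point T.S (G0.filter (· ≠ 0)) (D := 2 * T.A.γ)
    (fun p hp => (mem_filter.mp hp).2) (fun p hp t => by
      simp only [G0, mem_filter, mem_union, mem_image] at hp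
      obtain ⟨(⟨a, -, rfl⟩ | ⟨a, -, rfl⟩) | ⟨a, -, rfl⟩, -⟩ := hp
      · exact (degreeOf_sub_le _ _ _).trans (max_le (degreeOf_slot a.1.1.2.1 _ t).le
          (degreeOf_key a.1.2.2.1 _ _ t).le)
      · have h1 := a.1.1.2.1 a.2 t
        have h2 := a.1.2.2.1 a.2 t
        exact (degreeOf_sub_le _ _ _).trans (max_le (by omega) (by omega))
      · refine (degreeOf_lin _ _ _).trans ?_
        split_ifs <;> omega)
    ((Nat.mul_le_mul_right _ hc).trans_lt hS)
  have hl' : ∀ p ∈ G0, eval (T.pt l) p = 0 → p = 0 := fun p hp h => by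
    by_contra h0
    exact hl p (mem_filter.mpr ⟨hp, h0⟩) h
  refine ⟨l, fun w hw e => ?_, fun x hx y hy j hn e => hn ?_, fun x hx y hy e => ?_⟩
  · have h0 := hl' (g3 w) (mem_union_right _ (mem_image_of_mem _ hw)) (by simp [g3, pt, e])
    have h1 := congrArg (eval fun _ => (w.1.1 1 : F) + 1) h0
    simp [g3] at h1
  · exact sub_eq_zero.mp (hl' (g1 ((x, y), j))
      (mem_union_left _ (mem_union_left _ (mem_image_of_mem _ (by simp [hx, hy]))))
      (by rw [map_sub, e, sub_self]))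
  · funext j
    exact sub_eq_zero.mp (hl' (g2 ((x, y), j))
      (mem_union_left _ (mem_union_right _ (mem_image_of_mem _ (by simp [hx, hy]))))
      (by rw [map_sub, e, sub_self]))

theorem extension [Fintype F] [DecidableEq F]
    (hS : (k * k * k + k * k * Fintype.card (Idx k) + k) * (2 * T.A.γ) < T.S.card)
    (hF : k * (Fintype.card T.Q * (k * k)) + k * k + 1 < Fintype.card F)
    (X Y : Finset T.V) (hX : T.G.IsIndepSet (X : Set T.V)) (hXY : Disjoint X Y)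
    (hc : X.card + Y.card ≤ k) :
    ∃ z, z ∉ X ∧ z ∉ Y ∧ (∀ x ∈ X, T.G.Adj z x) ∧ ∀ y ∈ Y, ¬ T.G.Adj z y := by
  classical
  have hXk : X.card ≤ k := by omega
  have hYk : Y.card ≤ k := by omega
  obtain ⟨l, hl1, hl2, hl3⟩ := exists_base (X ∪ Y) ((card_union_le _ _).trans hc) hS
  have mX : ∀ x ∈ X, x ∈ X ∪ Y := fun x hx => mem_union_left _ hx
  have mY : ∀ x ∈ Y, x ∈ X ∪ Y := fun x hx => mem_union_right _ hx
  -- labels
  obtain ⟨jx, hjx⟩ : ∃ jx : X → Fin k, Function.Injective jx := by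
    obtain ⟨e⟩ := Function.Embedding.nonempty_of_card_le (α := X) (β := Fin k) (by simpa using hXk)
    exact ⟨e, e.injective⟩
  let v : X → F := fun x => T.lab (x.1.1.1, jx x)
  have hv : Function.Injective v := fun x y h => hjx (congrArg Prod.snd (T.lab_inj h))
  have hu : (univ : Finset X).card ≤ k := by simpa using hXk
  obtain ⟨ζ, z1, z2, z3⟩ := exists_interp (A := T.A) univ hu hv.injOn
    (fun x => key T.A (T.pt x.1.1.1) (T.pt l) x.1.1.2) (fun x _ => degreeOf_key x.1.2.1 _ _)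
    (T.pt l) (fun x _ => eval_key_self _ _ _ _)
  obtain ⟨δ, d1, d2, d3, d4, d5⟩ := exists_dir (A := T.A) univ hu v (fun x => (x.1.1.1 1 : F))
    (fun x _ => T.lab_ne _) (T.pt l) (fun x _ e => hl1 x.1 (mX _ x.2) (Subtype.ext e))
  -- the parameter
  let B1 : X × T.Q × Fin k × Fin k → Set F := fun a => {ρ | ∃ ψ φ : Idx k → P F,
    a.1.1.1.1 1 ≠ a.2.1 1 ∧
    key T.A (T.pt a.1.1.1.1) (T.pt l) ψ = key T.A (T.pt a.1.1.1.1) (T.pt l) a.1.1.1.2 ∧
    T.Link a.1.1.1.1 ψ a.2.1 a.2.2.1 φ ∧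
    eval (T.pt a.1.1.1.1) (slot T.A φ (T.lab (l, a.2.2.2))) =
      eval (T.pt a.1.1.1.1) (key T.A (T.pt l) (T.pt a.2.1) (ζ + ρ • δ))}
  let B2 : Y × Fin k → Set F := fun a => {ρ | T.Link a.1.1.1.1 a.1.1.1.2 l a.2 (ζ + ρ • δ)}
  obtain ⟨ρ, hρ⟩ := exists_avoid (F := F) (univ : Finset (Option ((X × T.Q × Fin k × Fin k) ⊕
      (Y × Fin k)))) (fun o => o.elim {0} (Sum.elim B1 B2)) (by
    rintro (_ | a | a) -
    · exact Set.subsingleton_singleton
    · rintro ρ ⟨ψ, φ, h0, h1, h2, h3⟩ ρ' ⟨ψ', φ', -, h1', h2', h3'⟩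
      rw [eval_slot_congr (eval_of_key_key (h1.trans h1'.symm) h2 h2'), h3', eval_key_add_smul,
        eval_key_add_smul, add_right_inj] at h3
      exact (mul_right_cancel₀ (d5 a.1 (mem_univ _) _ _ rfl fun e => h0 (Subtype.ext e)) h3).symm
    · intro ρ h ρ' h'
      have h1 := congrFun (JJ_of_key (Eq.trans (Eq.symm h) h')) none
      rw [JJ_add_smul, JJ_add_smul, add_right_inj] at h1
      exact mul_right_cancel₀ d4 h1) (by
    refine lt_of_le_of_lt ?_ hF
    simp only [card_univ, Fintype.card_option, Fintype.card_sum, Fintype.card_prod,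
      Fintype.card_coe, Fintype.card_fin]
    gcongr)
  have hρ0 : ρ ≠ 0 := hρ none (mem_univ _)
  have hρ1 : ∀ a, ρ ∉ B1 a := fun a => hρ (some (.inl a)) (mem_univ _)
  have hρ2 : ∀ a, ρ ∉ B2 a := fun a => hρ (some (.inr a)) (mem_univ _)
  have hlink : ∀ x : X, T.Link l (ζ + ρ • δ) x.1.1.1 (jx x) x.1.1.2 := fun x => by
    have h := slot_add_smul (A := T.A) ζ δ ρ (v x)
    rwa [z2 x (mem_univ _), d2 x (mem_univ _), smul_zero, add_zero] at h
  have hdec : ∀ a j ψ, T.Link l (ζ + ρ • δ) a j ψ → ∃ x : X, a = x.1.1.1 ∧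
      key T.A (T.pt a) (T.pt l) ψ = key T.A (T.pt a) (T.pt l) x.1.1.2 := fun a j ψ h => by
    by_cases hx : ∃ x : X, T.lab (a, j) = v x
    · obtain ⟨x, hx⟩ := hx
      obtain ⟨rfl, rfl⟩ := Prod.mk.inj (T.lab_inj hx)
      exact ⟨x, rfl, Eq.trans (Eq.symm h) (hlink x)⟩
    · have h1 := congrArg (eval (T.pt l)) h
      rw [eval_key_self, slot_add_smul, map_add, z3, zero_add, smul_eval] at h1
      exact (mul_ne_zero hρ0 (d3 _ fun x _ e => hx ⟨x, e⟩) h1).elim
  let z : T.V := ⟨(l, ζ + ρ • δ), fun j t => by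
      refine degreeOf_add_lt (z1 j t) ?_
      rw [Pi.smul_apply, smul_eq_C_mul]
      exact degreeOf_C_mul_lt _ (d1 j t),
    fun a b j j1 j2 ψ φ hab h1 h2 => by
      obtain ⟨x, rfl, hx⟩ := hdec _ _ _ h1
      obtain ⟨y, rfl, hy⟩ := hdec _ _ _ h2
      rw [eval_slot_congr (eval_of_key hx), eval_key_congr hy]
      exact hl2 _ (mX _ x.2) _ (mX _ y.2) j fun h =>
        hX x.2 y.2 (fun e => hab (by rw [e])) (Or.inl ⟨hab, j, h⟩),
    fun a b j1 j2 j3 ψ φ hab h1 h2 h3 => by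
      obtain ⟨x, rfl, hx⟩ := hdec _ _ _ h1
      exact hρ1 (x, b, j2, j3) ⟨ψ, φ, hab, hx, h2, h3⟩⟩
  refine ⟨z, fun h => hl1 z (mX _ h) rfl, fun h => hl1 z (mY _ h) rfl,
    fun x hx => Or.inl ⟨hl1 x (mX _ hx), _, hlink ⟨x, hx⟩⟩, fun y hy => ?_⟩
  rintro (⟨-, j, h⟩ | ⟨-, j, h⟩)
  · obtain ⟨x, h1, h2⟩ := hdec _ _ _ h
    have e : y = x.1 :=
      Subtype.ext (Prod.ext h1 (hl3 _ (mY _ hy) _ (mX _ x.2) (eval_of_key h2)))
    exact Finset.disjoint_left.mp hXY x.2 (e ▸ hy)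
  · exact hρ2 (⟨y, hy⟩, j) h

end Setup

/-- A finite triangle-free graph with the extension property of order `k`. -/
theorem exists_graph (k : ℕ) : ∃ (V : Type) (_ : Finite V) (G : SimpleGraph V),
    G.CliqueFree 3 ∧ ∀ X Y : Finset V, G.IsIndepSet (X : Set V) → Disjoint X Y →
      X.card + Y.card ≤ k →
      ∃ z, z ∉ X ∧ z ∉ Y ∧ (∀ x ∈ X, G.Adj z x) ∧ ∀ y ∈ Y, ¬ G.Adj z y := by
  classical
  obtain ⟨A⟩ := exists_par k
  set s := (k * k * k + k * k * Fintype.card (Idx k) + k) * (2 * A.γ) + 1 with hs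
  obtain ⟨p, hp, hpp⟩ :=
    Nat.exists_infinite_primes (k * (s ^ 2 * (k * k)) + k * k + 2 + s + s ^ 2 * k)
  have := Fact.mk hpp
  obtain ⟨S, -, hS⟩ := Finset.exists_subset_card_eq (s := (univ : Finset (ZMod p))) (n := s)
    (by rw [card_univ, ZMod.card]; omega)
  have hQ : Fintype.card (Fin 2 → S) = s ^ 2 := by simp [hS]
  obtain ⟨e⟩ := Function.Embedding.nonempty_of_card_le (α := (Fin 2 → S) × Fin k)
    (β := (ZMod p)ˣ) (by
      rw [Fintype.card_prod, hQ, Fintype.card_fin, ZMod.card_units]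
      omega)
  let T : Setup (ZMod p) k := ⟨A, S, fun x => (e x : ZMod p),
    fun x y h => e.injective (Units.ext h), fun x => (e x).ne_zero⟩
  refine ⟨T.V, T.finite_V, T.G, Setup.cliqueFree, Setup.extension ?_ ?_⟩
  · change _ < S.card
    rw [hS]
    exact Nat.lt_succ_self _
  · change k * (Fintype.card (Fin 2 → S) * (k * k)) + k * k + 1 < _
    rw [hQ, ZMod.card]
    omega

end

end Pool.Agent.Lib.MP_61ca19_lc.KS
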