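import Pool.Agent.Lib.MP_61ca19_lc.KeyAlg

/-!
# Tuples with prescribed slots
-/

set_option autoImplicit false

namespace Pool.Agent.Lib.MP_61ca19_lc.KS

open MvPolynomial Finset

noncomputable section

variable {F : Type} [Field F] {k : ℕ} {A : Par k}

/-- The tuple built from a polynomial in the label and four components. -/
def tens (q : Polynomial F) (H : Fin 2 × Fin 2 → P F) : Idx k → P F :=
  fun j => C (q.coeff j.2.val) * H j.1

theorem Xi_tens (q : Polynomial F) (H : Fin 2 × Fin 2 → P F) (i : Fin (k + 1)) :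
    Xi A (tens q H) i = C (q.coeff i.val) * ∑ r, mu A r * H r := by
  simp only [Xi, tens, Finset.mul_sum]
  exact Finset.sum_congr rfl fun r _ => by ring

theorem slot_tens {q : Polynomial F} (hq : q.natDegree ≤ k) (H : Fin 2 × Fin 2 → P F) (u : F) :
    slot A (tens q H) u = C (q.eval u) * ∑ r, mu A r * H r := by
  rw [Polynomial.eval_eq_sum_range' (Nat.lt_succ_of_le hq), ← Fin.sum_univ_eq_sum_range
    (fun i => q.coeff i * u ^ i), map_sum, Finset.sum_mul, slot]
  refine Finset.sum_congr rfl fun i _ => ?_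
  rw [Xi_tens, map_mul]
  ring

theorem slot_sum {ι : Type} (X : Finset ι) (g : ι → Idx k → P F) (u : F) :
    slot A (∑ x ∈ X, g x) u = ∑ x ∈ X, slot A (g x) u := by
  simp only [slot, Xi, Finset.sum_apply, Finset.mul_sum]
  rw [Finset.sum_comm (s := X)]
  exact Finset.sum_congr rfl fun i _ => Finset.sum_comm

/-- A tuple with prescribed slots. -/
theorem exists_interp {ι : Type} [DecidableEq ι] (X : Finset ι) (hX : X.card ≤ k) {v : ι → F}
    (hv : Set.InjOn v X) (p : ι → P F) (hp : ∀ x ∈ X, ∀ t, degreeOf t (p x) < 2 * A.γ)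
    (l : Fin 2 → F) (hl : ∀ x ∈ X, eval l (p x) = 0) :
    ∃ ζ : Idx k → P F, Small A ζ ∧ (∀ x ∈ X, slot A ζ (v x) = p x) ∧
      ∀ u, eval l (slot A ζ u) = 0 := by
  have hk := A.hk
  choose! H h1 h2 using fun x hx => exists_split A (hp x hx)
  have hs : ∀ u, slot A (∑ x ∈ X, tens (Lagrange.basis X v x) (H x)) u =
      ∑ x ∈ X, C ((Lagrange.basis X v x).eval u) * p x := fun u => by
    rw [slot_sum]
    refine Finset.sum_congr rfl fun x hx => ?_
    rw [slot_tens, h2 x hx]
    rw [Lagrange.natDegree_basis hv hx]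
    omega
  refine ⟨∑ x ∈ X, tens (Lagrange.basis X v x) (H x), fun j t => ?_, fun x hx => ?_, fun u => ?_⟩
  · rw [Finset.sum_apply]
    exact degreeOf_sum_lt _ _ _ (by omega) fun x hx => degreeOf_C_mul_lt _ (h1 x hx _ t)
  · rw [hs, Finset.sum_eq_single x, Lagrange.eval_basis_self hv hx, map_one, one_mul]
    · intro y _ hy
      rw [Lagrange.eval_basis_of_ne hy hx, map_zero, zero_mul]
    · exact fun h => (h hx).elim
  · rw [hs, map_sum]
    exact Finset.sum_eq_zero fun x hx => by rw [map_mul, hl x hx, mul_zero]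

theorem jet_eq_zero {q : Fin 2 → F} {i j : ℕ} {p : P F} (h : (tr q p).totalDegree < i + j) :
    jet q i j p = 0 := by
  rw [jet_apply]
  refine coeff_eq_zero_of_totalDegree_lt (h.trans_le ?_)
  rw [Finset.sum_subset (Finset.subset_univ _) (fun t _ ht => Finsupp.notMem_support_iff.mp ht),
    Fin.sum_univ_two, ex_zero, ex_one]

/-- The direction in which the new tuple is perturbed. -/
theorem exists_dir {ι : Type} [DecidableEq ι] (X : Finset ι) (hX : X.card ≤ k) (v β : ι → F)
    (hv : ∀ x ∈ X, v x ≠ 0) (l : Fin 2 → F) (hl : ∀ x ∈ X, l 1 ≠ β x) :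
    ∃ δ : Idx k → P F, Small A δ ∧ (∀ x ∈ X, slot A δ (v x) = 0) ∧
      (∀ u, (∀ x ∈ X, u ≠ v x) → eval l (slot A δ u) ≠ 0) ∧ JJ A l δ none ≠ 0 ∧
      ∀ x ∈ X, ∀ a b : Fin 2 → F, a 1 = β x → a 1 ≠ b 1 → eval a (key A l b δ) ≠ 0 := by
  have hk := A.hk
  set h : P F := ∏ x ∈ X, (MvPolynomial.X 1 - C (β x)) with hh
  set H : Fin 2 × Fin 2 → P F := fun r => if r = (0, 0) then h else 0 with hH
  have hsum : ∑ r, mu A r * H r = h := by
    rw [Finset.sum_eq_single (0, 0) (fun r _ hr => by simp [hH, hr]) (by simp), mu_zero]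
    simp [hH]
  have hdeg : (Lagrange.nodal X v).natDegree ≤ k := by
    rw [Lagrange.natDegree_nodal]
    exact hX
  have hhl : eval l h ≠ 0 := by
    rw [hh, map_prod]
    exact Finset.prod_ne_zero_iff.mpr fun x hx => by simpa [sub_eq_zero] using hl x hx
  have hnone : JJ A l (tens (Lagrange.nodal X v) H) none ≠ 0 := by
    simp only [JJ, tens, hH, if_pos, map_mul, eval_C, Fin.val_zero]
    refine mul_ne_zero ?_ hhl
    rw [Polynomial.coeff_zero_eq_eval_zero]
    exact Lagrange.eval_nodal_not_at_node fun x hx => (hv x hx).symm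
  have hsome : ∀ y, JJ A l (tens (Lagrange.nodal X v) H) (some y) = 0 := fun y => by
    simp only [JJ]
    rw [Xi_tens, hsum, C_mul', map_smul, jet_eq_zero, smul_zero]
    have := A.e_le y.2
    rw [hh, map_prod]
    refine (totalDegree_finsetProd _ _).trans_lt
      ((Finset.sum_le_card_nsmul _ _ 1 fun x _ => ?_).trans_lt (by rw [smul_eq_mul]; omega))
    simp only [tr, map_sub, aeval_X, aeval_C, algebraMap_eq]
    rw [add_sub_assoc, ← map_sub]
    refine (totalDegree_add _ _).trans ?_
    rw [totalDegree_X, totalDegree_C]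
    simp
  refine ⟨tens (Lagrange.nodal X v) H, fun j t => degreeOf_C_mul_lt _ ?_, fun x hx => ?_,
    fun u hu => ?_, hnone, fun x hx a b ha hab => ?_⟩
  · simp only [hH]
    split_ifs
    · refine (degreeOf_prod_le _ _ _).trans_lt
        ((Finset.sum_le_card_nsmul _ _ 1 fun x _ => ?_).trans_lt (by rw [smul_eq_mul]; omega))
      refine (degreeOf_lin _ _ _).trans ?_
      split_ifs <;> simp
    · rw [degreeOf_zero]
      omega
  · rw [slot_tens hdeg, Lagrange.eval_nodal_at_node hx, map_zero, zero_mul]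
  · rw [slot_tens hdeg, hsum, map_mul, eval_C]
    exact mul_ne_zero (Lagrange.eval_nodal_not_at_node hu) hhl
  · have hha : eval a h = 0 := by
      rw [hh, map_prod]
      exact Finset.prod_eq_zero hx (by simp [ha])
    rw [key, map_add, map_sum, map_sum, Finset.sum_eq_zero, zero_add, Finset.sum_eq_single none,
      map_mul, eval_C, eval_mon, pow_zero, one_mul]
    · exact mul_ne_zero hnone (pow_ne_zero _ (sub_ne_zero.mpr hab))
    · rintro (_ | y) _ hy
      · exact (hy rfl).elim
      · rw [hsome, map_zero, zero_mul, map_zero]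
    · simp
    · intro j _
      simp only [tens, hH, map_mul]
      split_ifs <;> simp [hha]

theorem finite_small [Finite F] (g : ℕ) : Set.Finite {p : P F | ∀ t, degreeOf t p < g} := by
  have : Finite (restrictDegree (Fin 2) F g) := Module.finite_of_finite F
  refine Set.Finite.subset (Set.toFinite (restrictDegree (Fin 2) F g : Set (P F))) ?_
  intro p hp
  simp only [SetLike.mem_coe, mem_restrictDegree]
  exact fun s hs t => (monomial_le_degreeOf t hs).trans (hp t).le

end

end Pool.Agent.Lib.MP_61ca19_lc.KS
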