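import Pool.Agent.Lib.MP_61ca19_lc.LitDefs
import Pool.Agent.Lib.MP_61ca19_lc.KeyGraph

/-! From the extension property to the finite model property. -/

namespace Pool.Agent.Lib.MP_61ca19_lc.Lit

open FirstOrder Language

variable {V W : Type} {G : SimpleGraph V} {H : SimpleGraph W}

/-- The extension property for at most `n` vertices. -/
def Ext (H : SimpleGraph W) (n : ℕ) : Prop :=
  ∀ X Y : Finset W, H.IsIndepSet (X : Set W) → Disjoint X Y → X.card + Y.card ≤ n →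
    ∃ z, z ∉ X ∧ z ∉ Y ∧ (∀ x ∈ X, H.Adj z x) ∧ ∀ y ∈ Y, ¬ H.Adj z y

theorem Ext.mono {n m : ℕ} (h : Ext H n) (hm : m ≤ n) : Ext H m :=
  fun X Y a b c => h X Y a b (c.trans hm)

/-- Two pairs are compatible. -/
def Cmp (G : SimpleGraph V) (H : SimpleGraph W) (p q : V × W) : Prop :=
  (p.1 = q.1 ↔ p.2 = q.2) ∧ (G.Adj p.1 q.1 ↔ H.Adj p.2 q.2)

theorem Cmp.symm {p q : V × W} (h : Cmp G H p q) : Cmp G H q p :=
  ⟨by rw [eq_comm, h.1, eq_comm], by rw [G.adj_comm, h.2, H.adj_comm]⟩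

theorem Cmp.refl (p : V × W) : Cmp G H p p := ⟨by simp, by simp⟩

theorem Cmp.swap {p q : V × W} (h : Cmp G H p q) : Cmp H G p.swap q.swap := ⟨h.1.symm, h.2.symm⟩

theorem no_tri (h : G.CliqueFree 3) {a b c : V} (h1 : G.Adj a b) (h2 : G.Adj a c) :
    ¬ G.Adj b c := fun h3 => by
  classical
  exact h {a, b, c} (SimpleGraph.is3Clique_triple_iff.2 ⟨h1, h2, h3⟩)

theorem of_no_tri (h : ∀ a b c, G.Adj a b → G.Adj a c → ¬ G.Adj b c) : G.CliqueFree 3 := by
  classical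
  intro s hs
  obtain ⟨a, b, c, h1, h2, h3, -⟩ := SimpleGraph.is3Clique_iff.1 hs
  exact h a b c h1 h2 h3

theorem forth {ι : Type} [Fintype ι] (hG : G.CliqueFree 3) (hH : Ext H (Fintype.card ι))
    (s : ι → V × W) (hs : ∀ i j, Cmp G H (s i) (s j)) (v : V) :
    ∃ w, ∀ i, Cmp G H (v, w) (s i) := by
  classical
  by_cases h0 : ∃ i, (s i).1 = v
  · obtain ⟨i, rfl⟩ := h0
    exact ⟨(s i).2, hs i⟩
  let A := Finset.univ.filter fun i => G.Adj v (s i).1
  let B := Finset.univ.filter fun i => ¬ G.Adj v (s i).1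
  obtain ⟨z, z1, z2, z3, z4⟩ := hH (A.image fun i => (s i).2) (B.image fun i => (s i).2)
    (fun a ha b hb _ hab => by
      obtain ⟨i, hi, rfl⟩ := Finset.mem_image.1 ha
      obtain ⟨j, hj, rfl⟩ := Finset.mem_image.1 hb
      exact no_tri hG (Finset.mem_filter.1 hi).2 (Finset.mem_filter.1 hj).2 ((hs i j).2.2 hab))
    (Finset.disjoint_left.2 fun a ha hb => by
      obtain ⟨i, hi, rfl⟩ := Finset.mem_image.1 ha
      obtain ⟨j, hj, e⟩ := Finset.mem_image.1 hb
      exact (Finset.mem_filter.1 hj).2 ((hs j i).1.2 e ▸ (Finset.mem_filter.1 hi).2))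
    ((add_le_add Finset.card_image_le Finset.card_image_le).trans
      (Finset.card_filter_add_card_filter_not _).le)
  refine ⟨z, fun i => ?_⟩
  by_cases hi : G.Adj v (s i).1
  · have h1 := Finset.mem_image_of_mem (fun i => (s i).2) (s := A)
      (Finset.mem_filter.2 ⟨Finset.mem_univ i, hi⟩)
    exact ⟨iff_of_false (fun e => h0 ⟨i, e.symm⟩) fun e => z1 (by rw [show z = _ from e]; exact h1),
      iff_of_true hi (z3 _ h1)⟩
  · have h1 := Finset.mem_image_of_mem (fun i => (s i).2) (s := B)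
      (Finset.mem_filter.2 ⟨Finset.mem_univ i, hi⟩)
    exact ⟨iff_of_false (fun e => h0 ⟨i, e.symm⟩) fun e => z2 (by rw [show z = _ from e]; exact h1),
      iff_of_false hi (z4 _ h1)⟩

theorem cmp_snoc {k : ℕ} {a : Fin k → V} {b : Fin k → W}
    (hs : ∀ i j, Cmp G H (a i, b i) (a j, b j)) {v : V} {w : W}
    (h : ∀ i, Cmp G H (v, w) (a i, b i)) (i j : Fin (k + 1)) :
    Cmp G H ((Fin.snoc a v : Fin (k + 1) → V) i, (Fin.snoc b w : Fin (k + 1) → W) i)
      ((Fin.snoc a v : Fin (k + 1) → V) j, (Fin.snoc b w : Fin (k + 1) → W) j) := by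
  refine Fin.lastCases ?_ (fun i => ?_) i <;> refine Fin.lastCases ?_ (fun j => ?_) j <;>
    simp only [Fin.snoc_last, Fin.snoc_castSucc]
  exacts [Cmp.refl _, h j, (h i).symm, hs i j]

theorem term_var {k : ℕ} (t : Language.graph.Term (Empty ⊕ Fin k)) :
    ∃ i, t = Term.var (Sum.inr i) := by
  rcases t with (e | i) | f
  · exact e.elim
  · exact ⟨i, rfl⟩
  · exact f.elim

theorem transfer {k : ℕ} (φ : Language.graph.BoundedFormula Empty k) : ∃ n : ℕ,
    ∀ {V W : Type} (G : SimpleGraph V) (H : SimpleGraph W), G.CliqueFree 3 → H.CliqueFree 3 →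
      Ext G n → Ext H n → ∀ (a : Fin k → V) (b : Fin k → W),
        (∀ i j, Cmp G H (a i, b i) (a j, b j)) →
        (@BoundedFormula.Realize _ V G.structure _ _ φ default a ↔
          @BoundedFormula.Realize _ W H.structure _ _ φ default b) := by
  induction φ with
  | falsum => exact ⟨0, fun _ _ _ _ _ _ _ _ _ => Iff.rfl⟩
  | equal t u =>
    obtain ⟨i, rfl⟩ := term_var t
    obtain ⟨j, rfl⟩ := term_var u
    exact ⟨0, fun _ _ _ _ _ _ _ _ h => (h i j).1⟩
  | rel R ts =>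
    obtain ⟨⟩ := R
    obtain ⟨i, hi⟩ := term_var (ts 0)
    obtain ⟨j, hj⟩ := term_var (ts 1)
    refine ⟨0, fun G H _ _ _ _ a b h => ?_⟩
    change G.Adj (@Term.realize _ _ G.structure _ _ (ts 0)) (@Term.realize _ _ G.structure _ _ (ts 1))
      ↔ H.Adj (@Term.realize _ _ H.structure _ _ (ts 0)) (@Term.realize _ _ H.structure _ _ (ts 1))
    rw [hi, hj]
    exact (h i j).2
  | imp φ ψ h1 h2 =>
    obtain ⟨n, h1⟩ := h1
    obtain ⟨m, h2⟩ := h2
    exact ⟨max n m, fun G H g3 h3 eG eH a b h => imp_congr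
      (h1 G H g3 h3 (eG.mono (le_max_left _ _)) (eH.mono (le_max_left _ _)) a b h)
      (h2 G H g3 h3 (eG.mono (le_max_right _ _)) (eH.mono (le_max_right _ _)) a b h)⟩
  | @all k φ h1 =>
    obtain ⟨n, h1⟩ := h1
    refine ⟨max n k, fun G H g3 h3 eG eH a b h => ⟨fun x w => ?_, fun x v => ?_⟩⟩
    · obtain ⟨v, hv⟩ := forth h3 (eG.mono (by simp)) (fun i => (b i, a i))
        (fun i j => (h i j).swap) w
      exact (h1 G H g3 h3 (eG.mono (le_max_left _ _)) (eH.mono (le_max_left _ _)) _ _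
        (cmp_snoc h fun i => (hv i).swap)).1 (x v)
    · obtain ⟨w, hw⟩ := forth g3 (eH.mono (by simp)) (fun i => (a i, b i)) h v
      exact (h1 G H g3 h3 (eG.mono (le_max_left _ _)) (eH.mono (le_max_left _ _)) _ _
        (cmp_snoc h hw)).2 (x w)

/-- The generic graph has the extension property. -/
theorem Generic.ext (h : Generic H) (n : ℕ) : Ext H n := by
  classical
  obtain ⟨hc, h3, hh, hu⟩ := h
  intro X Y hX hXY _
  let S : Set W := (X ∪ Y : Finset W)
  let K : SimpleGraph (Option S) :=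
    { Adj := fun p q => match p, q with
        | none, none => False
        | none, some b => b.1 ∈ X
        | some a, none => a.1 ∈ X
        | some a, some b => H.Adj a.1 b.1
      symm := ⟨by rintro (_ | a) (_ | b) h; exacts [h, h, h, H.symm.symm _ _ h]⟩
      loopless := ⟨by rintro (_ | a) h; exacts [h, H.loopless.irrefl _ h]⟩ }
  obtain ⟨j⟩ := hu (Option S) K (of_no_tri (by
    rintro (_ | a) (_ | b) (_ | c) h1 h2 h4
    exacts [h1, h1, h2, hX h1 h2 (H.ne_of_adj h4) h4, h4, hX h1 h4 (H.ne_of_adj h2) h2,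
      hX h2 h4 (H.ne_of_adj h1) h1, no_tri h3 h1 h2 h4]))
  have hi : Function.Injective fun a : S => j (some a) :=
    j.injective.comp (Option.some_injective _)
  obtain ⟨σ, hσ⟩ := hh (Set.range fun a : S => j (some a)) S (Set.finite_range _)
    (Finset.finite_toSet _)
    { toEquiv := (Equiv.ofInjective _ hi).symm
      map_rel_iff' := by
        rintro ⟨_, a, rfl⟩ ⟨_, b, rfl⟩
        simp only [Equiv.ofInjective_symm_apply, SimpleGraph.comap_adj,
          Function.Embedding.subtype_apply, SimpleGraph.Embedding.map_adj_iff]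
        rfl }
  have h1 : ∀ a : S, σ (j (some a)) = a := fun a =>
    (hσ ⟨_, a, rfl⟩).trans (congrArg Subtype.val (Equiv.ofInjective_symm_apply hi a))
  have h2 : ∀ a : S, σ (j none) ≠ a := fun a e => by
    rw [← h1] at e
    cases j.injective (σ.injective e)
  have h4 : ∀ a : S, H.Adj (σ (j none)) a ↔ a.1 ∈ X := fun a => by
    rw [← h1 a, σ.map_adj_iff, j.map_adj_iff, h1 a]
  have mX : ∀ x ∈ X, x ∈ S := fun x hx => Finset.mem_union_left _ hx
  have mY : ∀ x ∈ Y, x ∈ S := fun x hx => Finset.mem_union_right _ hx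
  exact ⟨σ (j none), fun hz => h2 ⟨_, mX _ hz⟩ rfl, fun hz => h2 ⟨_, mY _ hz⟩ rfl,
    fun x hx => (h4 ⟨x, mX x hx⟩).2 hx,
    fun y hy e => Finset.disjoint_left.1 hXY ((h4 ⟨y, mY y hy⟩).1 e) hy⟩

/-- The finite model property. -/
theorem Generic.fmp (h : Generic H) (φ : Language.graph.Sentence) (hφ : Models H φ) :
    ∃ (N : ℕ) (G : SimpleGraph (Fin N)), 0 < N ∧ G.CliqueFree 3 ∧ Models G φ := by
  classical
  obtain ⟨n, hn⟩ := transfer φ
  obtain ⟨V, hV, G, h3, hG⟩ := KS.exists_graph n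
  obtain ⟨N, ⟨e⟩⟩ := Finite.exists_equiv_fin V
  have g3 : (G.comap e.symm).CliqueFree 3 :=
    h3.comap (SimpleGraph.Embedding.comap e.symm.toEmbedding G).isContained
  have gE : Ext (G.comap e.symm) n := fun X Y hX hXY hc => by
    obtain ⟨z, h1, h2, h4, h5⟩ := hG (X.map e.symm.toEmbedding) (Y.map e.symm.toEmbedding)
      (fun a ha b hb hab => by
        obtain ⟨x, hx, rfl⟩ := Finset.mem_map.mp ha
        obtain ⟨y, hy, rfl⟩ := Finset.mem_map.mp hb
        exact hX hx hy fun e => hab (by rw [e]))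
      ((Finset.disjoint_map _).mpr hXY) (by rwa [Finset.card_map, Finset.card_map])
    refine ⟨e z, fun hz => h1 (Finset.mem_map.mpr ⟨_, hz, by simp⟩),
      fun hz => h2 (Finset.mem_map.mpr ⟨_, hz, by simp⟩), fun x hx => ?_, fun y hy => ?_⟩
    · simpa using h4 _ (Finset.mem_map_of_mem _ hx)
    · simpa using h5 _ (Finset.mem_map_of_mem _ hy)
  obtain ⟨z, -⟩ := gE ∅ ∅ (by simp) (by simp) (by simp)
  exact ⟨N, G.comap e.symm, z.pos, g3,
    (hn H _ h.2.1 g3 (h.ext n) gE default default fun i => i.elim0).1 hφ⟩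

/-- A chain of finite compatible sets that meets countably many requirements. -/
theorem chain {α ι : Type} [Countable ι] {C : α → α → Prop} {Q : ι → α → Prop} (s : Finset α)
    (hs : ∀ p ∈ s, ∀ q ∈ s, C p q) (hr : ∀ p, C p p) (hc : ∀ p q, C p q → C q p)
    (h : ∀ t : Finset α, (∀ p ∈ t, ∀ q ∈ t, C p q) → ∀ i, ∃ p, Q i p ∧ ∀ q ∈ t, C p q) :
    ∃ R : Set α, ↑s ⊆ R ∧ (∀ p ∈ R, ∀ q ∈ R, C p q) ∧ ∀ i, ∃ p ∈ R, Q i p := by
  classical
  obtain ⟨e, he⟩ := exists_surjective_nat (Option ι)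
  have step : ∀ (t : {t : Finset α // ∀ p ∈ t, ∀ q ∈ t, C p q}) (o : Option ι),
      ∃ u : {t : Finset α // ∀ p ∈ t, ∀ q ∈ t, C p q}, t.1 ⊆ u.1 ∧
        ∀ i, o = some i → ∃ p ∈ u.1, Q i p := by
    rintro t (_ | i)
    · exact ⟨t, subset_rfl, fun _ e => by cases e⟩
    · obtain ⟨p, h1, h2⟩ := h t.1 t.2 i
      refine ⟨⟨insert p t.1, fun a ha b hb => ?_⟩, Finset.subset_insert _ _, fun j e => ?_⟩
      · rcases Finset.mem_insert.1 ha with x | x <;> rcases Finset.mem_insert.1 hb with y | y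
        exacts [x ▸ y ▸ hr _, x ▸ h2 _ y, y ▸ hc _ _ (h2 _ x), t.2 _ x _ y]
      · cases e
        exact ⟨p, Finset.mem_insert_self _ _, h1⟩
  choose F F1 F2 using step
  let T : ℕ → {t : Finset α // ∀ p ∈ t, ∀ q ∈ t, C p q} := fun n =>
    Nat.rec ⟨s, hs⟩ (fun n t => F t (e n)) n
  have hm : Monotone fun n => (T n).1 := monotone_nat_of_le_succ fun n => F1 _ _
  refine ⟨{p | ∃ n, p ∈ (T n).1}, fun p hp => ⟨0, hp⟩, ?_, fun i => ?_⟩
  · rintro p ⟨n, hn⟩ q ⟨m, hm'⟩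
    exact (T (max n m)).2 p (hm (le_max_left _ _) hn) q (hm (le_max_right _ _) hm')
  · obtain ⟨n, hn⟩ := he (some i)
    obtain ⟨p, h1, h2⟩ := F2 (T n) (e n) i hn
    exact ⟨p, ⟨n + 1, h1⟩, h2⟩

theorem forth' (hG : G.CliqueFree 3) (hH : ∀ n, Ext H n) (t : Finset (V × W))
    (ht : ∀ p ∈ t, ∀ q ∈ t, Cmp G H p q) (v : V) : ∃ w, ∀ q ∈ t, Cmp G H (v, w) q := by
  obtain ⟨w, hw⟩ := forth hG (hH _) (fun p : t => p.1) (fun p q => ht _ p.2 _ q.2) v
  exact ⟨w, fun q hq => hw ⟨q, hq⟩⟩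

theorem universal_of_ext (hH : ∀ n, Ext H n) : Universal H := by
  intro V _ G hG
  obtain ⟨R, -, h1, h2⟩ := chain (C := Cmp G H) (Q := fun (v : V) p => p.1 = v) ∅ (by simp)
    Cmp.refl (fun _ _ => Cmp.symm) fun t ht v =>
      let ⟨w, hw⟩ := forth' hG hH t ht v
      ⟨(v, w), rfl, hw⟩
  choose P P1 P2 using h2
  refine ⟨⟨⟨fun v => (P v).2, fun a b e => ?_⟩, fun {a b} => ?_⟩⟩
  · rw [← P2 a, ← P2 b]
    exact (h1 _ (P1 a) _ (P1 b)).1.2 e
  · have := (h1 _ (P1 a) _ (P1 b)).2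
    rw [P2, P2] at this
    exact this.symm

theorem homogeneous_of_ext [Countable W] (h3 : H.CliqueFree 3) (hH : ∀ n, Ext H n) :
    Homogeneous H := by
  classical
  intro A B hA _ e
  have := hA.fintype
  obtain ⟨R, h0, h1, h2⟩ := chain (C := Cmp H H)
    (Q := fun (v : W ⊕ W) p => v.elim (p.1 = ·) (p.2 = ·))
    (Finset.univ.image fun a : A => ((a : W), (e a : W)))
    (fun p hp q hq => by
      obtain ⟨a, -, rfl⟩ := Finset.mem_image.1 hp
      obtain ⟨b, -, rfl⟩ := Finset.mem_image.1 hq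
      exact ⟨by simp only [Subtype.val_inj, e.injective.eq_iff], (e.map_adj_iff (v := a)).symm⟩)
    Cmp.refl (fun _ _ => Cmp.symm) (by
      rintro t ht (v | w)
      · obtain ⟨w, hw⟩ := forth' h3 hH t ht v
        exact ⟨(v, w), rfl, hw⟩
      · obtain ⟨v, hv⟩ := forth' h3 hH (t.image Prod.swap) (fun p hp q hq => by
          obtain ⟨a, ha, rfl⟩ := Finset.mem_image.1 hp
          obtain ⟨b, hb, rfl⟩ := Finset.mem_image.1 hq
          exact (ht a ha b hb).swap) w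
        exact ⟨(v, w), rfl, fun q hq => (hv _ (Finset.mem_image_of_mem _ hq)).swap⟩)
  choose P P1 P2 using fun v => h2 (Sum.inl v)
  have P3 : ∀ v, (P v).1 = v := P2
  have hb : Function.Bijective fun v => (P v).2 := ⟨fun a b e => by
      rw [← P3 a, ← P3 b]
      exact (h1 _ (P1 a) _ (P1 b)).1.2 e, fun w => by
      obtain ⟨p, p1, p2⟩ := h2 (Sum.inr w)
      exact ⟨p.1, ((h1 _ (P1 _) _ p1).1.1 (P3 _)).trans p2⟩⟩
  refine ⟨⟨Equiv.ofBijective _ hb, fun {a b} => ?_⟩, fun a => ?_⟩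
  · have := (h1 _ (P1 a) _ (P1 b)).2
    rw [P3, P3] at this
    exact this.symm
  · exact (h1 _ (P1 a) _ (h0 (Finset.mem_image_of_mem _ (Finset.mem_univ a)))).1.1 (P3 _)

/-- The smaller neighbours of `n`. -/
def low (S : ℕ → Finset ℕ) (n : ℕ) : Set ℕ :=
  {m | m < n ∧ m ∈ S n ∧ ∀ a ∈ S n, ∀ b ∈ S n, (_ : b < n) → a ∉ low S b}

theorem mem_low {S : ℕ → Finset ℕ} {m n : ℕ} : m ∈ low S n ↔
    m < n ∧ m ∈ S n ∧ ∀ a ∈ S n, ∀ b ∈ S n, b < n → a ∉ low S b := by
  rw [low]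
  rfl

theorem exists_generic : ∃ H : SimpleGraph ℕ, Generic H := by
  classical
  obtain ⟨e, he⟩ := exists_surjective_nat (Finset ℕ)
  let S : ℕ → Finset ℕ := fun n => e n.unpair.1
  let H : SimpleGraph ℕ :=
    { Adj := fun a b => a ∈ low S b ∨ b ∈ low S a
      symm := ⟨fun _ _ h => h.symm⟩
      loopless := ⟨fun a h => lt_irrefl a (mem_low.1 (or_self_iff.1 h)).1⟩ }
  have key : ∀ a b c, a ∈ low S c → b ∈ low S c → a ∉ low S b := fun a b c h1 h2 =>
    (mem_low.1 h1).2.2 a (mem_low.1 h1).2.1 b (mem_low.1 h2).2.1 (mem_low.1 h2).1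
  have lt : ∀ {a b}, a ∈ low S b → a < b := fun h => (mem_low.1 h).1
  have h3 : H.CliqueFree 3 := of_no_tri (by
    rintro a b c (h1 | h1) (h2 | h2) (h4 | h4)
    exacts [key _ _ _ h2 h4 h1, key _ _ _ h1 h4 h2, lt_asymm ((lt h1).trans (lt h4)) (lt h2),
      key _ _ _ h4 h1 h2, key _ _ _ h4 h2 h1, lt_asymm ((lt h2).trans (lt h4)) (lt h1),
      key _ _ _ h1 h2 h4, key _ _ _ h2 h1 h4])
  have hE : ∀ n, Ext H n := fun n X Y hX hXY _ => by
    obtain ⟨i, hi⟩ := he X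
    let z := Nat.pair i ((X ∪ Y).sup id + 1)
    have z1 : ∀ a ∈ X ∪ Y, a < z := fun a ha =>
      (Nat.lt_succ_of_le (Finset.le_sup (f := id) ha)).trans_le (Nat.right_le_pair _ _)
    have z2 : S z = X := by simp only [S, z, Nat.unpair_pair, hi]
    refine ⟨z, fun h => lt_irrefl _ (z1 _ (Finset.mem_union_left _ h)),
      fun h => lt_irrefl _ (z1 _ (Finset.mem_union_right _ h)),
      fun x hx => Or.inr (mem_low.2 ⟨z1 _ (Finset.mem_union_left _ hx), z2 ▸ hx, ?_⟩), ?_⟩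
    · rw [z2]
      exact fun a ha b hb _ h => hX ha hb (lt h).ne (Or.inl h)
    · rintro y hy (h | h)
      · exact (lt h).not_gt (z1 _ (Finset.mem_union_right _ hy))
      · exact Finset.disjoint_left.1 hXY (z2 ▸ (mem_low.1 h).2.1) hy
  exact ⟨H, inferInstance, h3, homogeneous_of_ext h3 hE, universal_of_ext hE⟩

end Pool.Agent.Lib.MP_61ca19_lc.Lit
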