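import Mathlib

/-! The generic triangle-free graph and truth of first-order sentences in graphs. -/

namespace Pool.Agent.Lib.MP_61ca19_lc.Lit

open FirstOrder

/-- Every isomorphism between finite induced subgraphs extends to an automorphism. -/
def Homogeneous {V : Type} (H : SimpleGraph V) : Prop :=
  ∀ (A B : Set V), A.Finite → B.Finite → ∀ e : H.induce A ≃g H.induce B,
    ∃ σ : H ≃g H, ∀ a : A, σ a = e a

/-- Every countable triangle-free graph embeds as an induced subgraph. -/
def Universal {V : Type} (H : SimpleGraph V) : Prop :=
  ∀ (W : Type) [Countable W] (G : SimpleGraph W), G.CliqueFree 3 → Nonempty (G ↪g H)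

/-- `H` is the generic triangle-free graph: countable, triangle-free, homogeneous, universal. -/
def Generic {V : Type} (H : SimpleGraph V) : Prop :=
  Countable V ∧ H.CliqueFree 3 ∧ Homogeneous H ∧ Universal H

/-- The sentence `φ` of the language of graphs is true in the graph `G`. -/
def Models {V : Type} (G : SimpleGraph V) (φ : Language.graph.Sentence) : Prop :=
  @Language.Sentence.Realize Language.graph V G.structure φ

end Pool.Agent.Lib.MP_61ca19_lc.Lit
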