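import Pool.Agent.Lib.MP_61ca19_lc.Prob

/-!
# The graph
-/

set_option autoImplicit false

namespace Pool.Agent.Lib.MP_61ca19_lc

open Finset Polynomial

theorem num_gen {q D : ℕ} (hD : 840 ≤ D) (hq : 5120 ≤ q) :
    20 * ((4 * q ^ (2 * D + 306)) ^ 4 * q ^ 454) ≤ q ^ (10 * D) := by
  have key : ∀ a b : ℕ, 1 + (a * 4 + b) ≤ 10 * D →
      20 * ((4 * q ^ a) ^ 4 * q ^ b) ≤ q ^ (10 * D) := by
    intro a b h
    calc 20 * ((4 * q ^ a) ^ 4 * q ^ b) = 5120 * q ^ (a * 4 + b) := by ring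
      _ ≤ q * q ^ (a * 4 + b) := Nat.mul_le_mul_right _ hq
      _ = q ^ (1 + (a * 4 + b)) := by ring
      _ ≤ _ := Nat.pow_le_pow_right (le_trans (by norm_num) hq) h
  exact key _ _ (by linarith)

theorem num_hit {q D m : ℕ} (hq : (77 * D + 1) * (3 + m) + 8 ≤ q) :
    ((2 * (4 * ((4 * q ^ (77 * D) + 1) ^ 3 * (4 * q ^ (77 * D) + 1) ^ m)) : ℕ) : ℝ) ≤
      Real.exp ((q : ℝ) ^ 3 / 8) := by
  have h8 : 8 ≤ q := le_trans (Nat.le_add_left _ _) hq
  have h1 : 4 * q ^ (77 * D) + 1 ≤ q ^ (77 * D + 1) := by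
    have : 1 ≤ q ^ (77 * D) := Nat.one_le_pow _ _ (by omega)
    rw [pow_succ]
    nlinarith
  have h2 : 2 * (4 * ((4 * q ^ (77 * D) + 1) ^ 3 * (4 * q ^ (77 * D) + 1) ^ m)) ≤ q ^ q := by
    rw [← pow_add, ← mul_assoc]
    refine (Nat.mul_le_mul h8 (Nat.pow_le_pow_left h1 _)).trans ?_
    rw [← pow_mul, ← pow_succ']
    exact Nat.pow_le_pow_right (by omega) (by omega)
  refine (Nat.cast_le.2 h2).trans ?_
  have h3 : (8 : ℝ) ≤ q := by exact_mod_cast h8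
  rw [Nat.cast_pow]
  refine (pow_le_pow_left₀ (by positivity) ((le_add_of_nonneg_right zero_le_one).trans
    (Real.add_one_le_exp (q : ℝ))) q).trans ?_
  rw [← Real.exp_nat_mul]
  exact Real.exp_le_exp.2 (by nlinarith [mul_nonneg (mul_self_nonneg (q : ℝ)) (sub_nonneg.2 h3)])

variable {F κ : Type} [Field F] [Fintype κ] [DecidableEq κ] [CharP F 2] [Fintype F]

theorem Setup.exists_omega (T : Setup F κ) (m : ℕ) (hD : 840 ≤ Fintype.card κ)
    (hq : (77 * Fintype.card κ + 1) * (3 + m) + 5120 ≤ Fintype.card F) :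
    ∃ (N : ℕ) (ω : (Bool × Bool) × Fin N → Amb F κ), (T.Gen fun v => (v.1, ω v)) ∧
      ∀ (p : Bool × Bool) (a : Fin 3 → Option (Pt F κ)) (b : Fin m → Option (Pt F κ)),
        (Fintype.card (Par F κ) : ℝ) ≤ 8 * (Fintype.card F : ℝ) ^ 303 *
          (T.Good p {x | ∃ j, a j = some x} {x | ∃ j, b j = some x}).card →
        ∃ n, ω (p, n) ∈ T.Good p {x | ∃ j, a j = some x} {x | ∃ j, b j = some x} := by
  obtain ⟨N, hN⟩ : ∃ N, N = Fintype.card F ^ (2 * Fintype.card κ + 306) := ⟨_, rfl⟩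
  have hQ : (0 : ℝ) < Fintype.card F := by exact_mod_cast Fintype.card_pos
  have : Nonempty (Fin N) := ⟨⟨0, hN ▸ pow_pos Fintype.card_pos _⟩⟩
  obtain ⟨δ, hδ⟩ : ∃ δ : ℝ, δ = 1 / (8 * (Fintype.card F : ℝ) ^ (2 * Fintype.card κ + 303)) :=
    ⟨_, rfl⟩
  have h1 := T.not_gen_le (V := (Bool × Bool) × Fin N) Prod.fst
  have h2 := union_le (fun (i : (Bool × Bool) × (Fin 3 → Option (Pt F κ)) ×
      (Fin m → Option (Pt F κ))) (ω : (Bool × Bool) × Fin N → Amb F κ) =>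
      δ * Fintype.card (Amb F κ) ≤
        (T.Good i.1 {x | ∃ j, i.2.1 j = some x} {x | ∃ j, i.2.2 j = some x}).card ∧
      ∀ n, ω (i.1, n) ∉ T.Good i.1 {x | ∃ j, i.2.1 j = some x} {x | ∃ j, i.2.2 j = some x})
    fun i => miss_le N i.1 _ δ
  have c1 : Fintype.card ((Bool × Bool) × Fin N) = 4 * N := by simp
  have c2 : Fintype.card (Option (Pt F κ)) = 4 * Fintype.card F ^ (77 * Fintype.card κ) + 1 := by
    rw [Fintype.card_option, Fintype.card_prod, card_Amb]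
    simp
  have c3 : Fintype.card ((Bool × Bool) × (Fin 3 → Option (Pt F κ)) × (Fin m → Option (Pt F κ))) =
      4 * ((4 * Fintype.card F ^ (77 * Fintype.card κ) + 1) ^ 3 *
        (4 * Fintype.card F ^ (77 * Fintype.card κ) + 1) ^ m) := by
    rw [Fintype.card_prod, Fintype.card_prod (Fin 3 → _), Fintype.card_fun (α := Fin 3),
      Fintype.card_fun (α := Fin m), c2, Fintype.card_fin, Fintype.card_fin]
    rfl
  rw [c3] at h2
  rw [c1] at h1
  have n1 := (Nat.cast_le (α := ℝ)).2 (num_gen hD (le_trans (Nat.le_add_left _ _) hq))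
  have n2 := num_hit (m := m) (D := Fintype.card κ) (q := Fintype.card F) (by omega)
  rw [← hN, Nat.cast_mul, Nat.cast_pow (Fintype.card F) (10 * _)] at n1
  have e1 : δ * N = (Fintype.card F : ℝ) ^ 3 / 8 := by
    rw [hδ, hN, Nat.cast_pow, show 2 * Fintype.card κ + 306 = 2 * Fintype.card κ + 303 + 3 from rfl,
      pow_add _ (2 * Fintype.card κ + 303) 3]
    generalize 2 * Fintype.card κ + 303 = n
    field_simp
  have e2 : δ * Fintype.card (Amb F κ) =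
      Fintype.card (Par F κ) / (8 * (Fintype.card F : ℝ) ^ 303) := by
    rw [hδ, card_Amb, card_Par, show 77 * Fintype.card κ = 2 * Fintype.card κ + 75 * Fintype.card κ
      by ring, pow_add, pow_add, Nat.cast_mul, Nat.cast_pow]
    have : (0 : ℝ) < (Fintype.card F : ℝ) ^ 303 := pow_pos hQ _
    generalize (Fintype.card F : ℝ) ^ 303 = u at *
    field_simp
  rw [Nat.cast_mul, ← e1] at n2
  have hΩ : (0 : ℝ) < Fintype.card ((Bool × Bool) × Fin N → Amb F κ) := by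
    exact_mod_cast Fintype.card_pos
  obtain ⟨ω, k1, k2⟩ := exists_avoid ((add_le_add h1 h2).trans_lt (by
    have hE : 0 < (Fintype.card F : ℝ) ^ (10 * Fintype.card κ) := pow_pos hQ _
    rw [Real.exp_neg]
    have hX := Real.exp_pos (δ * N)
    generalize Real.exp (δ * N) = x at *
    generalize (Fintype.card F : ℝ) ^ (10 * Fintype.card κ) = E at *
    generalize (Fintype.card ((Bool × Bool) × Fin N → Amb F κ) : ℝ) = W at *
    generalize (((4 * N) ^ 4 * Fintype.card F ^ 454 : ℕ) : ℝ) = u at *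
    generalize ((4 * ((4 * Fintype.card F ^ (77 * Fintype.card κ) + 1) ^ 3 *
      (4 * Fintype.card F ^ (77 * Fintype.card κ) + 1) ^ m) : ℕ) : ℝ) = v at *
    have a1 : u * (W / E) ≤ W / 20 := by
      rw [← mul_div_assoc, div_le_div_iff₀ hE (by norm_num)]
      push_cast at n1
      nlinarith
    have a2 : v * (x⁻¹ * W) ≤ W / 2 := by
      rw [← div_eq_inv_mul, ← mul_div_assoc, div_le_div_iff₀ hX (by norm_num)]
      push_cast at n2
      nlinarith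
    linarith))
  refine ⟨N, ω, not_not.1 k1, fun p a b h => ?_⟩
  by_contra hc
  refine k2 ⟨(p, a, b), ?_, fun n hn => hc ⟨n, hn⟩⟩
  rw [e2, div_le_iff₀' (mul_pos (by norm_num) (pow_pos hQ _))]
  exact h

theorem exists_setup (F : Type) [Field F] [CharP F 2] [Finite F] (D : ℕ) :
    Nonempty (Setup F (Fin 3 ⊕ Fin D)) := by
  obtain ⟨τ, h1, h2⟩ := exists_tau F
  obtain ⟨ε, hε⟩ := DFunLike.ne_iff.1 h2
  refine ⟨⟨τ, h1, ε, z2_eq_one hε, fun b => Sum.elim (bif b then ![ε, 0, ε] else ![1, 1, 0]) 0,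
    ?_⟩⟩
  rintro (_ | _) (_ | _) <;>
    simp [Fin.sum_univ_three, CharTwo.add_self_eq_zero, z2_eq_one hε]

theorem exists_graph (m : ℕ) : ∃ (V : Type) (_ : Fintype V) (G : SimpleGraph V),
    (∀ u v w, G.Adj u v → G.Adj u w → G.Adj v w → False) ∧
      ∀ A B : Finset V, (∀ x ∈ A, ∀ x' ∈ A, x ≠ x' → ¬ G.Adj x x') → Disjoint A B →
        A.card ≤ 3 → B.card ≤ m →
          ∃ z, z ∉ B ∧ (∀ x ∈ A, G.Adj z x) ∧ ∀ y ∈ B, ¬ G.Adj z y := by
  obtain ⟨q₀, hq₀⟩ := places 100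
  obtain ⟨D, hD⟩ : ∃ D, 840 ≤ D := ⟨_, le_rfl⟩
  obtain ⟨e, he⟩ : ∃ e, e = q₀ + (77 * (3 + D) + 1) * (3 + m) + 400 * m + 5120 := ⟨_, rfl⟩
  let F := GaloisField 2 e
  let _ : Fintype F := Fintype.ofFinite F
  have hF : e ≤ Fintype.card F := by
    rw [← Nat.card_eq_fintype_card, GaloisField.card 2 e (by omega)]
    exact Nat.lt_two_pow_self.le
  obtain ⟨T⟩ := exists_setup F D
  have hκ : Fintype.card (Fin 3 ⊕ Fin D) = 3 + D := by simp
  obtain ⟨N, ω, hG, hω⟩ := T.exists_omega m (by omega) (by rw [hκ]; omega)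
  refine ⟨(Bool × Bool) × Fin N, inferInstance,
    ⟨fun v w => T.Adj (v.1, ω v) (w.1, ω w), ⟨fun _ _ h => h.symm⟩, ⟨fun _ h => h.ne rfl⟩⟩,
    fun _ _ _ => T.no_triangle, fun A B h1 h2 h3 h4 => ?_⟩
  obtain ⟨p, hp⟩ := T.dens hG h3 h4 h2 h1 (by omega) (by
    have h5 : 8 * (m + 1) * Fintype.card F ^ 354 ≤ Fintype.card F ^ (3 + D) :=
      (Nat.mul_le_mul_right _ (by omega : _ ≤ Fintype.card F)).trans
        ((pow_succ' _ _).symm.le.trans (Nat.pow_le_pow_right (by omega) (by omega)))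
    rw [hκ]
    exact_mod_cast h5) (hq₀ F T.τ T.inv T.tau_ne (by omega))
  have key : ∀ {k : ℕ} {S : Finset ((Bool × Bool) × Fin N)}, S.card ≤ k →
      ∃ a : Fin k → Option (Pt F (Fin 3 ⊕ Fin D)),
        (fun v => (v.1, ω v)) '' (S : Set ((Bool × Bool) × Fin N)) = {x | ∃ j, a j = some x} := by
    intro k S hS
    obtain ⟨f, hf⟩ := exists_enum hS
    refine ⟨fun j => (f j).map fun v => (v.1, ω v), Set.ext fun x => ?_⟩
    simp only [Set.mem_image, Finset.mem_coe, hf, Set.mem_setOf_eq, Option.map_eq_some_iff]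
    exact ⟨fun ⟨v, ⟨j, h⟩, h'⟩ => ⟨j, v, h, h'⟩, fun ⟨j, v, h, h'⟩ => ⟨v, ⟨j, h⟩, h'⟩⟩
  obtain ⟨a, ha⟩ := key h3
  obtain ⟨b, hb⟩ := key h4
  obtain ⟨n, hn⟩ := hω p a b (ha ▸ hb ▸ hp)
  rw [← ha, ← hb] at hn
  obtain ⟨k1, k2⟩ := T.mem_Good.1 hn
  exact ⟨(p, n), fun h => (k2 _ ⟨_, h, rfl⟩).2 rfl, fun x hx => k1 _ ⟨x, hx, rfl⟩,
    fun y hy => (k2 _ ⟨y, hy, rfl⟩).1⟩

end Pool.Agent.Lib.MP_61ca19_lc
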