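import Pool.Agent.Lib.MP_61ca19_lc.Dens

/-!
# Choice of the part and of the place
-/

set_option autoImplicit false

namespace Pool.Agent.Lib.MP_61ca19_lc

open Finset Polynomial

theorem split_sides {V : Type} (f : V → Bool) {A : Finset V} (hA : A.card ≤ 3)
    (h : ∀ s, ∃ x ∈ A, f x = s) : ∃ a ∈ A, (∀ x ∈ A, f x = f a → x = a) ∧
      ∃ b₁ ∈ A, ∃ b₂ ∈ A, f b₁ ≠ f a ∧ f b₂ ≠ f a ∧ ∀ x ∈ A, f x ≠ f a → x = b₁ ∨ x = b₂ := by
  classical
  have key : ∀ s, (A.filter fun x => f x = s).card ≤ (A.filter fun x => ¬ f x = s).card →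
      ∃ a ∈ A, (∀ x ∈ A, f x = f a → x = a) ∧
      ∃ b₁ ∈ A, ∃ b₂ ∈ A, f b₁ ≠ f a ∧ f b₂ ≠ f a ∧ ∀ x ∈ A, f x ≠ f a → x = b₁ ∨ x = b₂ := by
    intro s hs
    have h1 := Finset.card_filter_add_card_filter_not (s := A) fun x => f x = s
    obtain ⟨a, ha, rfl⟩ := h s
    have h2 : 0 < (A.filter fun x => f x = f a).card :=
      Finset.card_pos.2 ⟨a, Finset.mem_filter.2 ⟨ha, rfl⟩⟩
    refine ⟨a, ha, fun x hx e => Finset.card_le_one.1 (by omega :
      (A.filter fun x => f x = f a).card ≤ 1) _ (Finset.mem_filter.2 ⟨hx, e⟩) _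
        (Finset.mem_filter.2 ⟨ha, rfl⟩), ?_⟩
    have h3 : ∀ {b₁ b₂ : V}, (A.filter fun x => ¬ f x = f a) = {b₁, b₂} → ∃ b₁ ∈ A, ∃ b₂ ∈ A,
        f b₁ ≠ f a ∧ f b₂ ≠ f a ∧ ∀ x ∈ A, f x ≠ f a → x = b₁ ∨ x = b₂ := by
      intro b₁ b₂ e
      have k1 := Finset.mem_filter.1 (e ▸ Finset.mem_insert_self b₁ {b₂})
      have k2 := Finset.mem_filter.1
        (e ▸ Finset.mem_insert_of_mem (b := b₁) (Finset.mem_singleton_self b₂))
      refine ⟨b₁, k1.1, b₂, k2.1, k1.2, k2.2, fun x hx hx' => ?_⟩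
      have k3 : x ∈ A.filter fun x => ¬ f x = f a := Finset.mem_filter.2 ⟨hx, hx'⟩
      rw [e] at k3
      simpa using k3
    rcases (by omega : (A.filter fun x => ¬ f x = f a).card = 1 ∨
      (A.filter fun x => ¬ f x = f a).card = 2) with e | e
    · obtain ⟨b, hb⟩ := Finset.card_eq_one.1 e
      exact h3 (hb.trans (Finset.pair_eq_singleton b).symm)
    · obtain ⟨b₁, b₂, -, hb⟩ := Finset.card_eq_two.1 e
      exact h3 hb
  rcases le_total (A.filter fun x => f x = true).card (A.filter fun x => ¬ f x = true).card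
    with e | e
  · exact key true e
  · exact key false (by simpa using e)

variable {F κ V : Type} [Field F] [Fintype κ] [DecidableEq κ] [CharP F 2] [Fintype F]

namespace Setup

variable (T : Setup F κ)

omit [DecidableEq κ] [CharP F 2] in
theorem exists_place {pos : V → Pt F κ} (hG : T.Gen pos) {a : V} {B : Finset V} (ha : a ∉ B)
    {R : Finset F} (hR : 50 * B.card + 1 < R.card) :
    ∃ ρ ∈ R, ρ ≠ 0 ∧ ∀ y ∈ B, ∃ i, (T.lg (pos a) i).eval ρ ≠ (T.lg (pos y) i).eval ρ := by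
  classical
  have h1 : ∀ y, y ∈ B → ∃ i, T.lg (pos a) i ≠ T.lg (pos y) i := fun y hy => by
    refine T.lg_ne_of_gen ?_
    have := hG.get (ι := Bool) (by simp) (e := fun l => bif l then a else y) (by
      have : a ≠ y := fun h => ha (h ▸ hy)
      rintro (_ | _) (_ | _) h
      exacts [rfl, absurd h.symm this, absurd h this, rfl])
    have e : (fun l => T.lg (pos (bif l then a else y))) =
        fun l => T.lg (bif l then pos a else pos y) := funext fun l => by cases l <;> rfl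
    rwa [e] at this
  choose! j hj using fun y (hy : y ∈ B) =>
    show ∃ g : F[X], g ≠ 0 ∧ g.natDegree ≤ 50 ∧ ∃ i, g = T.lg (pos a) i - T.lg (pos y) i from by
      obtain ⟨i, hi⟩ := h1 y hy
      exact ⟨_, sub_ne_zero.2 hi, (natDegree_sub_le _ _).trans (max_le (T.lg_le _ _) (T.lg_le _ _)),
        i, rfl⟩
  have h2 : (insert 0 (B.biUnion fun y => (j y).roots.toFinset)).card < R.card := by
    refine lt_of_le_of_lt ((Finset.card_insert_le _ _).trans ?_) hR
    refine Nat.add_le_add_right (Finset.card_biUnion_le.trans ?_) 1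
    rw [mul_comm]
    exact Finset.sum_le_card_nsmul _ _ _ fun y hy =>
      (Multiset.toFinset_card_le _).trans ((card_roots' _).trans (hj y hy).2.1)
  obtain ⟨ρ, hρ, hn⟩ := Finset.exists_mem_notMem_of_card_lt_card h2
  refine ⟨ρ, hρ, fun h => hn (h ▸ Finset.mem_insert_self _ _), fun y hy => ?_⟩
  obtain ⟨h0, -, i, hi⟩ := hj y hy
  refine ⟨i, fun h => hn (Finset.mem_insert_of_mem (Finset.mem_biUnion.2 ⟨y, hy, ?_⟩))⟩
  rw [Multiset.mem_toFinset, mem_roots h0, IsRoot, hi, eval_sub, h, sub_self]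

theorem dens {pos : V → Pt F κ} (hG : T.Gen pos) {A B : Finset V} {m : ℕ}
    (hA : A.card ≤ 3) (hB : B.card ≤ m) (hAB : Disjoint A B)
    (hind : ∀ x ∈ A, ∀ x' ∈ A, x ≠ x' → ¬ T.Adj (pos x) (pos x'))
    (hq : 400 * m + 16 ≤ Fintype.card F)
    (hD : 8 * (m + 1) * (Fintype.card F : ℝ) ^ 354 ≤ (Fintype.card F : ℝ) ^ Fintype.card κ)
    (hpl : ∀ g₁ g₂ : F[X], g₁.natDegree ≤ 100 → g₂.natDegree ≤ 100 → ¬ Triv g₁ → ¬ Triv g₂ →
      (Fintype.card F : ℝ) ≤ 8 * #{t | T.τ (g₁.eval t + g₁.eval 0) = 1 ∧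
        T.τ (g₂.eval t + g₂.eval 0) = 1}) :
    ∃ p, (Fintype.card (Par F κ) : ℝ) ≤
      8 * (Fintype.card F : ℝ) ^ 303 * (T.Good p (pos '' A) (pos '' B)).card := by
  have hq' : (2 * m : ℝ) ≤ Fintype.card F := by exact_mod_cast (by omega : 2 * m ≤ _)
  by_cases hs : ∃ s, ∀ x ∈ A, (pos x).1.1 ≠ s
  · obtain ⟨s, hs⟩ := hs
    exact ⟨(s, false), T.dens_core hG hA hB hAB hind hq' hD (s, false) 0 0
      (fun x hx h => absurd h (hs x hx)) (fun x _ _ => by rw [map_add, z2_add_self])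
      fun y _ _ h => by simpa only [lg_zero] using T.lam_ne h⟩
  push Not at hs
  obtain ⟨a, ha, ha1, b₁, hb₁, b₂, hb₂, n₁, n₂, hb⟩ := split_sides (fun x => (pos x).1.1) hA hs
  have nt : ∀ b ∈ A, (pos b).1.1 ≠ (pos a).1.1 → ¬ Triv (T.gg (pos b) (pos a)) := fun b hb n h =>
    hind b hb a ha (fun e => n (e ▸ rfl)) (Or.inl ⟨n, dadj_of_triv h (T.gg_le _ _)⟩)
  have h1 := hpl _ _ (T.gg_le _ _) (T.gg_le _ _) (nt b₁ hb₁ n₁) (nt b₂ hb₂ n₂)
  have h2 : ∀ R : Finset F, (Fintype.card F : ℝ) ≤ 8 * R.card → 50 * B.card + 1 < R.card := by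
    intro R h
    have : Fintype.card F ≤ 8 * R.card := by exact_mod_cast h
    omega
  obtain ⟨ρ, hρ, h0, hρy⟩ := T.exists_place hG (Finset.disjoint_left.1 hAB ha) (h2 _ h1)
  have hρ := (Finset.mem_filter.1 hρ).2
  let p : Bool × Bool := ((pos a).1.1, !(pos a).1.2)
  let c : (κ → F) × (κ → F) := (fun i => ((T.lg (pos a) i).eval ρ - T.lam p.2 i) / ρ,
    fun i => ((pos a).2.2 i).1.eval ρ)
  have e1 : ∀ w i, (T.lg (p, emb ρ c w) i).eval ρ = (T.lg (pos a) i).eval ρ := fun w i => by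
    rw [lg_emb, lg_emb0]
    simp only [eval_add, eval_mul, eval_C, eval_X, eval_sub, sub_self, c]
    field_simp
    ring
  have e2 : ∀ w i, (T.sh (p, emb ρ c w) i).eval ρ = (T.sh (pos a) i).eval ρ := fun w i => by
    rw [sh_emb, sh_emb0]
    simp only [sh, c, eval_add, eval_mul, eval_C, eval_X, eval_sub, sub_self]
    ring
  refine ⟨p, T.dens_core hG hA hB hAB hind hq' hD p ρ c (fun x hx h w => ?_) (fun x hx h => ?_)
    fun y hy _ _ => by simpa only [e1] using hρy y hy⟩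
  · rw [ha1 x hx h]
    refine Or.inr ⟨rfl, Bool.not_ne_self _, T.τ.comp (evalRingHom ρ).toAddMonoidHom, fun s => ?_,
      by simpa using T.hε, fun i x => ?_, fun i x => ?_⟩
    · simpa using T.inv (s.eval ρ)
    · simp [e1, CharTwo.add_self_eq_zero]
    · simp [e2, CharTwo.add_self_eq_zero]
  · have e3 : (T.gg (pos x) (p, emb ρ c 0)).eval ρ = (T.gg (pos x) (pos a)).eval ρ := by
      simp only [gg, pr, eval_finsetSum, eval_mul, eval_add, e1, e2]
    have e4 : T.τ ((T.gg (pos x) (pos a)).eval ρ + (T.gg (pos x) (pos a)).eval 0) = 1 := by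
      rcases hb x hx h with rfl | rfl
      exacts [hρ.1, hρ.2]
    rw [map_add, gg_zero] at e4
    rw [map_add, gg_zero, e3]
    revert e4
    change _ → _ + (if (pos x).1.2 = !(pos a).1.2 then 0 else 1) = 0
    generalize T.τ _ = u, (pos x).1.2 = s, (pos a).1.2 = t
    revert u s t
    decide

end Setup

end Pool.Agent.Lib.MP_61ca19_lc
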