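import Pool.Agent.Lib.MP_61ca19_lc.Small

/-!
# Large character sums have trivial phase
-/

set_option autoImplicit false

namespace Pool.Agent.Lib.MP_61ca19_lc

open Finset Polynomial

variable {F : Type} [Field F]

/-- Parameters of functionals on polynomials of degree at most 100. -/
abbrev Th (F : Type) [Field F] : Type := Fin 101 → (F →+ ZMod 2)

/-- The functional with given parameters. -/
def phi (θ : Th F) : F[X] →+ ZMod 2 where
  toFun g := ∑ n, θ n (g.coeff n)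
  map_zero' := by simp
  map_add' g g' := by simp [Finset.sum_add_distrib]

theorem phi_apply (θ : Th F) (g : F[X]) : phi θ g = ∑ n, θ n (g.coeff n) := rfl

theorem phi_add (θ θ' : Th F) (g : F[X]) : phi (θ + θ') g = phi θ g + phi θ' g := by
  simp [phi_apply, Finset.sum_add_distrib]

theorem phi_zero (g : F[X]) : phi (0 : Th F) g = 0 := by simp [phi_apply]

theorem phi_single (n : Fin 101) (μ : F →+ ZMod 2) (g : F[X]) :
    phi (Pi.single n μ) g = μ (g.coeff n) := by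
  rw [phi_apply, Finset.sum_eq_single n]
  · simp
  · intro j _ hj
    simp [hj]
  · simp

/-- The invariant functionals that kill the constants. -/
def Th0 (F : Type) [Field F] : AddSubgroup (Th F) where
  carrier := {θ | (∀ s : F[X], s.natDegree ≤ 50 → phi θ (s ^ 2) = phi θ s) ∧
    ∀ c, phi θ (C c) = 0}
  zero_mem' := by simp [phi_zero]
  add_mem' := by
    rintro a b ⟨h1, h2⟩ ⟨h3, h4⟩
    exact ⟨fun s hs => by rw [phi_add, phi_add, h1 s hs, h3 s hs],
      fun c => by rw [phi_add, h2, h4, add_zero]⟩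
  neg_mem' := by
    rintro a ⟨h1, h2⟩
    have : ∀ g, phi (-a) g = phi a g := fun g =>
      z2_eq_of_add (by rw [← phi_add, neg_add_cancel, phi_zero])
    simpa only [Set.mem_ofPred_eq, this] using ⟨h1, h2⟩

/-- The class of `g` is trivial, in dual form. -/
def DAdj (g : F[X]) : Prop := ∀ θ ∈ Th0 F, phi θ g = 0

theorem dadj_of_triv [CharP F 2] {g : F[X]} (h : Triv g) (hd : g.natDegree ≤ 100) : DAdj g := by
  obtain ⟨s, c, rfl⟩ := h
  intro θ hθ
  have := natDegree_le_of_wp hd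
  rw [map_add, map_add, hθ.1 s (by omega), hθ.2, z2_add_self, add_zero]

theorem DAdj.inv {g : F[X]} (h : DAdj g) (hd : g.natDegree ≤ 100) {ψ : F[X] →+ ZMod 2}
    (hψ : Inv ψ) : ψ g = ψ (C (g.eval 0)) := by
  let ψ' : F[X] →+ ZMod 2 := ψ + ψ.comp ((C : F →+* F[X]).comp (evalRingHom 0)).toAddMonoidHom
  have h1 : ∀ p, ψ' p = ψ p + ψ (C (p.eval 0)) := fun p => rfl
  let θ : Th F := fun n => ψ'.comp (monomial (n : ℕ) : F →ₗ[F] F[X]).toAddMonoidHom
  have h2 : ∀ p : F[X], p.natDegree ≤ 100 → phi θ p = ψ' p := fun p hp => by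
    conv_rhs => rw [p.as_sum_range' 101 (by omega), map_sum, Finset.sum_range]
    rfl
  have h3 := h θ ⟨fun s hs => ?_, fun c => ?_⟩
  · rw [h2 g hd] at h3
    exact z2_eq_of_add h3
  · rw [h2 _ (natDegree_pow_le.trans (by omega)), h2 s (by omega), h1, h1, hψ, eval_pow, C_pow, hψ]
  · rw [h2 _ (by simp), h1, eval_C, z2_add_self]

theorem DAdj.coeff [CharP F 2] {g : F[X]} (h : DAdj g) (μ : F →+ ZMod 2) : μ (g.coeff 51) = 0 := by
  have := h (Pi.single 51 μ) ⟨fun s hs => ?_, fun c => ?_⟩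
  · rwa [phi_single] at this
  · rw [phi_single, phi_single]
    change μ ((s ^ 2).coeff 51) = μ (s.coeff 51)
    rw [coeff_sq_odd s (by norm_num), coeff_eq_zero_of_natDegree_lt (by omega)]
  · rw [phi_single]
    change μ ((C c).coeff 51) = 0
    rw [coeff_C_of_ne_zero (by norm_num), map_zero]

variable {ι κ : Type} [Fintype ι]

/-- General position: relations have small rank. -/
def GenL (L : ι → κ → F[X]) : Prop :=
  ∀ (θ : ι → Th F) (p : F[X]), p.natDegree ≤ 49 →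
    (∀ i (c : F[X]), c.natDegree ≤ 9 → ∑ l, phi (θ l) (L l i * p * c) = 0) →
    ∃ c : F[X], c ≠ 0 ∧ c.natDegree ≤ 9 ∧
      ∀ l (z : F[X]), z.natDegree ≤ 49 → phi (θ l) (X * z * p * c) = 0

theorem lowrank_aux {L b : ι → κ → F[X]} {Ss : κ → F[X]} {φ : ι → F[X] →+ ZMod 2}
    (hG : ∀ p : F[X], p.natDegree ≤ 49 →
      (∀ i (c : F[X]), c.natDegree ≤ 9 → ∑ l, φ l (L l i * p * c) = 0) →
      ∃ c : F[X], c ≠ 0 ∧ c.natDegree ≤ 9 ∧
        ∀ l (z : F[X]), z.natDegree ≤ 49 → φ l (X * z * p * c) = 0) {f : F[X]} (hf0 : f ≠ 0)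
    (hf : f.natDegree ≤ 2) (hS : ∀ i, (Ss i).natDegree ≤ 1)
    (hB : Big f (fun l i => L l i + Ss i) b φ) :
    ∃ P : F[X], P.Monic ∧ P.natDegree ≤ 14 ∧
      ∀ l (w : F[X]), w.natDegree ≤ 77 → φ l (P * w) = 0 := by
  have hf2 : (f ^ 2).natDegree ≤ 4 := natDegree_pow_le.trans (by omega)
  have key : ∀ p : F[X], p.natDegree ≤ 37 → ∃ c : F[X], c ≠ 0 ∧ c.natDegree ≤ 9 ∧
      ∀ l (z : F[X]), z.natDegree ≤ 49 → φ l (X * f ^ 2 * (z * p * c)) = 0 := by
    intro p hp
    obtain ⟨c, c0, c1, c2⟩ := hG (f ^ 2 * p) (natDegree_mul_le.trans (by omega)) fun i c hc => by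
      have hpc : (p * c).natDegree ≤ 46 := natDegree_mul_le.trans (by omega)
      have h1 := hB.lg i (f * (p * c)) (natDegree_mul_le.trans (by omega))
      have h2 := hB.quad (Ss i) (p * c) ((hS i).trans (by norm_num)) (by omega)
      have e : ∀ l, (L l i + Ss i) * (f * (f * (p * c))) =
          L l i * (f ^ 2 * p) * c + f * Ss i * (f * (p * c)) := fun l => by ring
      simpa only [e, map_add, Finset.sum_add_distrib, h2, add_zero] using h1
    refine ⟨c, c0, c1, fun l z hz => ?_⟩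
    have e : X * f ^ 2 * (z * p * c) = X * z * (f ^ 2 * p) * c := by ring
    rw [e, c2 l z hz]
  obtain ⟨c, c0, c1, c2⟩ := rank_lemma (A := 49) (B := 37) (s := 9)
    (fun l => (φ l).comp (AddMonoidHom.mulLeft (X * f ^ 2))) (by norm_num) key
  have h0 : X * f ^ 2 * c ≠ 0 := mul_ne_zero (mul_ne_zero X_ne_zero (pow_ne_zero _ hf0)) c0
  have h1 : (X * f ^ 2).natDegree ≤ 1 + 4 :=
    natDegree_mul_le.trans (add_le_add natDegree_X_le hf2)
  have h2 : (X * f ^ 2 * c).natDegree ≤ 14 := natDegree_mul_le.trans (by omega)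
  have h3 : ∀ l (w : F[X]), w.natDegree ≤ 77 → φ l (X * f ^ 2 * c * w) = 0 := fun l w hw => by
    rw [mul_assoc]
    exact c2 l w hw
  generalize X * f ^ 2 * c = Q at h0 h2 h3
  refine ⟨Q * C Q.leadingCoeff⁻¹, monic_mul_leadingCoeff_inv h0,
    (natDegree_mul_C_le _ _).trans h2, fun l w hw => ?_⟩
  rw [mul_assoc]
  exact h3 l _ ((natDegree_C_mul_le _ _).trans hw)

theorem lowrank {L b : ι → κ → F[X]} {Ss : κ → F[X]} (hG : GenL L) {f : F[X]} (hf0 : f ≠ 0)
    (hf : f.natDegree ≤ 2) (hS : ∀ i, (Ss i).natDegree ≤ 1) {θ : ι → Th F}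
    (hB : Big f (fun l i => L l i + Ss i) b fun l => phi (θ l)) :
    ∃ P : F[X], P.Monic ∧ P.natDegree ≤ 14 ∧
      ∀ l (w : F[X]), w.natDegree ≤ 77 → phi (θ l) (P * w) = 0 :=
  lowrank_aux (hG θ) hf0 hf hS hB

theorem natDegree_pr_le [Fintype κ] {a b : κ → F[X]} {m n : ℕ} (ha : ∀ i, (a i).natDegree ≤ m)
    (hb : ∀ i, (b i).natDegree ≤ n) : (pr a b).natDegree ≤ m + n :=
  natDegree_sum_le_of_forall_le _ _ fun i _ => natDegree_mul_le.trans (add_le_add (ha i) (hb i))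

theorem natDegree_f (ρ : F) : (X * (X - C ρ)).natDegree ≤ 2 :=
  natDegree_mul_le.trans (add_le_add natDegree_X_le (natDegree_X_sub_C_le ρ))

theorem phase_zero [CharP F 2] [Finite F] [Fintype κ] (hι : Fintype.card ι ≤ 3) {ρ : F}
    {a b : ι → κ → F[X]} (H : Compat ρ a b) (ha : ∀ l i, (a l i).natDegree ≤ 50)
    (hb : ∀ l i, (b l i).natDegree ≤ 27) {θ : ι → Th F} (hθ : ∀ l, θ l ∈ Th0 F)
    (hB : Big (X * (X - C ρ)) a b fun l => phi (θ l)) {P : F[X]} (hP : P.Monic)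
    (hd : P.natDegree ≤ 14) (hk : ∀ l (w : F[X]), w.natDegree ≤ 77 → phi (θ l) (P * w) = 0) :
    ∑ l, phi (θ l) (pr (a l) (b l)) = 0 := by
  let ψ : ι → F[X] →+ ZMod 2 := fun l => (phi (θ l)).comp (modByMonicHom P).toAddMonoidHom
  have h0 : ∀ l g, ψ l g = phi (θ l) (g %ₘ P) := fun _ _ => rfl
  have h1 : ∀ l (g : F[X]), g.natDegree ≤ 77 → ψ l g = phi (θ l) g := fun l g hg => by
    conv_rhs => rw [← modByMonic_add_div g P, map_add,
      hk l _ ((natDegree_divByMonic g hP).le.trans (by omega)), add_zero]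
    rfl
  have h2 : ∀ l w, ψ l (P * w) = 0 := fun l w => by
    rw [h0, (modByMonic_eq_zero_iff_dvd hP).2 (dvd_mul_right _ _), map_zero]
  have h3 : ∀ l x w, ψ l (x * w) = ψ l (x * (w %ₘ P)) := fun l x w => by
    conv_lhs => rw [← modByMonic_add_div w P, mul_add, map_add, mul_left_comm, h2, add_zero]
  have h4 : ∀ w : F[X], (w %ₘ P).natDegree ≤ 14 := fun w => (natDegree_modByMonic_le w hP).trans hd
  have hf := natDegree_f ρ
  have h5 : ∀ w : F[X], (X * (X - C ρ) * (w %ₘ P)).natDegree ≤ 16 := fun w =>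
    natDegree_mul_le.trans (add_le_add hf (h4 w))
  have h6 : ∀ w : F[X], (X * (X - C ρ) * (X * (X - C ρ) * (w %ₘ P))).natDegree ≤ 18 := fun w =>
    natDegree_mul_le.trans (add_le_add hf (h5 w))
  have h7 : ∀ l (x w : F[X]), x.natDegree ≤ 50 → ψ l (x * ((X * (X - C ρ)) ^ 2 * w)) =
      phi (θ l) (x * (X * (X - C ρ) * (X * (X - C ρ) * (w %ₘ P)))) := fun l x w hx => by
    rw [← mul_assoc, h3, ← h1 _ _ (natDegree_mul_le.trans ((add_le_add hx (h6 w)).trans
      (by norm_num))), sq, mul_assoc, mul_assoc (X * (X - C ρ))]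
  have hr : Rel ((X * (X - C ρ)) ^ 2) a b ψ := by
    refine ⟨fun l s => ?_, fun w => ?_, fun i w => ?_, fun i w => ?_⟩
    · have := h4 s
      rw [sq, h3, mul_comm, h3, ← sq, h1 _ _ (natDegree_pow_le.trans (by omega)),
        (hθ l).1 _ (by omega), h0]
    · rw [← hB.quad 1 (w %ₘ P) (by simp) ((h4 w).trans (by norm_num))]
      refine Finset.sum_congr rfl fun l _ => ?_
      have := h7 l 1 w (by simp)
      rw [one_mul, one_mul] at this
      rw [mul_one, this]
    · rw [← hB.lg i _ ((h5 w).trans (by norm_num))]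
      exact Finset.sum_congr rfl fun l _ => h7 l _ w (ha l i)
    · rw [← hB.sh i _ ((h5 w).trans (by norm_num))]
      exact Finset.sum_congr rfl fun l _ => h7 l _ w ((hb l i).trans (by norm_num))
  rw [← localize hι H _ P hP.ne_zero (Nat.lt_succ_self _) ψ hr h2]
  refine Finset.sum_congr rfl fun l _ => ?_
  rw [map_add, h1 _ _ (natDegree_pr_le (ha l) (hb l)), h1 _ _ (by simp), (hθ l).2, add_zero]

end Pool.Agent.Lib.MP_61ca19_lc
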