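import Pool.Agent.Lib.MP_61ca19_lc.Part

/-!
# Random sparsification
-/

set_option autoImplicit false

namespace Pool.Agent.Lib.MP_61ca19_lc

open Finset Polynomial

/-- The number of elements with a given property. -/
noncomputable def cnt {Ω : Type} [Fintype Ω] (S : Ω → Prop) : ℝ :=
  (@Finset.filter _ S (Classical.decPred S) Finset.univ).card

theorem cnt_eq {Ω : Type} [Fintype Ω] (S : Ω → Prop) [DecidablePred S] :
    cnt S = (#{ω | S ω} : ℝ) :=
  congrArg (fun s : Finset Ω => (s.card : ℝ)) (Finset.filter_congr_decidable _ _ _)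

theorem cnt_mono {Ω : Type} [Fintype Ω] {S S' : Ω → Prop} (h : ∀ ω, S ω → S' ω) :
    cnt S ≤ cnt S' := by
  classical
  rw [cnt_eq, cnt_eq]
  exact Nat.cast_le.2 (Finset.card_le_card fun ω hω =>
    Finset.mem_filter.2 ⟨Finset.mem_univ _, h ω (Finset.mem_filter.1 hω).2⟩)

theorem union_le {I Ω : Type} [Fintype I] [Fintype Ω] (S : I → Ω → Prop) {b : ℝ}
    (h : ∀ i, cnt (S i) ≤ b) : cnt (fun ω => ∃ i, S i ω) ≤ Fintype.card I * b := by
  classical
  simp only [cnt_eq] at h ⊢
  have h1 : ({ω | ∃ i, S i ω} : Finset Ω) ⊆ Finset.univ.biUnion fun i => {ω | S i ω} := by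
    intro ω hω
    obtain ⟨i, hi⟩ := (Finset.mem_filter.1 hω).2
    exact Finset.mem_biUnion.2 ⟨i, Finset.mem_univ _, Finset.mem_filter.2 ⟨Finset.mem_univ _, hi⟩⟩
  refine (Nat.cast_le.2 ((Finset.card_le_card h1).trans Finset.card_biUnion_le)).trans ?_
  rw [Nat.cast_sum, ← nsmul_eq_mul]
  exact Finset.sum_le_card_nsmul _ _ _ fun i _ => h i

theorem exists_avoid {Ω : Type} [Fintype Ω] {S S' : Ω → Prop}
    (h : cnt S + cnt S' < Fintype.card Ω) : ∃ ω, ¬ S ω ∧ ¬ S' ω := by
  classical
  rw [cnt_eq, cnt_eq] at h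
  obtain ⟨ω, -, hω⟩ := Finset.exists_mem_notMem_of_card_lt_card
    ((Finset.card_union_le _ _).trans_lt (show _ < (Finset.univ : Finset Ω).card by
      exact_mod_cast h))
  exact ⟨ω, by simpa using hω⟩

theorem miss_le {P A : Type} [Fintype P] [DecidableEq P] [Fintype A] (N : ℕ) (p : P)
    (G : Finset A) (δ : ℝ) :
    cnt (fun ω : P × Fin N → A => δ * Fintype.card A ≤ G.card ∧ ∀ n, ω (p, n) ∉ G) ≤
      Real.exp (-(δ * N)) * Fintype.card (P × Fin N → A) := by
  classical
  rw [cnt_eq]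
  by_cases hδ : δ * Fintype.card A ≤ G.card
  swap
  · simp only [hδ, false_and, Finset.filter_false, Finset.card_empty, Nat.cast_zero]
    positivity
  have h1 : ({ω : P × Fin N → A | δ * Fintype.card A ≤ G.card ∧ ∀ n, ω (p, n) ∉ G} : Finset _) ⊆
      Fintype.piFinset fun v => if v.1 = p then Gᶜ else Finset.univ := by
    intro ω hω
    refine Fintype.mem_piFinset.2 fun v => ?_
    split_ifs with h
    · exact Finset.mem_compl.2 (by simpa [← h] using (Finset.mem_filter.1 hω).2.2 v.2)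
    · exact Finset.mem_univ _
  refine (Nat.cast_le.2 (Finset.card_le_card h1)).trans ?_
  rw [Fintype.card_piFinset, Nat.cast_prod]
  have h2 : ∏ v : P × Fin N, ((if v.1 = p then Real.exp (-δ) else 1) * Fintype.card A) =
      Real.exp (-(δ * N)) * Fintype.card (P × Fin N → A) := by
    rw [Finset.prod_mul_distrib, Finset.prod_const, Fintype.card_fun, Nat.cast_pow,
      Finset.card_univ, Fintype.prod_prod_type_right]
    simp only [Finset.prod_ite_eq', Finset.mem_univ, if_true, Finset.prod_const, Finset.card_univ,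
      Fintype.card_fin]
    rw [← Real.exp_nat_mul, mul_neg, mul_comm δ]
  rw [← h2]
  refine Finset.prod_le_prod (fun _ _ => by positivity) fun v _ => ?_
  split_ifs with h
  · rw [Finset.card_compl, Nat.cast_sub (Finset.card_le_univ _)]
    have := mul_le_mul_of_nonneg_right (Real.add_one_le_exp (-δ))
      (Nat.cast_nonneg (α := ℝ) (Fintype.card A))
    linarith
  · simp

theorem exists_enum {V : Type} {A : Finset V} {k : ℕ} (h : A.card ≤ k) :
    ∃ f : Fin k → Option V, ∀ v, v ∈ A ↔ ∃ j, f j = some v := by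
  refine ⟨fun j => A.toList[j.1]?, fun v => ?_⟩
  rw [← Finset.mem_toList, List.mem_iff_getElem?]
  refine ⟨fun ⟨n, hn⟩ => ⟨⟨n, ?_⟩, hn⟩, fun ⟨j, hj⟩ => ⟨_, hj⟩⟩
  have := (List.getElem?_eq_some_iff.1 hn).1
  rw [Finset.length_toList] at this
  omega

variable {F κ V : Type} [Field F] [Fintype κ] [DecidableEq κ] [CharP F 2] [Fintype F]

omit [CharP F 2] in
theorem card_Amb : Fintype.card (Amb F κ) = Fintype.card F ^ (77 * Fintype.card κ) := by
  rw [Fintype.card_prod, Fintype.card_fun, Fintype.card_fun, card_Pd, card_Pd, ← mul_pow,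
    ← pow_add, ← pow_mul]

omit [CharP F 2] in
theorem card_Par : Fintype.card (Par F κ) = Fintype.card F ^ (75 * Fintype.card κ) := by
  rw [Fintype.card_prod, Fintype.card_fun, Fintype.card_fun, card_Pd, card_Pd, ← mul_pow,
    ← pow_add, ← pow_mul]

namespace Setup

variable (T : Setup F κ) [Fintype V] [DecidableEq V]

/-- A failure of general position. -/
def Fail (part : V → Bool × Bool) {ι : Type} [Fintype ι] (e : ι → V) (θ : ι → Th F)
    (p : F[X]) (ω : V → Amb F κ) : Prop :=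
  Function.Injective e ∧ (∀ i (c : F[X]), c.natDegree ≤ 9 →
    ∑ l, phi (θ l) (T.lg (part (e l), ω (e l)) i * p * c) = 0) ∧
      ¬ ∃ c : F[X], c ≠ 0 ∧ c.natDegree ≤ 9 ∧
        ∀ l (z : F[X]), z.natDegree ≤ 49 → phi (θ l) (X * z * p * c) = 0

omit [CharP F 2] in
theorem gen_fail (part : V → Bool × Bool) {ι : Type} [Fintype ι] (e : ι → V) (θ : ι → Th F)
    (p : F[X]) : cnt (T.Fail part e θ p) ≤
      Fintype.card (V → Amb F κ) / (Fintype.card F : ℝ) ^ (10 * Fintype.card κ) := by
  classical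
  rw [cnt_eq]
  have hQ : (0 : ℝ) < Fintype.card F := by exact_mod_cast Fintype.card_pos
  by_cases hc : Function.Injective e ∧ ¬ ∃ c : F[X], c ≠ 0 ∧ c.natDegree ≤ 9 ∧
      ∀ l (z : F[X]), z.natDegree ≤ 49 → phi (θ l) (X * z * p * c) = 0
  swap
  · rw [Finset.filter_eq_empty_iff.2 fun ω _ h => hc ⟨h.1, h.2.2⟩, Finset.card_empty,
      Nat.cast_zero]
    positivity
  obtain ⟨he, hc⟩ := hc
  push Not at hc
  have h1 := count_affine (G := V → Amb F κ) (Θ := κ → Pd F 9)
    (fun a ω => ∑ i, ∑ l, phi (θ l) (T.lg (part (e l), ω (e l)) i * p * (a i).1))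
    (fun a b ω => by simp [mul_add, Finset.sum_add_distrib]) fun a ha => by
      obtain ⟨i, hi⟩ := Function.ne_iff.1 ha
      obtain ⟨l, z, hz, hn⟩ := hc (a i).1 (fun h => hi (Subtype.ext h)) (Pd.le _)
      refine ⟨Pi.single (e l) (Pi.single i ⟨z, mem_Pd.2 hz⟩, 0), fun ω => ?_⟩
      have k : ∀ i' l', T.lg (part (e l'), (ω + Pi.single (e l)
          (Pi.single i ⟨z, mem_Pd.2 hz⟩, 0) : V → Amb F κ) (e l')) i' * p * (a i').1 =
          T.lg (part (e l'), ω (e l')) i' * p * (a i').1 +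
            if l' = l then if i' = i then X * z * p * (a i).1 else 0 else 0 := by
        intro i' l'
        by_cases h1 : l' = l
        · by_cases h2 : i' = i
          · subst h1 h2
            simp [lg]
            ring
          · subst h1
            simp [lg, h2]
        · simp [h1, he.ne h1]
      simp only [k, map_add, Finset.sum_add_distrib, apply_ite (phi _), map_zero,
        Finset.sum_ite_eq', Finset.mem_univ, if_true, z2_eq_one hn]
  rw [Fintype.card_fun, card_Pd, ← pow_mul, Nat.cast_pow] at h1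
  rw [le_div_iff₀ (by positivity), ← h1, mul_comm]
  refine mul_le_mul_of_nonneg_left (Nat.cast_le.2 (Finset.card_le_card fun ω hω => ?_))
    (by positivity)
  exact Finset.mem_filter.2 ⟨Finset.mem_univ _, fun a => Finset.sum_eq_zero fun i _ =>
    (Finset.mem_filter.1 hω).2.2.1 i _ (Pd.le _)⟩

theorem not_gen_le [Nonempty V] (part : V → Bool × Bool) :
    cnt (fun ω : V → Amb F κ => ¬ T.Gen fun v => (part v, ω v)) ≤
      5 * ((Fintype.card V ^ 4 * Fintype.card F ^ 454 : ℕ) *
        (Fintype.card (V → Amb F κ) / (Fintype.card F : ℝ) ^ (10 * Fintype.card κ))) := by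
  have h0 : ∀ k : Fin 5, Fintype.card ((Fin k → V) × (Fin k → Th F) × Pd F 49) ≤
      Fintype.card V ^ 4 * Fintype.card F ^ 454 := fun k => by
    have hk : k.1 ≤ 4 := by omega
    rw [Fintype.card_prod, Fintype.card_prod, Fintype.card_fun, Fintype.card_fun, card_Pd,
      card_Th, Fintype.card_fin, ← pow_mul, ← pow_add]
    exact Nat.mul_le_mul (Nat.pow_le_pow_right Fintype.card_pos hk)
      (Nat.pow_le_pow_right Fintype.card_pos (by omega))
  generalize Fintype.card V ^ 4 * Fintype.card F ^ 454 = M at h0 ⊢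
  have h1 := union_le (fun (k : Fin 5) (ω : V → Amb F κ) =>
      ∃ x : (Fin k → V) × (Fin k → Th F) × Pd F 49, T.Fail part x.1 x.2.1 x.2.2.1 ω)
    (b := M * (Fintype.card (V → Amb F κ) / (Fintype.card F : ℝ) ^ (10 * Fintype.card κ)))
    fun k => (union_le (fun (x : (Fin k → V) × (Fin k → Th F) × Pd F 49) (ω : V → Amb F κ) =>
      T.Fail part x.1 x.2.1 x.2.2.1 ω) fun x => T.gen_fail part x.1 x.2.1 x.2.2.1).trans
        (mul_le_mul_of_nonneg_right (Nat.cast_le.2 (h0 k)) (by positivity))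
  rw [Fintype.card_fin] at h1
  refine le_trans (cnt_mono fun ω h2 => ?_) h1
  simp only [Gen, GenL, not_forall] at h2
  obtain ⟨k, hk, e, he, θ, p, hp, h3, h4⟩ := h2
  exact ⟨⟨k, by omega⟩, (e, θ, ⟨p, mem_Pd.2 hp⟩), he, h3, h4⟩

end Setup

end Pool.Agent.Lib.MP_61ca19_lc
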