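import Pool.Agent.Lib.MP_61ca19_lc.SizeExt

/-!
# Counting the vertices of the graph of keys and slots
-/

set_option autoImplicit false

namespace Pool.Agent.Lib.MP_61ca19_lc.KS

open MvPolynomial Finset

noncomputable section

theorem card_small (F : Type) [Field F] [Finite F] {g : ℕ} (hg : 0 < g) :
    Nat.card {p : P F // ∀ t, degreeOf t p < g} = Nat.card F ^ g ^ 2 := by
  let s : Set (Fin 2 →₀ ℕ) := {n | ∀ i, n i < g}
  have e1 : {p : P F // ∀ t, degreeOf t p < g} ≃ restrictSupport F s :=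
    Equiv.subtypeEquivRight fun p => by
      rw [mem_restrictSupport_iff]
      exact ⟨fun h n hn i => (monomial_le_degreeOf i hn).trans_lt (h i),
        fun h t => (degreeOf_lt_iff hg).2 fun m hm => h hm t⟩
  have e2 : s ≃ (Fin 2 → Fin g) :=
    ⟨fun n i => ⟨n.1 i, n.2 i⟩,
      fun f => ⟨Finsupp.equivFunOnFinite.symm fun i => (f i : ℕ), fun i => (f i).2⟩,
      fun n => Subtype.ext (Finsupp.ext fun _ => rfl), fun f => funext fun _ => rfl⟩
  have : Finite s := Finite.of_equiv _ e2.symm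
  rw [Nat.card_congr e1, Nat.card_congr (basisRestrictSupport F s).equivFun.toEquiv, Nat.card_fun,
    Nat.card_congr e2, Nat.card_fun, Nat.card_fin, Nat.card_fin]

namespace Setup

variable {F : Type} [Field F] {k : ℕ} (T : Setup F k)

theorem card_upper [Finite F] :
    Nat.card {z : T.V // z.1.2 ((1, 1), Fin.last k) = 0} * Nat.card F ^ T.A.γ ^ 2 ≤
      T.S.card ^ 2 * (Nat.card F ^ T.A.γ ^ 2) ^ (4 * (k + 1)) := by
  classical
  have hg : 0 < T.A.γ := (Nat.zero_le _).trans_lt T.A.hk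
  have := (finite_small (F := F) T.A.γ).to_subtype
  have hf : Finite {p : P F // ∀ t, degreeOf t p < T.A.γ} := this
  let f : {z : T.V // z.1.2 ((1, 1), Fin.last k) = 0} × {p : P F // ∀ t, degreeOf t p < T.A.γ} →
      T.Q × (Idx k → {p : P F // ∀ t, degreeOf t p < T.A.γ}) := fun x =>
    (x.1.1.1.1, Function.update (fun j => ⟨x.1.1.1.2 j, x.1.1.2.1 j⟩) ((1, 1), Fin.last k) x.2)
  have h := Nat.card_le_card_of_injective f fun x y e => by
    have e1 : x.1.1.1.1 = y.1.1.1.1 := (Prod.ext_iff.1 e).1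
    have e2 := congrFun (congrArg Prod.snd e)
    refine Prod.ext (Subtype.ext (Subtype.ext (Prod.ext e1 (funext fun j => ?_)))) ?_
    · by_cases hj : j = ((1, 1), Fin.last k)
      · rw [hj, x.1.2, y.1.2]
      · simpa [f, Function.update_of_ne hj] using e2 j
    · simpa [f] using e2 ((1, 1), Fin.last k)
  rw [Nat.card_prod, Nat.card_prod, Nat.card_fun, Nat.card_fun, card_small F hg] at h
  simpa using h

theorem card_lower [Finite F] (l : T.Q) :
    (Nat.card F ^ T.A.γ ^ 2) ^ (4 * (k + 1)) ≤ Nat.card T.V * Nat.card F ^ (4 * (k + 1)) := by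
  classical
  have hg : 0 < T.A.γ := (Nat.zero_le _).trans_lt T.A.hk
  have := T.finite_V
  let H : Fin 2 × Fin 2 → P F := fun r => if r = (0, 0) then 1 else 0
  let w : (Idx k → P F) → Idx k → P F := fun g j => g j - C (eval (T.pt l) (g j)) + tens 1 H j
  have hno : ∀ g a j ψ, ¬ T.Link l (w g) a j ψ := fun g a j ψ h => by
    have h1 := congrArg (eval (T.pt l)) h
    rw [eval_key_self, eval_slot_congr (ψ' := tens 1 H) (fun j => by simp [w]),
      slot_tens (by simp), Finset.sum_eq_single (0, 0) (fun r _ hr => by simp [H, hr]) (by simp),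
      mu_zero] at h1
    simp [H] at h1
  let f : (Idx k → {p : P F // ∀ t, degreeOf t p < T.A.γ}) → T.V × (Idx k → F) := fun g =>
    (⟨(l, w fun j => (g j).1), fun j t => by
        refine degreeOf_add_lt ((degreeOf_sub_le _ _ _).trans_lt (max_lt ((g j).2 t) ?_))
          (degreeOf_C_mul_lt _ ?_)
        · rwa [degreeOf_C]
        · simp only [H]
          split_ifs
          · rwa [degreeOf_one]
          · rwa [degreeOf_zero],
      fun a _ _ j1 _ ψ _ _ h _ => (hno _ a j1 ψ h).elim,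
      fun a _ j1 _ _ ψ _ _ h _ => (hno _ a j1 ψ h).elim⟩, fun j => eval (T.pt l) (g j).1)
  have h := Nat.card_le_card_of_injective f fun x y e => funext fun j => by
    have e1 : w (fun j => (x j).1) j = w (fun j => (y j).1) j :=
      congrFun (congrArg (fun z => z.1.1.2) e) j
    have e2 : eval (T.pt l) (x j).1 = eval (T.pt l) (y j).1 := congrFun (congrArg Prod.snd e) j
    simp only [w, e2] at e1
    exact Subtype.ext (sub_left_injective (add_right_cancel e1))
  rw [Nat.card_prod, Nat.card_fun, Nat.card_fun, card_small F hg] at h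
  simpa using h

end Setup

/-- Every set between the witnesses and the whole vertex set induces a good graph. -/
theorem between {V : Type} [Finite V] (G : SimpleGraph V) (h3 : G.CliqueFree 3) (W : V → Prop)
    (n N : ℕ) (h : ∀ X Y : Finset V, G.IsIndepSet (X : Set V) → Disjoint X Y →
      X.card + Y.card ≤ n →
      ∃ z, W z ∧ z ∉ X ∧ z ∉ Y ∧ (∀ x ∈ X, G.Adj z x) ∧ ∀ y ∈ Y, ¬ G.Adj z y)
    (h1 : Nat.card {z // W z} ≤ N) (h2 : N ≤ Nat.card V) :
    ∃ G : SimpleGraph (Fin N), G.CliqueFree 3 ∧ ∀ X Y : Finset (Fin N),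
      G.IsIndepSet (X : Set (Fin N)) → Disjoint X Y → X.card + Y.card ≤ n →
      ∃ z : Fin N, z ∉ X ∧ z ∉ Y ∧ (∀ x ∈ X, G.Adj z x) ∧ ∀ y ∈ Y, ¬ G.Adj z y := by
  classical
  have := Fintype.ofFinite V
  obtain ⟨U, u1, -, u2⟩ := Finset.exists_subsuperset_card_eq (subset_univ (univ.filter W))
    (n := N) (by rwa [Nat.card_eq_fintype_card, Fintype.card_subtype] at h1)
    (by rwa [Nat.card_eq_fintype_card] at h2)
  let e := Finset.equivFinOfCardEq u2
  let f : Fin N ↪ V := e.symm.toEmbedding.trans (Function.Embedding.subtype _)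
  refine ⟨G.comap f, h3.comap (SimpleGraph.Embedding.comap f G).isContained,
    fun X Y hX hXY hc => ?_⟩
  obtain ⟨z, h0, k1, k2, k4, k5⟩ := h (X.map f) (Y.map f)
    (fun a ha b hb hab => by
      obtain ⟨x, hx, rfl⟩ := Finset.mem_map.mp ha
      obtain ⟨y, hy, rfl⟩ := Finset.mem_map.mp hb
      exact hX hx hy fun e => hab (by rw [e]))
    ((Finset.disjoint_map _).mpr hXY) (by rwa [Finset.card_map, Finset.card_map])
  obtain ⟨z, rfl⟩ : ∃ x, f x = z := ⟨e ⟨z, u1 (mem_filter.2 ⟨mem_univ _, h0⟩)⟩, by simp [f]⟩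
  exact ⟨z, fun hz => k1 (Finset.mem_map_of_mem _ hz), fun hz => k2 (Finset.mem_map_of_mem _ hz),
    fun x hx => k4 _ (Finset.mem_map_of_mem _ hx), fun y hy => k5 _ (Finset.mem_map_of_mem _ hy)⟩

end

end Pool.Agent.Lib.MP_61ca19_lc.KS
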