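import Pool.Agent.Lib.MP_61ca19_lc.KeyGraph

/-!
# The witnesses of the graph of keys and slots lie in a proper subspace
-/

set_option autoImplicit false

namespace Pool.Agent.Lib.MP_61ca19_lc.KS

open MvPolynomial Finset

noncomputable section

section

variable {F : Type} [Field F] {k : ℕ} {A : Par k}

/-- A tuple with prescribed slots and vanishing top components. -/
theorem exists_interp0 {ι : Type} [DecidableEq ι] (X : Finset ι) (hX : X.card ≤ k) {v : ι → F}
    (hv : Set.InjOn v X) (p : ι → P F) (hp : ∀ x ∈ X, ∀ t, degreeOf t (p x) < 2 * A.γ)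
    (l : Fin 2 → F) (hl : ∀ x ∈ X, eval l (p x) = 0) :
    ∃ ζ : Idx k → P F, Small A ζ ∧ (∀ x ∈ X, slot A ζ (v x) = p x) ∧
      (∀ u, eval l (slot A ζ u) = 0) ∧ ∀ r, ζ (r, Fin.last k) = 0 := by
  have hk := A.hk
  choose! H h1 h2 using fun x hx => exists_split A (hp x hx)
  have hs : ∀ u, slot A (∑ x ∈ X, tens (Lagrange.basis X v x) (H x)) u =
      ∑ x ∈ X, C ((Lagrange.basis X v x).eval u) * p x := fun u => by
    rw [slot_sum]
    refine Finset.sum_congr rfl fun x hx => ?_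
    rw [slot_tens, h2 x hx]
    rw [Lagrange.natDegree_basis hv hx]
    omega
  refine ⟨∑ x ∈ X, tens (Lagrange.basis X v x) (H x), fun j t => ?_, fun x hx => ?_, fun u => ?_,
    fun r => ?_⟩
  · rw [Finset.sum_apply]
    exact degreeOf_sum_lt _ _ _ (by omega) fun x hx => degreeOf_C_mul_lt _ (h1 x hx _ t)
  · rw [hs, Finset.sum_eq_single x, Lagrange.eval_basis_self hv hx, map_one, one_mul]
    · intro y _ hy
      rw [Lagrange.eval_basis_of_ne hy hx, map_zero, zero_mul]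
    · exact fun h => (h hx).elim
  · rw [hs, map_sum]
    exact Finset.sum_eq_zero fun x hx => by rw [map_mul, hl x hx, mul_zero]
  · rw [Finset.sum_apply]
    refine Finset.sum_eq_zero fun x hx => ?_
    have h3 := Finset.card_pos.mpr ⟨x, hx⟩
    rw [tens, Polynomial.coeff_eq_zero_of_natDegree_lt, map_zero, zero_mul]
    rw [Lagrange.natDegree_basis hv hx, Fin.val_last]
    omega

/-- The direction in which the new tuple is perturbed. -/
theorem exists_dir0 {ι : Type} [DecidableEq ι] (X : Finset ι) (hX : X.card ≤ k) (v β : ι → F)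
    (hv : ∀ x ∈ X, v x ≠ 0) (l : Fin 2 → F) (hl : ∀ x ∈ X, l 1 ≠ β x) :
    ∃ δ : Idx k → P F, Small A δ ∧ (∀ x ∈ X, slot A δ (v x) = 0) ∧
      (∀ u, (∀ x ∈ X, u ≠ v x) → eval l (slot A δ u) ≠ 0) ∧ JJ A l δ none ≠ 0 ∧
      (∀ x ∈ X, ∀ a b : Fin 2 → F, a 1 = β x → a 1 ≠ b 1 → eval a (key A l b δ) ≠ 0) ∧
      ∀ i, δ ((1, 1), i) = 0 := by
  have hk := A.hk
  set h : P F := ∏ x ∈ X, (MvPolynomial.X 1 - C (β x)) with hh
  set H : Fin 2 × Fin 2 → P F := fun r => if r = (0, 0) then h else 0 with hH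
  have hsum : ∑ r, mu A r * H r = h := by
    rw [Finset.sum_eq_single (0, 0) (fun r _ hr => by simp [hH, hr]) (by simp), mu_zero]
    simp [hH]
  have hdeg : (Lagrange.nodal X v).natDegree ≤ k := by
    rw [Lagrange.natDegree_nodal]
    exact hX
  have hhl : eval l h ≠ 0 := by
    rw [hh, map_prod]
    exact Finset.prod_ne_zero_iff.mpr fun x hx => by simpa [sub_eq_zero] using hl x hx
  have hnone : JJ A l (tens (Lagrange.nodal X v) H) none ≠ 0 := by
    simp only [JJ, tens, hH, if_pos, map_mul, eval_C, Fin.val_zero]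
    refine mul_ne_zero ?_ hhl
    rw [Polynomial.coeff_zero_eq_eval_zero]
    exact Lagrange.eval_nodal_not_at_node fun x hx => (hv x hx).symm
  have hsome : ∀ y, JJ A l (tens (Lagrange.nodal X v) H) (some y) = 0 := fun y => by
    simp only [JJ]
    rw [Xi_tens, hsum, C_mul', map_smul, jet_eq_zero, smul_zero]
    have := A.e_le y.2
    rw [hh, map_prod]
    refine (totalDegree_finsetProd _ _).trans_lt
      ((Finset.sum_le_card_nsmul _ _ 1 fun x _ => ?_).trans_lt (by rw [smul_eq_mul]; omega))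
    simp only [tr, map_sub, aeval_X, aeval_C, algebraMap_eq]
    rw [add_sub_assoc, ← map_sub]
    refine (totalDegree_add _ _).trans ?_
    rw [totalDegree_X, totalDegree_C]
    simp
  refine ⟨tens (Lagrange.nodal X v) H, fun j t => degreeOf_C_mul_lt _ ?_, fun x hx => ?_,
    fun u hu => ?_, hnone, fun x hx a b ha hab => ?_, fun i => by simp [tens, hH]⟩
  · simp only [hH]
    split_ifs
    · refine (degreeOf_prod_le _ _ _).trans_lt
        ((Finset.sum_le_card_nsmul _ _ 1 fun x _ => ?_).trans_lt (by rw [smul_eq_mul]; omega))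
      refine (degreeOf_lin _ _ _).trans ?_
      split_ifs <;> simp
    · rw [degreeOf_zero]
      omega
  · rw [slot_tens hdeg, Lagrange.eval_nodal_at_node hx, map_zero, zero_mul]
  · rw [slot_tens hdeg, hsum, map_mul, eval_C]
    exact mul_ne_zero (Lagrange.eval_nodal_not_at_node hu) hhl
  · have hha : eval a h = 0 := by
      rw [hh, map_prod]
      exact Finset.prod_eq_zero hx (by simp [ha])
    rw [key, map_add, map_sum, map_sum, Finset.sum_eq_zero, zero_add, Finset.sum_eq_single none,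
      map_mul, eval_C, eval_mon, pow_zero, one_mul]
    · exact mul_ne_zero hnone (pow_ne_zero _ (sub_ne_zero.mpr hab))
    · rintro (_ | y) _ hy
      · exact (hy rfl).elim
      · rw [hsome, map_zero, zero_mul, map_zero]
    · simp
    · intro j _
      simp only [tens, hH, map_mul]
      split_ifs <;> simp [hha]

end

namespace Setup

variable {F : Type} [Field F] {k : ℕ} {T : Setup F k}

theorem extension0 [Fintype F] [DecidableEq F]
    (hS : (k * k * k + k * k * Fintype.card (Idx k) + k) * (2 * T.A.γ) < T.S.card)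
    (hF : k * (Fintype.card T.Q * (k * k)) + k * k + 1 < Fintype.card F)
    (X Y : Finset T.V) (hX : T.G.IsIndepSet (X : Set T.V)) (hXY : Disjoint X Y)
    (hc : X.card + Y.card ≤ k) :
    ∃ z : T.V, z.1.2 ((1, 1), Fin.last k) = 0 ∧ z ∉ X ∧ z ∉ Y ∧ (∀ x ∈ X, T.G.Adj z x) ∧
      ∀ y ∈ Y, ¬ T.G.Adj z y := by
  classical
  have hXk : X.card ≤ k := by omega
  have hYk : Y.card ≤ k := by omega
  obtain ⟨l, hl1, hl2, hl3⟩ := exists_base (X ∪ Y) ((card_union_le _ _).trans hc) hS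
  have mX : ∀ x ∈ X, x ∈ X ∪ Y := fun x hx => mem_union_left _ hx
  have mY : ∀ x ∈ Y, x ∈ X ∪ Y := fun x hx => mem_union_right _ hx
  -- labels
  obtain ⟨jx, hjx⟩ : ∃ jx : X → Fin k, Function.Injective jx := by
    obtain ⟨e⟩ := Function.Embedding.nonempty_of_card_le (α := X) (β := Fin k) (by simpa using hXk)
    exact ⟨e, e.injective⟩
  let v : X → F := fun x => T.lab (x.1.1.1, jx x)
  have hv : Function.Injective v := fun x y h => hjx (congrArg Prod.snd (T.lab_inj h))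
  have hu : (univ : Finset X).card ≤ k := by simpa using hXk
  obtain ⟨ζ, z1, z2, z3, z4⟩ := exists_interp0 (A := T.A) univ hu hv.injOn
    (fun x => key T.A (T.pt x.1.1.1) (T.pt l) x.1.1.2) (fun x _ => degreeOf_key x.1.2.1 _ _)
    (T.pt l) (fun x _ => eval_key_self _ _ _ _)
  obtain ⟨δ, d1, d2, d3, d4, d5, d6⟩ := exists_dir0 (A := T.A) univ hu v
    (fun x => (x.1.1.1 1 : F))
    (fun x _ => T.lab_ne _) (T.pt l) (fun x _ e => hl1 x.1 (mX _ x.2) (Subtype.ext e))
  -- the parameter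
  let B1 : X × T.Q × Fin k × Fin k → Set F := fun a => {ρ | ∃ ψ φ : Idx k → P F,
    a.1.1.1.1 1 ≠ a.2.1 1 ∧
    key T.A (T.pt a.1.1.1.1) (T.pt l) ψ = key T.A (T.pt a.1.1.1.1) (T.pt l) a.1.1.1.2 ∧
    T.Link a.1.1.1.1 ψ a.2.1 a.2.2.1 φ ∧
    eval (T.pt a.1.1.1.1) (slot T.A φ (T.lab (l, a.2.2.2))) =
      eval (T.pt a.1.1.1.1) (key T.A (T.pt l) (T.pt a.2.1) (ζ + ρ • δ))}
  let B2 : Y × Fin k → Set F := fun a => {ρ | T.Link a.1.1.1.1 a.1.1.1.2 l a.2 (ζ + ρ • δ)}
  obtain ⟨ρ, hρ⟩ := exists_avoid (F := F) (univ : Finset (Option ((X × T.Q × Fin k × Fin k) ⊕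
      (Y × Fin k)))) (fun o => o.elim {0} (Sum.elim B1 B2)) (by
    rintro (_ | a | a) -
    · exact Set.subsingleton_singleton
    · rintro ρ ⟨ψ, φ, h0, h1, h2, h3⟩ ρ' ⟨ψ', φ', -, h1', h2', h3'⟩
      rw [eval_slot_congr (eval_of_key_key (h1.trans h1'.symm) h2 h2'), h3', eval_key_add_smul,
        eval_key_add_smul, add_right_inj] at h3
      exact (mul_right_cancel₀ (d5 a.1 (mem_univ _) _ _ rfl fun e => h0 (Subtype.ext e)) h3).symm
    · intro ρ h ρ' h'
      have h1 := congrFun (JJ_of_key (Eq.trans (Eq.symm h) h')) none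
      rw [JJ_add_smul, JJ_add_smul, add_right_inj] at h1
      exact mul_right_cancel₀ d4 h1) (by
    refine lt_of_le_of_lt ?_ hF
    simp only [card_univ, Fintype.card_option, Fintype.card_sum, Fintype.card_prod,
      Fintype.card_coe, Fintype.card_fin]
    gcongr)
  have hρ0 : ρ ≠ 0 := hρ none (mem_univ _)
  have hρ1 : ∀ a, ρ ∉ B1 a := fun a => hρ (some (.inl a)) (mem_univ _)
  have hρ2 : ∀ a, ρ ∉ B2 a := fun a => hρ (some (.inr a)) (mem_univ _)
  have hlink : ∀ x : X, T.Link l (ζ + ρ • δ) x.1.1.1 (jx x) x.1.1.2 := fun x => by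
    have h := slot_add_smul (A := T.A) ζ δ ρ (v x)
    rwa [z2 x (mem_univ _), d2 x (mem_univ _), smul_zero, add_zero] at h
  have hdec : ∀ a j ψ, T.Link l (ζ + ρ • δ) a j ψ → ∃ x : X, a = x.1.1.1 ∧
      key T.A (T.pt a) (T.pt l) ψ = key T.A (T.pt a) (T.pt l) x.1.1.2 := fun a j ψ h => by
    by_cases hx : ∃ x : X, T.lab (a, j) = v x
    · obtain ⟨x, hx⟩ := hx
      obtain ⟨rfl, rfl⟩ := Prod.mk.inj (T.lab_inj hx)
      exact ⟨x, rfl, Eq.trans (Eq.symm h) (hlink x)⟩
    · have h1 := congrArg (eval (T.pt l)) h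
      rw [eval_key_self, slot_add_smul, map_add, z3, zero_add, smul_eval] at h1
      exact (mul_ne_zero hρ0 (d3 _ fun x _ e => hx ⟨x, e⟩) h1).elim
  let z : T.V := ⟨(l, ζ + ρ • δ), fun j t => by
      refine degreeOf_add_lt (z1 j t) ?_
      rw [Pi.smul_apply, smul_eq_C_mul]
      exact degreeOf_C_mul_lt _ (d1 j t),
    fun a b j j1 j2 ψ φ hab h1 h2 => by
      obtain ⟨x, rfl, hx⟩ := hdec _ _ _ h1
      obtain ⟨y, rfl, hy⟩ := hdec _ _ _ h2
      rw [eval_slot_congr (eval_of_key hx), eval_key_congr hy]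
      exact hl2 _ (mX _ x.2) _ (mX _ y.2) j fun h =>
        hX x.2 y.2 (fun e => hab (by rw [e])) (Or.inl ⟨hab, j, h⟩),
    fun a b j1 j2 j3 ψ φ hab h1 h2 h3 => by
      obtain ⟨x, rfl, hx⟩ := hdec _ _ _ h1
      exact hρ1 (x, b, j2, j3) ⟨ψ, φ, hab, hx, h2, h3⟩⟩
  refine ⟨z, by simp [z, z4, d6], fun h => hl1 z (mX _ h) rfl, fun h => hl1 z (mY _ h) rfl,
    fun x hx => Or.inl ⟨hl1 x (mX _ hx), _, hlink ⟨x, hx⟩⟩, fun y hy => ?_⟩
  rintro (⟨-, j, h⟩ | ⟨-, j, h⟩)
  · obtain ⟨x, h1, h2⟩ := hdec _ _ _ h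
    have e : y = x.1 :=
      Subtype.ext (Prod.ext h1 (hl3 _ (mY _ hy) _ (mX _ x.2) (eval_of_key h2)))
    exact Finset.disjoint_left.mp hXY x.2 (e ▸ hy)
  · exact hρ2 (⟨y, hy⟩, j) h

end Setup

end

end Pool.Agent.Lib.MP_61ca19_lc.KS
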