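import Pool.Agent.Lib.MP_61ca19_lc.SizeCount

/-!
# Triangle-free graphs with the extension property on every large number of vertices
-/

set_option autoImplicit false

namespace Pool.Agent.Lib.MP_61ca19_lc.KS

open MvPolynomial Finset

theorem exists_par0 (k : ℕ) : ∃ A : Par k, A.γ = 4 * (k + 1) ^ 2 + 5 * (k + 1) + 1 := by
  refine ⟨⟨Fintype.card (Idx k) + Fintype.card (Lam k) + k + 1,
    fun j => (Fintype.equivFin _ j).val, fun a b h => (Fintype.equivFin _).injective (Fin.ext h),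
    fun j => ?_, fun j => (Fintype.equivFin _ j).val,
    fun a b h => (Fintype.equivFin _).injective (Fin.ext h), fun j => ?_, by omega⟩, ?_⟩
  · have := (Fintype.equivFin _ j).2
    omega
  · have := (Fintype.equivFin _ j).2
    omega
  · simp only [Fintype.card_option, Fintype.card_prod, Fintype.card_fin]
    ring

/-- The choice of the exponent of the field. -/
theorem exists_exp (k d L : ℕ) (h1 : 81 * (k + 1) ^ 2 ≤ d) (h2 : d ≤ 100 * (k + 1) ^ 4)
    (hL : 13000 * (k + 1) ^ 6 ≤ L) : ∃ j, 30 * (k + 1) ≤ j ∧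
      24 * (k + 1) + j * d * (4 * (k + 1)) ≤ L + j * d ∧
      L + 1 + j * (4 * (k + 1)) ≤ j * d * (4 * (k + 1)) := by
  obtain ⟨m, hm⟩ : ∃ m, m = k + 1 := ⟨_, rfl⟩
  have e : ∀ j, j * d * (4 * (k + 1)) = d * (4 * k + 3) * j + j * d := fun j => by ring
  have a1 : d * (4 * k + 3) ≤ 4 * (m * d) := by rw [hm]; nlinarith
  simp only [e]
  rw [← hm] at h1 h2 hL ⊢
  have m1 : 1 ≤ m := by omega
  have m2 : m ≤ m ^ 2 := Nat.le_self_pow two_ne_zero m
  have m6 : m ≤ m ^ 6 := Nat.le_self_pow (by norm_num) m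
  have a0 : 0 < d * (4 * k + 3) := Nat.mul_pos (by omega) (by omega)
  generalize d * (4 * k + 3) = a at a0 a1
  have b1 : 30 * m * a ≤ L - 24 * m := by
    have : m * (m * d) ≤ 100 * m ^ 6 :=
      (Nat.mul_le_mul_left _ (Nat.mul_le_mul_left _ h2)).trans_eq (by ring)
    have : 30 * m * a ≤ 120 * (m * (m * d)) :=
      (Nat.mul_le_mul_left _ a1).trans_eq (by ring)
    omega
  have b2 := (Nat.le_div_iff_mul_le a0).2 b1
  have b3 := Nat.div_add_mod (L - 24 * m) a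
  have b4 := Nat.mod_lt (L - 24 * m) a0
  generalize (L - 24 * m) / a = j at b2 b3
  have c1 : j * (8 * m) ≤ j * d := Nat.mul_le_mul_left _ (by omega)
  have c2 : 30 * m * d ≤ j * d := Nat.mul_le_mul_right _ b2
  have c3 : m * 24 ≤ m * d := Nat.mul_le_mul_left _ (by omega)
  have c4 : j * (8 * m) = 2 * (j * (4 * m)) := by ring
  have c5 : 30 * m * d = 30 * (m * d) := by ring
  exact ⟨j, b2, by omega, by omega⟩

theorem grid_le (k γ : ℕ) (h : γ ≤ 10 * (k + 1) ^ 2) :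
    (k * k * k + k * k * (4 * (k + 1)) + k) * (2 * γ) + 1 ≤ (2 ^ (k + 1)) ^ 12 := by
  have t1 : k + 1 ≤ 2 ^ (k + 1) := Nat.lt_two_pow_self.le
  have t2 : 2 ≤ 2 ^ (k + 1) := Nat.le_self_pow (by omega) 2
  generalize 2 ^ (k + 1) = t at t1 t2
  have k1 : k ≤ t := by omega
  have t3 : t ≤ t * t * t := by nlinarith
  have t5 : 1 ≤ t ^ 5 := Nat.one_le_pow _ _ (by omega)
  have t7 : 2 ^ 7 ≤ t ^ 7 := Nat.pow_le_pow_left t2 7
  calc _ ≤ (t * t * t + t * t * (4 * t) + t * t * t) * (2 * (10 * t ^ 2)) + t ^ 5 := by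
        have : γ ≤ 10 * t ^ 2 := h.trans (by gcongr)
        have := k1.trans t3
        gcongr
    _ = 121 * t ^ 5 := by ring
    _ ≤ t ^ 7 * t ^ 5 := Nat.mul_le_mul_right _ (by omega)
    _ = t ^ 12 := by ring

theorem field_le (k s : ℕ) (h : s ≤ (2 ^ (k + 1)) ^ 12) :
    k * (s ^ 2 * (k * k)) + k * k + 2 + s + s ^ 2 * k ≤ 2 ^ (30 * (k + 1)) := by
  have t1 : k + 1 ≤ 2 ^ (k + 1) := Nat.lt_two_pow_self.le
  have t2 : 2 ≤ 2 ^ (k + 1) := Nat.le_self_pow (by omega) 2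
  rw [mul_comm 30, pow_mul]
  generalize 2 ^ (k + 1) = t at t1 t2 h
  have k1 : k ≤ t := by omega
  have up : ∀ a, a ≤ 27 → t ^ a ≤ t ^ 27 := fun a h => Nat.pow_le_pow_right (by omega) h
  have a1 : k * (s ^ 2 * (k * k)) ≤ t ^ 27 :=
    le_trans (b := t * ((t ^ 12) ^ 2 * (t * t))) (by gcongr) (by ring_nf; rfl)
  have a2 : k * k ≤ t ^ 27 := (Nat.mul_le_mul k1 k1).trans (by simpa [pow_two] using up 2)
  have a3 : 2 ≤ t ^ 27 := t2.trans (by simpa using up 1)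
  have a4 : s ≤ t ^ 27 := h.trans (up 12 (by norm_num))
  have a5 : s ^ 2 * k ≤ t ^ 27 :=
    le_trans (b := (t ^ 12) ^ 2 * t) (by gcongr) ((up 25 (by norm_num)).trans' (by ring_nf; rfl))
  have t3 : 2 ^ 3 ≤ t ^ 3 := Nat.pow_le_pow_left t2 3
  calc _ ≤ 5 * t ^ 27 := by omega
    _ ≤ t ^ 3 * t ^ 27 := Nat.mul_le_mul_right _ (by omega)
    _ = t ^ 30 := by ring

theorem all_sizes (k N : ℕ) (hN : 2 ^ (13000 * (k + 1) ^ 6) ≤ N) :
    ∃ G : SimpleGraph (Fin N), G.CliqueFree 3 ∧ ∀ X Y : Finset (Fin N),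
      G.IsIndepSet (X : Set (Fin N)) → Disjoint X Y → X.card + Y.card ≤ k →
      ∃ z : Fin N, z ∉ X ∧ z ∉ Y ∧ (∀ x ∈ X, G.Adj z x) ∧ ∀ y ∈ Y, ¬ G.Adj z y := by
  classical
  obtain ⟨A, hA⟩ := exists_par0 k
  have N0 : N ≠ 0 := (Nat.lt_of_lt_of_le (Nat.two_pow_pos _) hN).ne'
  have m2 : k + 1 ≤ (k + 1) ^ 2 := Nat.le_self_pow two_ne_zero _
  have g1 : A.γ ≤ 10 * (k + 1) ^ 2 := by omega
  have g2 : 9 * (k + 1) ≤ A.γ := by omega
  obtain ⟨j, j1, j2, j3⟩ := exists_exp k (A.γ ^ 2) (Nat.log 2 N)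
    ((Nat.pow_le_pow_left g2 2).trans' (by ring_nf; rfl))
    ((Nat.pow_le_pow_left g1 2).trans (by ring_nf; rfl))
    (Nat.le_log_of_pow_le one_lt_two hN)
  have hI : Fintype.card (Idx k) = 4 * (k + 1) := by simp
  obtain ⟨s, hs⟩ : ∃ s, s = (k * k * k + k * k * (4 * (k + 1)) + k) * (2 * A.γ) + 1 := ⟨_, rfl⟩
  have s1 : s ≤ (2 ^ (k + 1)) ^ 12 := hs ▸ grid_le k _ g1
  have hp := (field_le k s s1).trans (Nat.pow_le_pow_right two_pos j1)
  have hq : Nat.card (GaloisField 2 j) = 2 ^ j := GaloisField.card 2 j (by omega)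
  have := Fintype.ofFinite (GaloisField 2 j)
  have hq' : Fintype.card (GaloisField 2 j) = 2 ^ j := by rw [← hq, Nat.card_eq_fintype_card]
  obtain ⟨S, -, hS⟩ := Finset.exists_subset_card_eq (s := (univ : Finset (GaloisField 2 j)))
    (n := s) (by rw [card_univ, hq']; omega)
  have hQ : Fintype.card (Fin 2 → S) = s ^ 2 := by simp [hS]
  obtain ⟨e⟩ := Function.Embedding.nonempty_of_card_le (α := (Fin 2 → S) × Fin k)
    (β := (GaloisField 2 j)ˣ) (by
      rw [Fintype.card_prod, hQ, Fintype.card_fin, Fintype.card_units, hq']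
      omega)
  let T : Setup (GaloisField 2 j) k := ⟨A, S, fun x => (e x : GaloisField 2 j),
    fun x y h => e.injective (Units.ext h), fun x => (e x).ne_zero⟩
  have := T.finite_V
  obtain ⟨x, hx⟩ : S.Nonempty := Finset.card_pos.1 (by omega)
  refine between T.G Setup.cliqueFree _ k N (Setup.extension0 ?_ ?_) ?_ ?_
  · change _ * (2 * A.γ) < S.card
    rw [hS, hI, hs]
    exact Nat.lt_succ_self _
  · change k * (Fintype.card (Fin 2 → S) * (k * k)) + k * k + 1 < _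
    rw [hQ, hq']
    omega
  · have h := T.card_upper
    change _ * _ ^ A.γ ^ 2 ≤ S.card ^ 2 * (_ ^ A.γ ^ 2) ^ _ at h
    rw [hq, hS, ← pow_mul, ← pow_mul] at h
    refine le_trans ?_ (Nat.pow_log_le_self 2 N0)
    refine Nat.le_of_mul_le_mul_right (h.trans ?_) (Nat.two_pow_pos _)
    rw [← pow_add]
    refine le_trans ?_ (Nat.pow_le_pow_right two_pos j2)
    rw [pow_add]
    exact Nat.mul_le_mul_right _ ((Nat.pow_le_pow_left s1 2).trans (by ring_nf; rfl))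
  · have h := T.card_lower fun _ => ⟨x, hx⟩
    change (_ ^ A.γ ^ 2) ^ _ ≤ _ at h
    rw [hq, ← pow_mul, ← pow_mul, ← pow_mul] at h
    refine (Nat.lt_pow_succ_log_self one_lt_two N).le.trans ?_
    refine Nat.le_of_mul_le_mul_right (le_trans ?_ h) (Nat.two_pow_pos _)
    rw [← pow_add]
    exact Nat.pow_le_pow_right two_pos (j3.trans_eq (mul_assoc _ _ _))

end Pool.Agent.Lib.MP_61ca19_lc.KS
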