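import Pool.Agent.Lib.MP_61ca19_lc.Inv

/-!
# Character sums over affine families of points
-/

set_option autoImplicit false

namespace Pool.Agent.Lib.MP_61ca19_lc

open Finset Polynomial

/-- Polynomials of degree at most `n`. -/
abbrev Pd (F : Type) [Field F] (n : ℕ) : Type := degreeLT F (n + 1)

variable {F : Type} [Field F]

theorem mem_Pd {n : ℕ} {p : F[X]} : p ∈ degreeLT F (n + 1) ↔ p.natDegree ≤ n := by
  rw [mem_degreeLT, natDegree_le_iff_degree_le]
  cases p.degree with
  | bot => simp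
  | coe d => exact (WithBot.coe_lt_coe.trans Nat.lt_succ_iff).trans WithBot.coe_le_coe.symm

theorem Pd.le {n : ℕ} (p : Pd F n) : p.1.natDegree ≤ n := mem_Pd.1 p.2

noncomputable instance [Fintype F] (n : ℕ) : Fintype (Pd F n) :=
  Fintype.ofEquiv _ (degreeLTEquiv F (n + 1)).symm.toEquiv

theorem card_Pd [Fintype F] (n : ℕ) : Fintype.card (Pd F n) = Fintype.card F ^ (n + 1) := by
  rw [Fintype.card_congr (degreeLTEquiv F (n + 1)).toEquiv]
  simp

variable {ι κ : Type}

theorem rank_lemma (φ : ι → F[X] →+ ZMod 2) {A B s : ℕ} (hs : s ≤ A)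
    (h : ∀ p : F[X], p.natDegree ≤ B → ∃ c : F[X], c ≠ 0 ∧ c.natDegree ≤ s ∧
      ∀ l (z : F[X]), z.natDegree ≤ A → φ l (z * p * c) = 0) :
    ∃ f : F[X], f ≠ 0 ∧ f.natDegree ≤ s ∧
      ∀ l (w : F[X]), w.natDegree ≤ A + B - s → φ l (f * w) = 0 := by
  obtain ⟨f, h0, h1, h2⟩ := h 1 (by simp)
  refine ⟨f, h0, h1, fun l => ?_⟩
  suffices H : ∀ n, n ≤ A + B - s → ∀ w : F[X], w.natDegree ≤ n → φ l (f * w) = 0 from
    H _ le_rfl
  intro n
  induction n with
  | zero =>
    intro _ w hw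
    rw [← h2 l w (by omega), mul_one, mul_comm]
  | succ n ih =>
    intro hn w hw
    by_cases hA : n + 1 ≤ A
    · rw [← h2 l w (by omega), mul_one, mul_comm]
    obtain ⟨c, c0, c1, c2⟩ := h (f * X ^ (n + 1 - A))
      (natDegree_mul_le.trans (by rw [natDegree_X_pow]; omega))
    let u : F[X] := C (w.coeff (n + 1) / c.leadingCoeff) * (c * X ^ (n + 1 - c.natDegree))
    have hu : φ l (f * u) = 0 := by
      rw [← c2 l (C (w.coeff (n + 1) / c.leadingCoeff) * X ^ (A - c.natDegree))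
        ((natDegree_C_mul_X_pow_le _ _).trans (by omega))]
      congr 1
      have : n + 1 - c.natDegree = A - c.natDegree + (n + 1 - A) := by omega
      simp only [u, this]
      ring
    have hd : (w - u).natDegree ≤ n := by
      refine natDegree_le_pred (n := n + 1) ((natDegree_sub_le _ _).trans (max_le hw
        ((natDegree_C_mul_le _ _).trans (natDegree_mul_le.trans ?_)))) ?_
      · rw [natDegree_X_pow]
        omega
      · have : n + 1 = c.natDegree + (n + 1 - c.natDegree) := by omega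
        have h3 : (c * X ^ (n + 1 - c.natDegree)).coeff (n + 1) = c.leadingCoeff := by
          conv_lhs => rw [this, Nat.add_sub_cancel_left, coeff_mul_X_pow]
          rfl
        rw [coeff_sub, coeff_C_mul, h3, div_mul_cancel₀ _ (leadingCoeff_ne_zero.2 c0), sub_self]
    have := ih (by omega) _ hd
    rwa [mul_sub, map_sub, hu, sub_zero] at this

variable [Fintype ι] [Fintype κ] [DecidableEq κ]

/-- Parameters of the affine family. -/
abbrev Par (F : Type) [Field F] (κ : Type) : Type := (κ → Pd F 48) × (κ → Pd F 25)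

/-- The pairing of a fixed point with a point of the family. -/
noncomputable def gz (f : F[X]) (a b : κ → F[X]) (w : Par F κ) : F[X] :=
  pr (fun i => a i + f * w.2 i) (fun i => b i + f * w.1 i)

omit [DecidableEq κ] in
theorem gz_add_left (f : F[X]) (a b : κ → F[X]) (w₁ δ : κ → Pd F 48) (w₂ : κ → Pd F 25) :
    gz f a b (w₁ + δ, w₂) = gz f a b (w₁, w₂) + ∑ i, (a i + f * w₂ i) * (f * δ i) := by
  simp only [gz, pr, Pi.add_apply, Submodule.coe_add, ← Finset.sum_add_distrib]
  exact Finset.sum_congr rfl fun i _ => by ring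

omit [DecidableEq κ] in
theorem gz_add_right (f : F[X]) (a b : κ → F[X]) (w₁ : κ → Pd F 48) (w₂ δ : κ → Pd F 25) :
    gz f a b (w₁, w₂ + δ) = gz f a b (w₁, w₂) + ∑ i, (b i + f * w₁ i) * (f * δ i) := by
  simp only [gz, pr, Pi.add_apply, Submodule.coe_add, ← Finset.sum_add_distrib]
  exact Finset.sum_congr rfl fun i _ => by ring

omit [Fintype ι] in
theorem sum_single_Pd {n : ℕ} (i : κ) (v : Pd F n) (x : κ → F[X]) (f : F[X]) :
    ∑ j, x j * (f * (Pi.single i v : κ → Pd F n) j) = x i * (f * v) := by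
  rw [Finset.sum_eq_single i]
  · simp
  · intro j _ hj
    simp [hj]
  · simp

/-- The relations forced by a large character sum. -/
structure Big (f : F[X]) (a b : ι → κ → F[X]) (φ : ι → F[X] →+ ZMod 2) : Prop where
  quad : ∀ u v : F[X], u.natDegree ≤ 25 → v.natDegree ≤ 48 → ∑ l, φ l (f * u * (f * v)) = 0
  lg : ∀ i (v : F[X]), v.natDegree ≤ 48 → ∑ l, φ l (a l i * (f * v)) = 0
  sh : ∀ i (u : F[X]), u.natDegree ≤ 25 → ∑ l, φ l (b l i * (f * u)) = 0

omit [DecidableEq κ] in
theorem Big.const {f : F[X]} {a b : ι → κ → F[X]} {φ : ι → F[X] →+ ZMod 2} (h : Big f a b φ)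
    (w : Par F κ) : ∑ l, φ l (gz f (a l) (b l) w) = ∑ l, φ l (pr (a l) (b l)) := by
  have e : ∀ l, gz f (a l) (b l) w = pr (a l) (b l) + ∑ i, (a l i * (f * w.1 i) +
      b l i * (f * w.2 i) + f * w.2 i * (f * w.1 i)) := fun l => by
    simp only [gz, pr, ← Finset.sum_add_distrib]
    exact Finset.sum_congr rfl fun i _ => by ring
  simp only [e, map_add, map_sum, Finset.sum_add_distrib]
  rw [Finset.sum_comm (f := fun l i => φ l (a l i * (f * w.1 i))),
    Finset.sum_comm (f := fun l i => φ l (b l i * (f * w.2 i))),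
    Finset.sum_comm (f := fun l i => φ l (f * w.2 i * (f * w.1 i)))]
  simp only [h.lg _ _ (Pd.le _), h.sh _ _ (Pd.le _), h.quad _ _ (Pd.le _) (Pd.le _),
    Finset.sum_const_zero, add_zero]

theorem small [Fintype F] (f : F[X]) (a b : ι → κ → F[X]) (φ : ι → F[X] →+ ZMod 2) :
    |∑ w : Par F κ, sg (∑ l, φ l (gz f (a l) (b l) w))| * (Fintype.card F : ℝ) ^ Fintype.card κ ≤
      Fintype.card (Par F κ) ∨ Big f a b φ := by
  classical
  by_cases hq : ∀ u v : F[X], u.natDegree ≤ 25 → v.natDegree ≤ 48 →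
      ∑ l, φ l (f * u * (f * v)) = 0
  · by_cases h1 : ∀ i (v : F[X]), v.natDegree ≤ 48 → ∑ l, φ l (a l i * (f * v)) = 0
    · by_cases h2 : ∀ i (u : F[X]), u.natDegree ≤ 25 → ∑ l, φ l (b l i * (f * u)) = 0
      · exact Or.inr ⟨hq, h1, h2⟩
      · push Not at h2
        obtain ⟨i, u, hu, h2⟩ := h2
        left
        rw [sum_sg_shift _ (0, Pi.single i ⟨u, mem_Pd.2 hu⟩) fun w => ?_]
        · rw [abs_zero, zero_mul]
          positivity
        · have : w + (0, Pi.single i ⟨u, mem_Pd.2 hu⟩) =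
              (w.1, w.2 + Pi.single i ⟨u, mem_Pd.2 hu⟩) := by simp [Prod.ext_iff]
          simp only [this, gz_add_right, sum_single_Pd, add_mul, map_add, Finset.sum_add_distrib,
            z2_eq_one h2, mul_comm (f * (w.1 i : F[X])), hq u _ hu (Pd.le _), add_zero]
    · push Not at h1
      obtain ⟨i, v, hv, h1⟩ := h1
      left
      rw [sum_sg_shift _ (Pi.single i ⟨v, mem_Pd.2 hv⟩, 0) fun w => ?_]
      · rw [abs_zero, zero_mul]
        positivity
      · have : w + (Pi.single i ⟨v, mem_Pd.2 hv⟩, 0) =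
            (w.1 + Pi.single i ⟨v, mem_Pd.2 hv⟩, w.2) := by simp [Prod.ext_iff]
        simp only [this, gz_add_left, sum_single_Pd, add_mul, map_add, Finset.sum_add_distrib,
          z2_eq_one h1, hq _ v (Pd.le _) hv, add_zero]
  left
  push Not at hq
  obtain ⟨u, v, hu, hv, hq⟩ := hq
  let δ : (κ → F) → κ → Pd F 48 := fun c i => c i • ⟨v, mem_Pd.2 hv⟩
  let ph : (κ → F) → (κ → Pd F 25) → ZMod 2 := fun c w₂ =>
    ∑ l, φ l (∑ i, (a l i + f * w₂ i) * (f * δ c i))
  have hZ := count_affine ph (fun c c' w₂ => by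
    simp only [ph, δ, Pi.add_apply, add_smul, Submodule.coe_add, mul_add, Finset.sum_add_distrib,
      map_add]) fun c hc => by
    obtain ⟨i, hi⟩ := Function.ne_iff.1 hc
    refine ⟨Pi.single i ((c i)⁻¹ • ⟨u, mem_Pd.2 hu⟩), fun w₂ => ?_⟩
    have e : ∀ l, ∑ j, (a l j + f * (w₂ + Pi.single i ((c i)⁻¹ • ⟨u, mem_Pd.2 hu⟩) :
        κ → Pd F 25) j) * (f * δ c j) =
        ∑ j, (a l j + f * w₂ j) * (f * δ c j) + f * u * (f * v) := fun l => by
      have e1 := sum_single_Pd i ((c i)⁻¹ • (⟨u, mem_Pd.2 hu⟩ : Pd F 25)) (fun j => f * δ c j) f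
      have e2 : f * (δ c i : F[X]) * (f * ((c i)⁻¹ • (⟨u, mem_Pd.2 hu⟩ : Pd F 25) : Pd F 25)) =
          f * u * (f * v) := by
        simp only [δ, Submodule.coe_smul, mul_smul_comm, smul_mul_assoc, smul_smul]
        rw [inv_mul_cancel₀ hi, one_smul]
        ring
      rw [← e2, ← e1, ← Finset.sum_add_distrib]
      exact Finset.sum_congr rfl fun j _ => by
        simp only [Pi.add_apply, Submodule.coe_add]
        ring
    simp only [ph, e, map_add, Finset.sum_add_distrib, z2_eq_one hq]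
  have hin : ∀ w₂ : κ → Pd F 25, |∑ w₁, sg (∑ l, φ l (gz f (a l) (b l) (w₁, w₂)))| ≤
      if ∀ c, ph c w₂ = 0 then (Fintype.card (κ → Pd F 48) : ℝ) else 0 := by
    intro w₂
    split_ifs with h
    · exact abs_sum_sg_le _
    · push Not at h
      obtain ⟨c, hc⟩ := h
      rw [sum_sg_shift _ (δ c) fun w₁ => ?_, abs_zero]
      simp only [gz_add_left, map_add, Finset.sum_add_distrib]
      rw [← z2_eq_one hc]
  rw [Fintype.sum_prod_type_right, Fintype.card_prod, Nat.cast_mul, ← hZ, Fintype.card_fun (α := κ)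
    (β := F), Nat.cast_pow, mul_comm ((Fintype.card F : ℝ) ^ _), ← mul_assoc]
  refine mul_le_mul_of_nonneg_right ((Finset.abs_sum_le_sum_abs _ _).trans
    ((Finset.sum_le_sum fun w₂ _ => hin w₂).trans ?_)) (by positivity)
  rw [← Finset.sum_filter, Finset.sum_const, nsmul_eq_mul, mul_comm]

end Pool.Agent.Lib.MP_61ca19_lc
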